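import Pool.Agent.H25.TD.Defs
import Pool.Agent.H25.TK.Pack

/-!
Linking few pairs through a reserve made of coarse clusters.

PROOF of `reserve_walk`. Let `t = √(8 E/(δ z))`, `cheap = {v : y v <= t}`; at most
`E/t² = δ z/8` vertices are not cheap. `a = A i`, `b = A j`. There is a walk
`a = a_0, a_1, ..., a_q = b` in `R0` with `1 <= q <= 2 card ι` (a path of length `< card ι`,
preceded by `a, a', a` with a neighbour `a'` of `a`). `S_0 = nb (f i) ∩ Z a ∩ cheap` has at least
`7/8 δ z >= δ/4 z` elements; `S_(t+1) = {w ∈ Z a_(t+1) ∩ cheap : w has a neighbour in S_t}`: the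
set `Z a_(t+1) ∩ cheap \ S_(t+1)` has no edge to `S_t` so it has fewer than `δ/4 z` elements
(`hreg`), so `|S_(t+1)| >= z - δ z/8 - δ z/4 >= δ/4 z`. Finally `|S_q| >= (1 - 3δ/8) z` and
`|nb (f j) ∩ Z b ∩ cheap| >= 7/8 δ z`, sum more than `z`: they meet. This gives a walk
`w_0 ∈ nb (f i), ..., w_q ∈ nb (f j)` of at most `2 card ι + 1` cheap vertices of the reserve; the
set of its vertices has weight at most `(2 card ι + 1) t`.

PROOF of `reserve_routes`. `pack` with index type `{q // q ∈ Lft}` and `F (i,j)` = the finsets `S`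
inside `⋃ Z` with `Conn G (f i) (f j) S`; `τ2 = (2 card ι + 1) √(8/(δ z))`,
`τ1 = |Lft| τ2`, `τ1 τ2 = |Lft| (2 card ι + 1)² 8/(δ z) <= 1/16`. Nonempty: `reserve_walk` for
`y = 0`, `E = 1`. (If `z = 0` the hypothesis `hL` forces `Lft = ∅`.)
-/

namespace Pool.Agent.H25.TD

open Finset Pool.Agent.H25.TK
open scoped Classical

noncomputable section

/-- A reserve: coarse clusters `Z a` of size `z` with connected lower regular pattern `R0`. -/
structure Reserve {V : Type} [Fintype V] (G : SimpleGraph V) {ι : Type} [Fintype ι]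
    (Z : ι → Finset V) (R0 : SimpleGraph ι) (z : ℕ) (δ : ℝ) : Prop where
  δpos : 0 < δ
  δle : δ ≤ 1
  disj : ∀ a b, a ≠ b → Disjoint (Z a) (Z b)
  card : ∀ a, (Z a).card = z
  conn : R0.Preconnected
  nbr : ∀ a, ∃ b, R0.Adj a b
  reg : ∀ a b, R0.Adj a b → ∀ S ⊆ Z a, ∀ T ⊆ Z b, δ / 4 * z ≤ (S.card : ℝ) →
    δ / 4 * z ≤ (T.card : ℝ) → ∃ s ∈ S, ∃ t ∈ T, G.Adj s t

private theorem rs_card_inter {V : Type} [Fintype V] (A C : Finset V) (β : ℝ)
    (hβ : (((univ : Finset V) \ C).card : ℝ) ≤ β) : (A.card : ℝ) - β ≤ ((A ∩ C).card : ℝ) := by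
  have h1 : A.card ≤ (A ∩ C).card + ((univ : Finset V) \ C).card := by
    calc A.card = (A ∩ C).card + (A \ C).card := (Finset.card_inter_add_card_sdiff A C).symm
      _ ≤ _ := Nat.add_le_add_left
        (Finset.card_le_card (Finset.sdiff_subset_sdiff (Finset.subset_univ A) (le_refl C))) _
  have h2 : (A.card : ℝ) ≤ ((A ∩ C).card : ℝ) + (((univ : Finset V) \ C).card : ℝ) := by
    exact_mod_cast h1
  linarith

private theorem rs_step {V : Type} [Fintype V] {G : SimpleGraph V} {ι : Type} [Fintype ι]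
    {Z : ι → Finset V} {R0 : SimpleGraph ι} {z : ℕ} {δ : ℝ} (hR : Reserve G Z R0 z δ)
    (C : Finset V) (hC : (((univ : Finset V) \ C).card : ℝ) ≤ δ * z / 8)
    (a c : ι) (hac : R0.Adj a c) (S : Finset V) (hS : S ⊆ Z a) (hSc : δ / 4 * z ≤ (S.card : ℝ)) :
    (1 - 3 * δ / 8) * z ≤ ((((Z c) ∩ C).filter (fun w => ∃ s ∈ S, G.Adj s w)).card : ℝ) := by
  have h1 := rs_card_inter (Z c) C _ hC
  rw [hR.card c] at h1
  have h2 : (((Z c) ∩ C).filter (fun w => ¬ ∃ s ∈ S, G.Adj s w)).card < δ / 4 * z := by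
    by_contra hcon
    rw [not_lt] at hcon
    obtain ⟨s, hs, w, hw, hadj⟩ := hR.reg a c hac S hS _
      ((Finset.filter_subset _ _).trans Finset.inter_subset_left) hSc hcon
    exact (Finset.mem_filter.mp hw).2 ⟨s, hs, hadj⟩
  have h3 : (((Z c) ∩ C).card : ℝ)
      = ((((Z c) ∩ C).filter (fun w => ∃ s ∈ S, G.Adj s w)).card : ℝ)
        + ((((Z c) ∩ C).filter (fun w => ¬ ∃ s ∈ S, G.Adj s w)).card : ℝ) := by
    exact_mod_cast (Finset.card_filter_add_card_filter_not
      (s := (Z c) ∩ C) (fun w => ∃ s ∈ S, G.Adj s w)).symm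
  nlinarith

private theorem rs_walk {V : Type} [Fintype V] {G : SimpleGraph V} {ι : Type} [Fintype ι]
    {Z : ι → Finset V} {R0 : SimpleGraph ι} {z : ℕ} {δ : ℝ} (hR : Reserve G Z R0 z δ)
    (C : Finset V) (hC : (((univ : Finset V) \ C).card : ℝ) ≤ δ * z / 8) {a c : ι}
    (p : R0.Walk a c) : ∀ S ⊆ Z a, S ⊆ C → δ / 4 * z ≤ (S.card : ℝ) → 0 < p.length →
      ∃ T ⊆ Z c, (1 - 3 * δ / 8) * z ≤ (T.card : ℝ) ∧ ∀ w ∈ T, ∃ s ∈ S, ∃ q : G.Walk s w,
        q.length ≤ p.length ∧ ∀ x ∈ q.support, (∃ e, x ∈ Z e) ∧ x ∈ C := by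
  induction p with
  | nil =>
    intro S _ _ _ h
    simp at h
  | @cons a a1 c h p ih =>
    intro S hS hSC hSc _
    set S1 : Finset V := ((Z a1) ∩ C).filter (fun w => ∃ s ∈ S, G.Adj s w) with hS1
    have h1 : (1 - 3 * δ / 8) * z ≤ (S1.card : ℝ) := rs_step hR C hC a a1 h S hS hSc
    have h2 : S1 ⊆ Z a1 := (Finset.filter_subset _ _).trans Finset.inter_subset_left
    have h3 : S1 ⊆ C := (Finset.filter_subset _ _).trans Finset.inter_subset_right
    rcases Nat.eq_zero_or_pos p.length with h0 | h0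
    · have hac : a1 = c := SimpleGraph.Walk.eq_of_length_eq_zero h0
      subst hac
      refine ⟨S1, h2, h1, fun w hw => ?_⟩
      obtain ⟨s, hs, hadj⟩ := (Finset.mem_filter.mp hw).2
      refine ⟨s, hs, SimpleGraph.Walk.cons hadj SimpleGraph.Walk.nil, ?_, ?_⟩
      · simp
      · intro x hx
        simp only [SimpleGraph.Walk.support_cons, SimpleGraph.Walk.support_nil, List.mem_cons,
          List.not_mem_nil, or_false] at hx
        rcases hx with rfl | rfl
        · exact ⟨⟨a, hS hs⟩, hSC hs⟩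
        · exact ⟨⟨a1, h2 hw⟩, h3 hw⟩
    · have hz : (0 : ℝ) ≤ z := Nat.cast_nonneg z
      have h4 : δ / 4 * z ≤ (S1.card : ℝ) := by
        refine le_trans ?_ h1
        apply mul_le_mul_of_nonneg_right _ hz
        linarith [hR.δle]
      obtain ⟨T, hT, hTc, hTw⟩ := ih S1 h2 h3 h4 h0
      refine ⟨T, hT, hTc, fun w hw => ?_⟩
      obtain ⟨s1, hs1, q, hq, hqs⟩ := hTw w hw
      obtain ⟨s, hs, hadj⟩ := (Finset.mem_filter.mp hs1).2
      refine ⟨s, hs, SimpleGraph.Walk.cons hadj q, ?_, ?_⟩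
      · simp only [SimpleGraph.Walk.length_cons]
        omega
      · intro x hx
        rw [SimpleGraph.Walk.support_cons, List.mem_cons] at hx
        rcases hx with rfl | hx
        · exact ⟨⟨a, hS hs⟩, hSC hs⟩
        · exact hqs x hx

theorem reserve_walk {V : Type} [Fintype V] {G : SimpleGraph V} {ι : Type} [Fintype ι]
    {Z : ι → Finset V} {R0 : SimpleGraph ι} {z : ℕ} {δ : ℝ} (hR : Reserve G Z R0 z δ)
    (hz : 0 < z) (u v : V) (a b : ι) (hu : δ * z ≤ ((nb G u ∩ Z a).card : ℝ))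
    (hv : δ * z ≤ ((nb G v ∩ Z b).card : ℝ)) (y : V → ℝ) (E : ℝ) (hy : ∀ v, 0 ≤ y v)
    (hE : ∑ v, y v ^ 2 ≤ E) (hE0 : 0 < E) :
    ∃ S : Finset V, (∀ w ∈ S, ∃ c, w ∈ Z c) ∧ Conn G u v (S : Set V) ∧
      ∑ w ∈ S, y w ≤ (2 * Fintype.card ι + 1) * √(8 / (δ * z)) * √E := by
  have hz' : (0 : ℝ) < z := by exact_mod_cast hz
  have hδ := hR.δpos
  have hδz : 0 < δ * z := mul_pos hδ hz'
  set t : ℝ := √(8 / (δ * z)) * √E with ht
  have ht0 : 0 < t := by
    rw [ht]
    exact mul_pos (Real.sqrt_pos.mpr (by positivity)) (Real.sqrt_pos.mpr hE0)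
  have ht2 : t ^ 2 = 8 / (δ * z) * E := by
    rw [ht, mul_pow, Real.sq_sqrt (by positivity), Real.sq_sqrt hE0.le]
  set C : Finset V := univ.filter (fun w => y w ≤ t) with hCdef
  have hC : (((univ : Finset V) \ C).card : ℝ) ≤ δ * z / 8 := by
    have h1 : (((univ : Finset V) \ C).card : ℝ) * t ^ 2 ≤ E := by
      calc (((univ : Finset V) \ C).card : ℝ) * t ^ 2
          = ∑ w ∈ (univ : Finset V) \ C, t ^ 2 := by
            rw [Finset.sum_const, nsmul_eq_mul]
        _ ≤ ∑ w ∈ (univ : Finset V) \ C, y w ^ 2 := by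
            refine Finset.sum_le_sum fun w hw => ?_
            rw [Finset.mem_sdiff, hCdef, Finset.mem_filter] at hw
            have hw' : t < y w := by
              by_contra hcon
              exact hw.2 ⟨Finset.mem_univ w, not_lt.mp hcon⟩
            exact pow_le_pow_left₀ ht0.le hw'.le 2
        _ ≤ ∑ w, y w ^ 2 :=
            Finset.sum_le_sum_of_subset_of_nonneg (Finset.subset_univ _) fun _ _ _ => sq_nonneg _
        _ ≤ E := hE
    rw [ht2] at h1
    have h2 : (((univ : Finset V) \ C).card : ℝ) * (8 / (δ * z)) ≤ 1 := by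
      have h3 : (((univ : Finset V) \ C).card : ℝ) * (8 / (δ * z)) * E ≤ 1 * E := by
        linarith
      exact le_of_mul_le_mul_right h3 hE0
    have h4 : (((univ : Finset V) \ C).card : ℝ) * (8 / (δ * z))
        = (((univ : Finset V) \ C).card : ℝ) * 8 / (δ * z) := by ring
    rw [h4, div_le_one hδz] at h2
    linarith
  -- the pattern walk
  obtain ⟨a', ha'⟩ := hR.nbr a
  obtain ⟨p0⟩ := hR.conn a b
  have hpath : (p0.toPath : R0.Walk a b).length < Fintype.card ι :=
    (p0.toPath).2.length_lt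
  set p : R0.Walk a b := SimpleGraph.Walk.cons ha'
    (SimpleGraph.Walk.cons ha'.symm (p0.toPath : R0.Walk a b)) with hp
  have hpl : p.length = (p0.toPath : R0.Walk a b).length + 2 := by
    rw [hp]; simp
  have hcard : 1 < Fintype.card ι := Fintype.one_lt_card_iff.mpr ⟨a, a', ha'.ne⟩
  -- start set
  have hS0 := rs_card_inter (nb G u ∩ Z a) C _ hC
  have hS0' : δ / 4 * z ≤ (((nb G u ∩ Z a) ∩ C).card : ℝ) := by nlinarith
  obtain ⟨T, hT, hTc, hTw⟩ := rs_walk hR C hC p ((nb G u ∩ Z a) ∩ C)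
    (Finset.inter_subset_left.trans Finset.inter_subset_right) Finset.inter_subset_right hS0'
    (by omega)
  have hS1 := rs_card_inter (nb G v ∩ Z b) C _ hC
  have hmeet : ∃ w, w ∈ T ∧ w ∈ (nb G v ∩ Z b) ∩ C := by
    by_contra hcon
    push Not at hcon
    have hdisj : Disjoint T ((nb G v ∩ Z b) ∩ C) := by
      rw [Finset.disjoint_left]
      exact hcon
    have hsub : T ∪ ((nb G v ∩ Z b) ∩ C) ⊆ Z b :=
      Finset.union_subset hT (Finset.inter_subset_left.trans Finset.inter_subset_right)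
    have h1 := Finset.card_le_card hsub
    rw [Finset.card_union_of_disjoint hdisj, hR.card b] at h1
    have h2 : (T.card : ℝ) + (((nb G v ∩ Z b) ∩ C).card : ℝ) ≤ z := by exact_mod_cast h1
    nlinarith
  obtain ⟨w, hwT, hwS⟩ := hmeet
  obtain ⟨s, hs, q, hq, hqs⟩ := hTw w hwT
  have hus : G.Adj u s := by
    have h1 := (Finset.mem_inter.mp (Finset.mem_inter.mp hs).1).1
    unfold nb at h1
    exact (Finset.mem_filter.mp h1).2
  have hvw : G.Adj v w := by
    have h1 := (Finset.mem_inter.mp (Finset.mem_inter.mp hwS).1).1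
    unfold nb at h1
    exact (Finset.mem_filter.mp h1).2
  refine ⟨q.support.toFinset, ?_, ?_, ?_⟩
  · intro x hx
    exact (hqs x (List.mem_toFinset.mp hx)).1
  · refine ⟨SimpleGraph.Walk.cons hus (q.append (SimpleGraph.Walk.cons hvw.symm
      SimpleGraph.Walk.nil)), ?_⟩
    intro x hx
    rw [SimpleGraph.Walk.support_cons, List.mem_cons, SimpleGraph.Walk.mem_support_append_iff,
      SimpleGraph.Walk.support_cons, SimpleGraph.Walk.support_nil] at hx
    rcases hx with rfl | hx | hx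
    · exact Or.inl rfl
    · exact Or.inr (Or.inr (by simpa using hx))
    · simp only [List.mem_cons, List.not_mem_nil, or_false] at hx
      rcases hx with rfl | rfl
      · exact Or.inr (Or.inr (by simp))
      · exact Or.inr (Or.inl rfl)
  · have h1 : ∑ x ∈ q.support.toFinset, y x ≤ ∑ x ∈ q.support.toFinset, t := by
      refine Finset.sum_le_sum fun x hx => ?_
      have := (hqs x (List.mem_toFinset.mp hx)).2
      rw [hCdef, Finset.mem_filter] at this
      exact this.2
    have h2 : q.support.toFinset.card ≤ 2 * Fintype.card ι + 1 := by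
      refine (List.toFinset_card_le _).trans ?_
      rw [SimpleGraph.Walk.length_support]
      omega
    have h3 : (q.support.toFinset.card : ℝ) ≤ 2 * Fintype.card ι + 1 := by exact_mod_cast h2
    calc ∑ x ∈ q.support.toFinset, y x ≤ ∑ x ∈ q.support.toFinset, t := h1
      _ = (q.support.toFinset.card : ℝ) * t := by rw [Finset.sum_const, nsmul_eq_mul]
      _ ≤ (2 * Fintype.card ι + 1) * t := mul_le_mul_of_nonneg_right h3 ht0.le
      _ = (2 * Fintype.card ι + 1) * √(8 / (δ * z)) * √E := by rw [ht]; ring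

theorem reserve_routes {V : Type} [Fintype V] {G : SimpleGraph V} {ι : Type} [Fintype ι]
    {Z : ι → Finset V} {R0 : SimpleGraph ι} {z : ℕ} {δ : ℝ} (hR : Reserve G Z R0 z δ)
    {k : ℕ} (f : Fin k → V) (hf : ∀ i, ∃ a, δ * z ≤ ((nb G (f i) ∩ Z a).card : ℝ))
    (Lft : Finset (Fin k × Fin k))
    (hL : 128 * (2 * (Fintype.card ι : ℝ) + 1) ^ 2 * Lft.card ≤ δ * z) :
    ∃ R : Fin k → Fin k → Set V, (∀ i j, ∀ w ∈ R i j, ∃ c, w ∈ Z c) ∧
      (∀ i j, (i, j) ∈ Lft → Conn G (f i) (f j) (R i j)) ∧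
      (∀ i j i' j', (i, j) ∈ Lft → (i', j') ∈ Lft → (i, j) ≠ (i', j') →
        Disjoint (R i j) (R i' j')) := by
  rcases Nat.eq_zero_or_pos z with hz | hz
  · -- no pairs
    have hemp : Lft = ∅ := by
      rw [← Finset.card_eq_zero]
      have h1 : 128 * (2 * (Fintype.card ι : ℝ) + 1) ^ 2 * Lft.card ≤ 0 := by
        rw [hz] at hL
        simpa using hL
      have h2 : 0 < 128 * (2 * (Fintype.card ι : ℝ) + 1) ^ 2 := by positivity
      have h3 : (Lft.card : ℝ) ≤ 0 := by
        by_contra hcon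
        push Not at hcon
        have := mul_pos h2 hcon
        linarith
      exact_mod_cast le_antisymm h3 (Nat.cast_nonneg _)
    subst hemp
    refine ⟨fun _ _ => ∅, ?_, ?_, ?_⟩
    · intro i j w hw
      simp at hw
    · intro i j h
      simp at h
    · intro i j i' j' h
      simp at h
  · have hz' : (0 : ℝ) < z := by exact_mod_cast hz
    have hδz : 0 < δ * z := mul_pos hR.δpos hz'
    set τ2 : ℝ := (2 * Fintype.card ι + 1) * √(8 / (δ * z)) with hτ2
    have hτ2n : 0 ≤ τ2 := by rw [hτ2]; positivity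
    set F : {q // q ∈ Lft} → Finset (Finset V) := fun q =>
      univ.filter (fun S => (∀ w ∈ S, ∃ c, w ∈ Z c) ∧ Conn G (f q.1.1) (f q.1.2) (S : Set V))
      with hF
    have hwalk : ∀ (y : V → ℝ) (E : ℝ), (∀ v, 0 ≤ y v) → ∑ v, y v ^ 2 ≤ E → 0 < E →
        ∀ q : {q // q ∈ Lft}, ∃ S ∈ F q, ∑ w ∈ S, y w ≤ τ2 * √E := by
      intro y E hy hE hE0 q
      obtain ⟨a, ha⟩ := hf q.1.1
      obtain ⟨b, hb⟩ := hf q.1.2
      obtain ⟨S, hS1, hS2, hS3⟩ := reserve_walk hR hz (f q.1.1) (f q.1.2) a b ha hb y E hy hE hE0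
      refine ⟨S, ?_, hS3⟩
      rw [hF, Finset.mem_filter]
      exact ⟨Finset.mem_univ _, hS1, hS2⟩
    have hcardA : ((univ : Finset {q // q ∈ Lft}).card : ℝ) = Lft.card := by
      rw [Finset.card_univ, Fintype.card_coe]
    obtain ⟨R, hRF, hRd⟩ := pack F
      (by
        intro q
        obtain ⟨S, hS, _⟩ := hwalk (fun _ => 0) 1 (fun _ => le_rfl) (by simp) one_pos q
        exact ⟨S, hS⟩)
      (Lft.card * τ2) τ2 (by positivity) hτ2n
      (by
        have h1 : (Lft.card : ℝ) * τ2 * τ2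
            = 128 * (2 * (Fintype.card ι : ℝ) + 1) ^ 2 * Lft.card / (16 * (δ * z)) := by
          have h2 : √(8 / (δ * z)) * √(8 / (δ * z)) = 8 / (δ * z) :=
            Real.mul_self_sqrt (by positivity)
          calc (Lft.card : ℝ) * τ2 * τ2 = (Lft.card : ℝ) * (2 * Fintype.card ι + 1) ^ 2
                * (√(8 / (δ * z)) * √(8 / (δ * z))) := by rw [hτ2]; ring
            _ = _ := by
                rw [h2]
                field_simp
                ring
        rw [h1, div_le_div_iff₀ (by positivity) (by norm_num)]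
        linarith)
      (by
        intro y E hy hE hE0
        choose R hRF hRy using hwalk y E hy hE hE0
        refine ⟨R, hRF, ?_, hRy⟩
        calc ∑ a, ∑ v ∈ R a, y v ≤ ∑ _a : {q // q ∈ Lft}, τ2 * √E :=
              Finset.sum_le_sum fun a _ => hRy a
          _ = Lft.card * τ2 * √E := by
              rw [Finset.sum_const, nsmul_eq_mul, hcardA]
              ring)
    refine ⟨fun i j => if h : (i, j) ∈ Lft then (R ⟨(i, j), h⟩ : Set V) else ∅, ?_, ?_, ?_⟩
    · intro i j w hw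
      by_cases h : (i, j) ∈ Lft
      · simp only [h, dif_pos] at hw
        have := hRF ⟨(i, j), h⟩
        rw [hF, Finset.mem_filter] at this
        exact this.2.1 w (by simpa using hw)
      · simp [h] at hw
    · intro i j h
      simp only [h, dif_pos]
      have := hRF ⟨(i, j), h⟩
      rw [hF, Finset.mem_filter] at this
      exact this.2.2
    · intro i j i' j' h h' hne
      simp only [h, h', dif_pos]
      rw [Finset.disjoint_coe]
      exact hRd _ _ (fun hcon => hne (by simpa using hcon))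

end

end Pool.Agent.H25.TD
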