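import Pool.Agent.H25.TD.RegCl
import Pool.Agent.H25.TD.Reserve

/-!
The coarse partition: reserve and rest.

PROOF. `κ = min (1/100) (ε'/(100 (K+1)))`, `δ0 = min (1/8) κ`, `ρ = min (1/2) κ`, `ε0 = κ * δ0³ ρ²/256` (so
`ε0 <= δ0³ρ²/256` and `4 ε0/(δ0 ρ) <= κ`), `l >= 1/κ`; `reg_clusters ε0 (2 δ0) l` for
`H = univ` gives `M`, `m`, `P`, `d`. `n = |V|`, `n >= 4 ε' k²` (`dd <= n²`), `q = n/m`.
`Σ d |P i||P j| >= 2(lam + 2ε') k² n - (4 ε0 + 8 δ0 + 2/l) n² >= 2 (lam + 3/2 ε') k² n`.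
Pattern graph `R` on `Fin m`: `i ~ j` iff `0 < d i j`. The sum of
`Σ_{i,j ∈ C} d |P i||P j| - 2 (lam + 3/2 ε') k² |V_C|` over the components `C` (`V_C` = union of
the `P i`, `i ∈ C`) is nonnegative, so some component `C` has
`Σ_{i,j∈C} d |P i||P j| >= 2 (lam + 3/2 ε') k² |V_C| > 0`; in particular it has an edge and every
`i ∈ C` has a neighbour `nx i ∈ C`. `ι = {i // i ∈ C}`, `R0` = the induced pattern (connected).
`z = ⌊ρ q⌋₊`, `Z i ⊆ P i` with `z` elements; `z >= ρ q/2 >= ζ k²`, `ζ = ρ ε'/M` for large `k`.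
`X0` = the `u ∈ P i`, `i ∈ C`, with `|nb u ∩ Z (nx i)| < δ0 z`. With `X = X0 ∩ P i`,
`Y = Z (nx i)`: `(d - δ0)|X| z <= d|X||Y| - ee X Y <= ε0 |P i||P (nx i)|`, `d >= 2 δ0`, so
`|X| <= ε0 |P i| (2q)/(δ0 z) <= 4 ε0/(δ0 ρ) |P i| <= κ |P i|`. `H = V_C \ (⋃ Z ∪ X0)`.
`Reserve.reg`: `ee S T >= d |S||T| - ε0 |P i||P j| >= 2δ0 (δ0 z/4)² - 4 ε0 q² > 0`
(`z >= ρ q/2`). `dd G H >= Σ_{i,j∈C} ee (P i) (P j) - 2 |⋃Z ∪ X0||V_C| >=
Σ d |P i||P j| - ε0 |V_C|² - 2 (ρ + κ)|V_C|² >= 2 (lam + ε') k² |V_C|`, using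
`|V_C| <= n <= K k²`; in particular `H` is nonempty.
-/

namespace Pool.Agent.H25.TD

open Finset Pool.Agent.H25.TK
open scoped Classical

noncomputable section

private def Coarse_R {m : ℕ} (d : Fin m → Fin m → ℝ) : SimpleGraph (Fin m) :=
  SimpleGraph.fromRel (fun a b => 0 < d a b)

private lemma Coarse_R_adj {m : ℕ} {d : Fin m → Fin m → ℝ} (hs : ∀ i j, d i j = d j i)
    (h0 : ∀ i, d i i = 0) (a b : Fin m) : (Coarse_R d).Adj a b ↔ 0 < d a b := by
  unfold Coarse_R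
  rw [SimpleGraph.fromRel_adj]
  constructor
  · rintro ⟨-, h | h⟩
    · exact h
    · rw [hs]; exact h
  · intro h
    refine ⟨?_, Or.inl h⟩
    rintro rfl
    rw [h0] at h
    exact lt_irrefl _ h

private lemma Coarse_comp {m : ℕ} (hm : 0 < m) (d : Fin m → Fin m → ℝ)
    (hs : ∀ i j, d i j = d j i) (h0 : ∀ i, d i i = 0) (hn : ∀ i j, 0 ≤ d i j) (w : Fin m → ℝ)
    (hw : ∀ i, 0 < w i) (s : ℝ) (hspos : 0 < s)
    (hsum : s * ∑ i, w i ≤ ∑ i, ∑ j, d i j * (w i * w j)) :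
    ∃ C : Finset (Fin m), C.Nonempty ∧
      s * ∑ i ∈ C, w i ≤ ∑ i ∈ C, ∑ j ∈ C, d i j * (w i * w j) ∧
      ((Coarse_R d).comap (Subtype.val : {i // i ∈ C} → Fin m)).Preconnected ∧
      ∀ i ∈ C, ∃ j ∈ C, 0 < d i j := by
  set R := Coarse_R d with hR
  have hadj := Coarse_R_adj hs h0
  set g : Fin m → ℝ := fun i => ∑ j, d i j * (w i * w j) - s * w i with hg
  have hgs : 0 ≤ ∑ i, g i := by
    simp only [hg, Finset.sum_sub_distrib, ← Finset.mul_sum]
    linarith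
  have hfib : ∑ c : R.ConnectedComponent,
      ∑ i ∈ univ.filter (fun i => R.connectedComponentMk i = c), g i = ∑ i, g i :=
    Finset.sum_fiberwise univ (fun i => R.connectedComponentMk i) g
  have hne : (univ : Finset R.ConnectedComponent).Nonempty :=
    ⟨R.connectedComponentMk ⟨0, hm⟩, mem_univ _⟩
  obtain ⟨c, -, hc⟩ : ∃ c ∈ (univ : Finset R.ConnectedComponent),
      0 ≤ ∑ i ∈ univ.filter (fun i => R.connectedComponentMk i = c), g i := by
    by_contra hcon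
    push Not at hcon
    have := Finset.sum_lt_sum_of_nonempty hne hcon
    rw [hfib] at this
    simp only [Finset.sum_const_zero] at this
    linarith
  set C : Finset (Fin m) := univ.filter (fun i => R.connectedComponentMk i = c) with hC
  have hCne : C.Nonempty := by
    obtain ⟨i, hi⟩ := c.exists_rep
    exact ⟨i, mem_filter.2 ⟨mem_univ _, hi⟩⟩
  have hclosed : ∀ i j, i ∈ C → 0 < d i j → j ∈ C := by
    intro i j hi hij
    rw [hC, mem_filter] at hi ⊢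
    refine ⟨mem_univ _, ?_⟩
    rw [← hi.2]
    exact (SimpleGraph.ConnectedComponent.sound ((hadj i j).2 hij).reachable).symm
  have hsumC : s * ∑ i ∈ C, w i ≤ ∑ i ∈ C, ∑ j ∈ C, d i j * (w i * w j) := by
    have h1 : ∀ i ∈ C, ∑ j, d i j * (w i * w j) = ∑ j ∈ C, d i j * (w i * w j) := by
      intro i hi
      symm
      refine Finset.sum_subset (subset_univ _) fun j _ hj => ?_
      have : d i j = 0 := by
        by_contra hd
        exact hj (hclosed i j hi (lt_of_le_of_ne (hn i j) (Ne.symm hd)))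
      rw [this, zero_mul]
    have h2 : ∑ i ∈ C, g i = ∑ i ∈ C, ∑ j ∈ C, d i j * (w i * w j) - s * ∑ i ∈ C, w i := by
      simp only [hg, Finset.sum_sub_distrib, ← Finset.mul_sum]
      rw [Finset.sum_congr rfl h1]
    linarith
  have hwC : 0 < ∑ i ∈ C, w i := Finset.sum_pos (fun i _ => hw i) hCne
  refine ⟨C, hCne, hsumC, ?_, ?_⟩
  · have key : ∀ (u v : Fin m) (p : R.Walk u v) (hu : u ∈ C) (hv : v ∈ C),
        (R.comap (Subtype.val : {i // i ∈ C} → Fin m)).Reachable ⟨u, hu⟩ ⟨v, hv⟩ := by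
      intro u v p
      induction p with
      | nil => intro hu hv; exact SimpleGraph.Reachable.refl _
      | @cons a b c' h p ih =>
        intro hu hv
        have hb : b ∈ C := hclosed a b hu ((hadj a b).1 h)
        have h1 : (R.comap (Subtype.val : {i // i ∈ C} → Fin m)).Adj ⟨a, hu⟩ ⟨b, hb⟩ := h
        exact h1.reachable.trans (ih hb hv)
    rintro ⟨u, hu⟩ ⟨v, hv⟩
    have hu2 := (mem_filter.1 hu).2
    have hv2 := (mem_filter.1 hv).2
    have : R.Reachable u v := SimpleGraph.ConnectedComponent.exact (hu2.trans hv2.symm)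
    obtain ⟨p⟩ := this
    exact key u v p hu hv
  · intro i hi
    by_contra hcon
    push Not at hcon
    have hiso : ∀ j, d i j = 0 := by
      intro j
      by_contra hd
      have hp : 0 < d i j := lt_of_le_of_ne (hn i j) (Ne.symm hd)
      exact absurd hp (not_lt.2 (hcon j (hclosed i j hi hp)))
    have hCi : ∀ j ∈ C, j = i := by
      intro j hj
      have : R.Reachable i j := SimpleGraph.ConnectedComponent.exact
        ((mem_filter.1 hi).2.trans (mem_filter.1 hj).2.symm)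
      obtain ⟨p⟩ := this
      cases p with
      | nil => rfl
      | @cons _ b _ h p =>
        have := (hadj i b).1 h
        rw [hiso b] at this
        exact absurd this (lt_irrefl _)
    have hz : ∑ i ∈ C, ∑ j ∈ C, d i j * (w i * w j) = 0 := by
      refine Finset.sum_eq_zero fun a ha => Finset.sum_eq_zero fun b hb => ?_
      rw [hCi a ha, hiso b, zero_mul]
    rw [hz] at hsumC
    have := mul_pos hspos hwC
    linarith

private lemma Coarse_dd_sdiff {V : Type} [Fintype V] (G : SimpleGraph V) (U B : Finset V) :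
    (dd G U : ℝ) ≤ dd G (U \ B) + 2 * (B.card : ℝ) * U.card := by
  have hsub : (U ×ˢ U).filter (fun p : V × V => G.Adj p.1 p.2) ⊆
      (((U \ B) ×ˢ (U \ B)).filter (fun p : V × V => G.Adj p.1 p.2) ∪ B ×ˢ U) ∪ U ×ˢ B := by
    rintro ⟨x, y⟩ h
    rw [mem_filter, mem_product] at h
    obtain ⟨⟨hx, hy⟩, ha⟩ := h
    simp only at hx hy ha
    by_cases hxB : x ∈ B
    · exact mem_union_left _ (mem_union_right _ (mk_mem_product hxB hy))
    · by_cases hyB : y ∈ B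
      · exact mem_union_right _ (mk_mem_product hx hyB)
      · refine mem_union_left _ (mem_union_left _ ?_)
        rw [mem_filter, mem_product]
        exact ⟨⟨mem_sdiff.2 ⟨hx, hxB⟩, mem_sdiff.2 ⟨hy, hyB⟩⟩, ha⟩
  have h1 := card_le_card hsub
  have h2 := card_union_le ((((U \ B) ×ˢ (U \ B)).filter (fun p : V × V => G.Adj p.1 p.2)) ∪
    B ×ˢ U) (U ×ˢ B)
  have h3 := card_union_le (((U \ B) ×ˢ (U \ B)).filter (fun p : V × V => G.Adj p.1 p.2)) (B ×ˢ U)
  rw [card_product] at h2 h3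
  have h4 : dd G U ≤ dd G (U \ B) + B.card * U.card + U.card * B.card := by
    unfold dd
    omega
  have h5 : (dd G U : ℝ) ≤ dd G (U \ B) + B.card * U.card + U.card * B.card := by
    exact_mod_cast h4
  linarith

private lemma Coarse_dd_union {V : Type} [Fintype V] (G : SimpleGraph V) {m : ℕ}
    (P : Fin m → Finset V) (hP : ∀ i j, i ≠ j → Disjoint (P i) (P j)) (C : Finset (Fin m)) :
    (dd G (C.biUnion P) : ℝ) = ∑ i ∈ C, ∑ j ∈ C, (ee G (P i) (P j) : ℝ) := by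
  have hpd : Set.PairwiseDisjoint (C : Set (Fin m)) P := fun i _ j _ hij => hP i j hij
  have h1 : ∀ A B : Finset V, (ee G A B : ℝ) = ∑ a ∈ A, ∑ b ∈ B, if G.Adj a b then (1:ℝ) else 0 := by
    intro A B
    unfold ee
    rw [Finset.card_filter, Finset.sum_product]
    push_cast
    rfl
  have h2 : (dd G (C.biUnion P) : ℝ) = (ee G (C.biUnion P) (C.biUnion P) : ℝ) := rfl
  rw [h2, h1, Finset.sum_biUnion hpd]
  refine sum_congr rfl fun i _ => ?_
  calc ∑ a ∈ P i, ∑ b ∈ C.biUnion P, (if G.Adj a b then (1:ℝ) else 0)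
      = ∑ a ∈ P i, ∑ j ∈ C, ∑ b ∈ P j, (if G.Adj a b then (1:ℝ) else 0) :=
        sum_congr rfl fun a _ => Finset.sum_biUnion hpd
    _ = ∑ j ∈ C, ∑ a ∈ P i, ∑ b ∈ P j, (if G.Adj a b then (1:ℝ) else 0) := Finset.sum_comm
    _ = _ := sum_congr rfl fun j _ => (h1 _ _).symm

private lemma Coarse_ee_eq {V : Type} (G : SimpleGraph V) (A B : Finset V) :
    (ee G A B : ℝ) = ∑ a ∈ A, ∑ b ∈ B, if G.Adj a b then (1:ℝ) else 0 := by
  unfold ee
  rw [Finset.card_filter, Finset.sum_product]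
  push_cast
  rfl

/-- the part with few neighbours in the reserve is small -/
private lemma Coarse_X {V : Type} [Fintype V] (G : SimpleGraph V) (κ d q : ℝ) (z : ℕ)
    (hκ : 0 < κ) (hκ1 : κ ≤ 1 / 100) (hq : 0 < q) (hz : κ * q / 2 ≤ z) (hd : 2 * κ ≤ d)
    (A B Z : Finset V) (hreg : RegPair G (κ ^ 6 / 256) d A B) (hZ : Z ⊆ B) (hZc : Z.card = z)
    (hB : (B.card : ℝ) ≤ 2 * q) :
    ((A.filter (fun u => ((nb G u ∩ Z).card : ℝ) < κ * z)).card : ℝ) ≤ κ * A.card := by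
  set X := A.filter (fun u => ((nb G u ∩ Z).card : ℝ) < κ * z) with hX
  have h1 := (abs_le.1 (hreg X (filter_subset _ _) Z hZ)).1
  have h2 : (ee G X Z : ℝ) ≤ κ * z * X.card := by
    rw [Coarse_ee_eq]
    have : ∀ u ∈ X, ∑ b ∈ Z, (if G.Adj u b then (1:ℝ) else 0) ≤ κ * z := by
      intro u hu
      have h3 := (mem_filter.1 hu).2
      have h4 : ∑ b ∈ Z, (if G.Adj u b then (1:ℝ) else 0) = ((nb G u ∩ Z).card : ℝ) := by
        rw [Finset.sum_boole]
        congr 2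
        ext v
        simp only [nb, mem_filter, mem_inter, mem_univ, true_and]
        tauto
      rw [h4]
      exact h3.le
    calc ∑ a ∈ X, ∑ b ∈ Z, (if G.Adj a b then (1:ℝ) else 0) ≤ ∑ a ∈ X, κ * z := sum_le_sum this
      _ = κ * z * X.card := by rw [Finset.sum_const, nsmul_eq_mul]; ring
  rw [hZc] at h1
  have hX0 : (0:ℝ) ≤ X.card := by positivity
  have hA0 : (0:ℝ) ≤ A.card := by positivity
  have hz0 : (0:ℝ) ≤ z := by positivity
  have h5 : d * X.card * z ≥ 2 * κ * X.card * z := by gcongr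
  have h6 : κ * z * X.card ≤ κ ^ 6 / 256 * A.card * (2 * q) := by
    have : κ ^ 6 / 256 * (A.card : ℝ) * B.card ≤ κ ^ 6 / 256 * A.card * (2 * q) := by gcongr
    nlinarith
  have h7 : κ * (κ * q / 2) * X.card ≤ κ * z * X.card := by gcongr
  have h8 : κ ^ 2 * q * X.card ≤ κ ^ 2 * q * (κ ^ 4 / 64 * A.card) := by
    nlinarith
  have h9 : (X.card : ℝ) ≤ κ ^ 4 / 64 * A.card := le_of_mul_le_mul_left h8 (by positivity)
  refine h9.trans ?_
  have h10 : κ ^ 3 ≤ 1 := pow_le_one₀ hκ.le (by linarith)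
  have h11 : κ ^ 4 / 64 ≤ κ := by nlinarith
  gcongr

theorem coarse (K lam ε' : ℝ) (hK : 0 ≤ K) (hlam : 0 ≤ lam) (hε' : 0 < ε') :
    ∃ (δ0 ζ : ℝ) (M0 : ℕ) (k0 : ℝ), 0 < δ0 ∧ 0 < ζ ∧
      ∀ (V : Type) [Fintype V] [Nonempty V] (G : SimpleGraph V) (k : ℕ), k0 ≤ k →
        (Fintype.card V : ℝ) ≤ K * (k : ℝ) ^ 2 →
        2 * (lam + 2 * ε') * (k : ℝ) ^ 2 * Fintype.card V ≤ dd G univ →
        ∃ (ι : Type) (_ : Fintype ι) (Z : ι → Finset V) (R0 : SimpleGraph ι) (z : ℕ)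
          (H : Finset V), Fintype.card ι ≤ M0 ∧ ζ * (k : ℝ) ^ 2 ≤ z ∧ Reserve G Z R0 z δ0 ∧
          H.Nonempty ∧ (∀ a, Disjoint H (Z a)) ∧
          (∀ u ∈ H, ∃ a, δ0 * z ≤ ((nb G u ∩ Z a).card : ℝ)) ∧
          2 * (lam + ε') * (k : ℝ) ^ 2 * H.card ≤ dd G H := by
  set κ : ℝ := min (1 / 100) (ε' / (100 * (K + 1))) with hκdef
  have hκ : 0 < κ := lt_min (by norm_num) (by positivity)
  have hκ1 : κ ≤ 1 / 100 := min_le_left _ _
  have hκ2 : κ * (100 * (K + 1)) ≤ ε' := by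
    have : κ ≤ ε' / (100 * (K + 1)) := min_le_right _ _
    rwa [le_div_iff₀ (by positivity)] at this
  have hκK : κ * K ≤ ε' / 100 := by nlinarith
  set ε0 : ℝ := κ ^ 6 / 256 with hε0
  have hε0pos : 0 < ε0 := by positivity
  set l : ℕ := ⌈1 / κ⌉₊ with hl
  have hl1 : 1 ≤ l := Nat.one_le_iff_ne_zero.2 (by
    rw [hl]; exact (Nat.ceil_pos.2 (by positivity)).ne')
  have hl2 : (1:ℝ) / κ ≤ l := Nat.le_ceil _
  have hl3 : (2:ℝ) / l ≤ 2 * κ := by
    have hl0 : (0:ℝ) < l := by exact_mod_cast hl1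
    rw [div_le_iff₀ hl0]
    rw [div_le_iff₀ hκ] at hl2
    nlinarith
  obtain ⟨M, hlM, hM⟩ := reg_clusters ε0 (2 * κ) hε0pos (by positivity) l hl1
  have hM0 : (0:ℝ) < M := by exact_mod_cast lt_of_lt_of_le hl1 hlM
  refine ⟨κ, κ * ε' / M, M, 2 * M / (κ * ε') + 1, hκ, by positivity, ?_⟩
  intro V _ _ G k hk hVK hdd
  set n : ℕ := Fintype.card V with hn
  have hk1 : (1:ℝ) ≤ k := by
    have : (0:ℝ) ≤ 2 * M / (κ * ε') := by positivity
    linarith
  have hkk : (k:ℝ) ≤ (k:ℝ) ^ 2 := by nlinarith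
  have hk2 : 2 * M ≤ κ * ε' * (k:ℝ) ^ 2 := by
    have h1 : 2 * M / (κ * ε') ≤ (k:ℝ) ^ 2 := by linarith
    rw [div_le_iff₀ (by positivity)] at h1
    linarith
  have hn0 : (0:ℝ) < n := by
    have : 0 < n := Fintype.card_pos
    exact_mod_cast this
  -- n >= 4 ε' k²
  have hddn : (dd G univ : ℝ) ≤ (n:ℝ) ^ 2 := by
    have h1 : dd G (univ : Finset V) ≤ n * n := by
      unfold dd
      refine (card_filter_le _ _).trans ?_
      rw [card_product, Finset.card_univ]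
    have h2 : (dd G (univ : Finset V) : ℝ) ≤ n * n := by exact_mod_cast h1
    nlinarith
  have hn4 : 4 * ε' * (k:ℝ) ^ 2 ≤ n := by
    have h1 : 2 * (lam + 2 * ε') * (k : ℝ) ^ 2 * n ≤ (n:ℝ) * n := by nlinarith
    have h2 := le_of_mul_le_mul_right h1 hn0
    have h3 : 0 ≤ lam * (k:ℝ) ^ 2 := by positivity
    nlinarith
  have hek : κ * ε' * (k:ℝ) ^ 2 ≤ ε' * (k:ℝ) ^ 2 := by
    have : κ * ε' ≤ 1 * ε' := by gcongr; linarith
    nlinarith
  have hnM : M ≤ (univ : Finset V).card := by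
    rw [Finset.card_univ]
    have : (M:ℝ) ≤ n := by nlinarith
    exact_mod_cast this
  obtain ⟨m, P, d, hm1, hmM, hPd, hPU, hPc, hds, hd0, hd01, hdreg, hdsum⟩ := hM V G univ hnM
  rw [Finset.card_univ] at hPc hdsum
  have hmpos : 0 < m := lt_of_lt_of_le hl1 hm1
  have hm0 : (0:ℝ) < m := by exact_mod_cast hmpos
  have hmMr : (m:ℝ) ≤ M := by exact_mod_cast hmM
  set q : ℕ := Fintype.card V / m with hq
  have hqn : (n:ℝ) / M - 1 ≤ q := by
    have h1 : n < (q + 1) * m := by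
      rw [hq]
      exact Nat.lt_mul_of_div_lt (Nat.lt_succ_self _) hmpos
    have h2 : (n:ℝ) < (q + 1) * m := by exact_mod_cast h1
    have h3 : (n:ℝ) / M ≤ q + 1 := by
      rw [div_le_iff₀ hM0]
      nlinarith [Nat.cast_nonneg (α := ℝ) q]
    linarith
  have hnM4 : 8 ≤ κ * ((n:ℝ) / M) := by
    rw [mul_div_assoc', le_div_iff₀ hM0]
    nlinarith
  have hκq : 2 ≤ κ * q := by nlinarith
  have hq1 : (1:ℝ) ≤ q := by nlinarith
  have hq0 : (0:ℝ) < q := by linarith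
  have hP1 : ∀ i, (q:ℝ) ≤ (P i).card := fun i => by exact_mod_cast (hPc i).1
  have hP2 : ∀ i, ((P i).card : ℝ) ≤ 2 * q := fun i => by
    have : ((P i).card : ℝ) ≤ q + 1 := by exact_mod_cast (hPc i).2
    linarith
  have hPpos : ∀ i, (0:ℝ) < (P i).card := fun i => lt_of_lt_of_le hq0 (hP1 i)
  have hPD : ∀ C : Finset (Fin m), ((C.biUnion P).card : ℝ) = ∑ i ∈ C, ((P i).card : ℝ) := by
    intro C
    rw [Finset.card_biUnion (fun i _ j _ hij => hPd i j hij)]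
    push_cast; rfl
  have hPn : ∑ i, ((P i).card : ℝ) = n := by
    rw [← hPD, hPU, Finset.card_univ]
  set s : ℝ := 2 * (lam + 19 / 10 * ε') * (k:ℝ) ^ 2 with hs
  have hspos : 0 < s := by positivity
  have hsum : s * ∑ i, ((P i).card : ℝ) ≤ ∑ i, ∑ j, d i j * (((P i).card : ℝ) * (P j).card) := by
    rw [hPn]
    have hcoef : 4 * ε0 + 4 * (2 * κ) + 2 / l ≤ 11 * κ := by
      have h5 : κ ^ 5 ≤ 1 := pow_le_one₀ hκ.le (by linarith)
      have : κ ^ 6 ≤ κ := by nlinarith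
      rw [hε0]; linarith
    have h1 : (4 * ε0 + 4 * (2 * κ) + 2 / l) * (n:ℝ) ^ 2 ≤ 11 * κ * (n:ℝ) ^ 2 := by gcongr
    have h2 : 11 * κ * (n:ℝ) ^ 2 ≤ 11 * κ * (K * (k:ℝ) ^ 2) * n := by
      rw [sq, ← mul_assoc]; gcongr
    have h3 : 11 * κ * (K * (k:ℝ) ^ 2) * n ≤ 11 * (ε' / 100) * (k:ℝ) ^ 2 * n := by
      have : 11 * κ * (K * (k:ℝ) ^ 2) * n = 11 * (κ * K) * (k:ℝ) ^ 2 * n := by ring
      rw [this]; gcongr
    have h4 : 0 ≤ ε' * (k:ℝ) ^ 2 * n := by positivity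
    have h5 : (dd G univ : ℝ) ≤ ∑ i, ∑ j, d i j * (((P i).card : ℝ) * (P j).card) +
      (4 * ε0 + 4 * (2 * κ) + 2 / l) * (n:ℝ) ^ 2 := hdsum
    rw [hs]
    nlinarith
  obtain ⟨C, hCne, hCs, hCconn, hCnx⟩ := Coarse_comp hmpos d hds hd0 (fun i j => (hd01 i j).1)
    (fun i => ((P i).card : ℝ)) hPpos s hspos hsum
  choose! nx hnxC hnx using hCnx
  -- the reserve
  set z : ℕ := ⌊κ * q⌋₊ with hz
  have hzle : (z:ℝ) ≤ κ * q := Nat.floor_le (by positivity)
  have hzge : κ * q / 2 ≤ z := by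
    have : κ * q < z + 1 := Nat.lt_floor_add_one _
    linarith
  have hzP : ∀ i, z ≤ (P i).card := by
    intro i
    have h1 : (z:ℝ) ≤ (P i).card := by
      have := hP1 i
      nlinarith
    exact_mod_cast h1
  choose Z hZP hZc using fun i => Finset.exists_subset_card_eq (hzP i)
  set X : Fin m → Finset V := fun i =>
    (P i).filter (fun u => ((nb G u ∩ Z (nx i)).card : ℝ) < κ * z) with hX
  have hXc : ∀ i ∈ C, ((X i).card : ℝ) ≤ κ * (P i).card := by
    intro i hi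
    have h1 := hdreg i (nx i) (hnx i hi)
    exact Coarse_X G κ (d i (nx i)) q z hκ hκ1 hq0 hzge h1.1 (P i) (P (nx i)) (Z (nx i)) h1.2
      (hZP _) (hZc _) (hP2 _)
  set U := C.biUnion P with hU
  set B := C.biUnion (fun i => Z i ∪ X i) with hB
  have hUc : (U.card : ℝ) = ∑ i ∈ C, ((P i).card : ℝ) := hPD C
  have hUpos : (0:ℝ) < U.card := by
    rw [hUc]; exact Finset.sum_pos (fun i _ => hPpos i) hCne
  have hBc : (B.card : ℝ) ≤ 2 * κ * U.card := by
    have h1 : (B.card : ℝ) ≤ ∑ i ∈ C, ((Z i ∪ X i).card : ℝ) := by exact_mod_cast card_biUnion_le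
    refine h1.trans ?_
    rw [hUc, Finset.mul_sum]
    refine sum_le_sum fun i hi => ?_
    have h2 : ((Z i ∪ X i).card : ℝ) ≤ (Z i).card + (X i).card := by
      exact_mod_cast card_union_le _ _
    rw [hZc] at h2
    have h3 := hXc i hi
    have h4 : κ * q ≤ κ * (P i).card := by
      have := hP1 i
      gcongr
    linarith
  have hUn : (U.card : ℝ) ≤ n := by
    have : U.card ≤ n := by rw [hn, ← Finset.card_univ]; exact card_le_card (subset_univ _)
    exact_mod_cast this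
  have hddU : ∑ i ∈ C, ∑ j ∈ C, d i j * (((P i).card : ℝ) * (P j).card) - ε0 * (U.card : ℝ) ^ 2 ≤
      dd G U := by
    rw [hU, Coarse_dd_union G P hPd C, ← hU, hUc, sq, Finset.sum_mul_sum, Finset.mul_sum,
      ← Finset.sum_sub_distrib]
    refine sum_le_sum fun i _ => ?_
    rw [Finset.mul_sum, ← Finset.sum_sub_distrib]
    refine sum_le_sum fun j _ => ?_
    by_cases h0 : 0 < d i j
    · have := (abs_le.1 ((hdreg i j h0).2 (P i) (Subset.refl _) (P j) (Subset.refl _))).1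
      linarith
    · have h1 : d i j = 0 := le_antisymm (not_lt.1 h0) (hd01 i j).1
      rw [h1]
      have h2 : (0:ℝ) ≤ ee G (P i) (P j) := by positivity
      have h3 : 0 ≤ ε0 * (((P i).card : ℝ) * (P j).card) := by positivity
      linarith
  have hddH : 2 * (lam + ε') * (k : ℝ) ^ 2 * U.card ≤ dd G (U \ B) := by
    have h1 := Coarse_dd_sdiff G U B
    have h2 : 2 * (B.card : ℝ) * U.card ≤ 4 * κ * (U.card : ℝ) ^ 2 := by
      have : 2 * (B.card : ℝ) * U.card ≤ 2 * (2 * κ * U.card) * U.card := by gcongr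
      nlinarith
    have h5 : κ ^ 5 ≤ 1 := pow_le_one₀ hκ.le (by linarith)
    have h6 : ε0 ≤ κ := by rw [hε0]; nlinarith
    have h7 : ε0 * (U.card : ℝ) ^ 2 ≤ κ * (U.card : ℝ) ^ 2 := by gcongr
    have h8 : κ * (U.card : ℝ) ^ 2 ≤ ε' / 100 * (k:ℝ) ^ 2 * U.card := by
      calc κ * (U.card : ℝ) ^ 2 = κ * U.card * U.card := by ring
        _ ≤ κ * (K * (k:ℝ) ^ 2) * U.card := by gcongr; exact hUn.trans hVK
        _ = (κ * K) * (k:ℝ) ^ 2 * U.card := by ring
        _ ≤ ε' / 100 * (k:ℝ) ^ 2 * U.card := by gcongr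
    have h9 : s * U.card ≤ ∑ i ∈ C, ∑ j ∈ C, d i j * (((P i).card : ℝ) * (P j).card) := by
      rw [hUc]; exact hCs
    have h10 : 0 ≤ ε' * (k:ℝ) ^ 2 * U.card := by positivity
    rw [hs] at h9
    nlinarith
  refine ⟨{i // i ∈ C}, inferInstance, fun a => Z a.1,
    (Coarse_R d).comap (Subtype.val : {i // i ∈ C} → Fin m), z, U \ B, ?_, ?_, ?_, ?_, ?_, ?_, ?_⟩
  · rw [Fintype.card_coe]
    refine (card_le_univ C).trans ?_
    rw [Fintype.card_fin]; exact hmM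
  · refine le_trans ?_ hzge
    have h1 : (2 * ε' * (k:ℝ) ^ 2) / M ≤ q := by
      have h2 : (4 * ε' * (k:ℝ) ^ 2) / M ≤ n / M := by gcongr
      have h3 : 1 ≤ (2 * ε' * (k:ℝ) ^ 2) / M := by
        rw [le_div_iff₀ hM0]; nlinarith
      have h4 : (4 * ε' * (k:ℝ) ^ 2) / M = 2 * ((2 * ε' * (k:ℝ) ^ 2) / M) := by ring
      linarith
    calc κ * ε' / M * (k:ℝ) ^ 2 = κ * ((2 * ε' * (k:ℝ) ^ 2) / M) / 2 := by ring
      _ ≤ κ * q / 2 := by gcongr
  · refine ⟨hκ, by linarith, ?_, fun a => hZc _, hCconn, ?_, ?_⟩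
    · intro a b hab
      exact Disjoint.mono (hZP _) (hZP _) (hPd _ _ (fun h => hab (Subtype.ext h)))
    · intro a
      refine ⟨⟨nx a.1, hnxC a.1 a.2⟩, ?_⟩
      exact (Coarse_R_adj hds hd0 _ _).2 (hnx a.1 a.2)
    · intro a b hab S hS T hT hSc hTc
      have hd : 0 < d a.1 b.1 := (Coarse_R_adj hds hd0 _ _).1 hab
      obtain ⟨h1, h2⟩ := hdreg _ _ hd
      by_contra hcon
      push Not at hcon
      have h3 : (ee G S T : ℝ) = 0 := by
        rw [Coarse_ee_eq]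
        refine sum_eq_zero fun x hx => sum_eq_zero fun y hy => ?_
        rw [if_neg (hcon x hx y hy)]
      have h4 := (abs_le.1 (h2 S (hS.trans (hZP _)) T (hT.trans (hZP _)))).1
      rw [h3] at h4
      have h5 : ε0 * ((P a.1).card : ℝ) * (P b.1).card ≤ ε0 * (2 * q) * (2 * q) := by
        have := hP2 a.1
        have := hP2 b.1
        gcongr
      have hz2 : κ / 4 * (κ * q / 2) ≤ κ / 4 * z := by gcongr
      have h6 : (2 * κ) * (κ / 4 * (κ * q / 2)) * (κ / 4 * (κ * q / 2)) ≤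
          d a.1 b.1 * S.card * T.card := by
        have hS' := hz2.trans hSc
        have hT' := hz2.trans hTc
        gcongr
      have h7 : (2 * κ) * (κ / 4 * (κ * q / 2)) * (κ / 4 * (κ * q / 2)) =
        κ ^ 5 * (q:ℝ) ^ 2 / 32 := by ring
      have h8 : ε0 * (2 * q) * (2 * q) = κ * (κ ^ 5 * (q:ℝ) ^ 2) / 64 := by rw [hε0]; ring
      have h9 : 0 < κ ^ 5 * (q:ℝ) ^ 2 := by positivity
      nlinarith
  · rw [Finset.nonempty_iff_ne_empty]
    intro h
    rw [h] at hddH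
    have h1 : (dd G (∅ : Finset V) : ℝ) = 0 := by simp [dd]
    rw [h1] at hddH
    have h2 : 0 < 2 * (lam + ε') * (k : ℝ) ^ 2 * U.card := by positivity
    linarith
  · intro a
    rw [Finset.disjoint_left]
    intro x hx hxa
    refine (mem_sdiff.1 hx).2 ?_
    rw [hB, mem_biUnion]
    exact ⟨a.1, a.2, mem_union_left _ hxa⟩
  · intro u hu
    obtain ⟨huU, huB⟩ := mem_sdiff.1 hu
    obtain ⟨i, hi, hui⟩ := mem_biUnion.1 huU
    refine ⟨⟨nx i, hnxC i hi⟩, ?_⟩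
    by_contra hcon
    push Not at hcon
    refine huB ?_
    rw [hB, mem_biUnion]
    exact ⟨i, hi, mem_union_right _ (mem_filter.2 ⟨hui, hcon⟩)⟩
  · refine le_trans ?_ hddH
    have : ((U \ B).card : ℝ) ≤ U.card := by exact_mod_cast card_le_card sdiff_subset
    gcongr

end

end Pool.Agent.H25.TD
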