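import Pool.Agent.H25.TD.RegCl

/-!
The fine partition.

PROOF. `δ1 = min 1 (ε'/(100 (K+1)))`, then `εr = min (ε/16) (ε'/(100(K+1)))`,
`l >= 100 (K+1)/ε'`; `reg_clusters` gives `M`. For large `k` the set `H` has at least `M`
elements because `|H|² >= dd G H >= 2 ε' k² |H|`. Let `N = |H|/m` (natural division), `cl i` an
enumeration of `N` elements of `P i`, `p = d`. `Sys`: `reg` from `c4_of_regPair`,
`|P i| <= N + 1 <= 2N`, `4 εr (2N)² N² <= 16 εr N⁴ <= ε N⁴`; `0 < d` implies `δ1 <= d`.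
`m N <= |H| <= K k²`; `m N >= |H| - m >= 2 ε' k² - M >= ε' k²`. Edges:
`(N+1)² Σ d >= Σ d |P i||P j| >= 2 (lam + ε') k² |H| - (4 εr + 4 δ1 + 2/l) K k² |H| >=
2 (lam + 9/10 ε') k² |H|`, and `N² Σ d >= (N/(N+1))² * ... > 2 (lam + ε'/2) k² m N` once
`N >= N0(lam, ε')` (for instance `(N/(N+1))² (lam + 9/10 ε') > lam + ε'/2`), which holds for
large `k` as `N >= ε' k²/M`.
-/

namespace Pool.Agent.H25.TD

open Finset Pool.Agent.H25.TK
open scoped Classical

noncomputable section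

private theorem Fine_dd_le {V : Type} [Fintype V] (G : SimpleGraph V) (H : Finset V) :
    (dd G H : ℝ) ≤ (H.card : ℝ) ^ 2 := by
  have h : dd G H ≤ H.card * H.card := by
    unfold dd
    exact (Finset.card_filter_le _ _).trans (by rw [Finset.card_product])
  have h2 : (dd G H : ℝ) ≤ (H.card * H.card : ℕ) := by exact_mod_cast h
  rw [pow_two]
  exact_mod_cast h2

/-- The arithmetic of the last inequality. -/
private theorem Fine_num (lam ε' S k2 m N h : ℝ) (hlam : 0 ≤ lam) (hε' : 0 < ε')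
    (hk : 0 < k2) (hm : 0 < m) (hN : 0 < N) (hmN : m * N ≤ h)
    (hS : 2 * (lam + 9 / 10 * ε') * k2 * h ≤ (N + 1) ^ 2 * S)
    (hbig : 5 * (lam + ε') / ε' < N + 1) :
    2 * (lam + ε' / 2) * k2 * (m * N) < N ^ 2 * S := by
  have h1 : 5 * (lam + ε') < (N + 1) * ε' := by
    rwa [div_lt_iff₀ hε'] at hbig
  have hmN0 : 0 < m * N := mul_pos hm hN
  have h2 : 2 * (lam + 9 / 10 * ε') * k2 * (m * N) ≤ (N + 1) ^ 2 * S := by
    refine le_trans ?_ hS
    exact mul_le_mul_of_nonneg_left hmN (by positivity)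
  -- (N+1)^2 (lam + ε'/2) < N^2 (lam + 9/10 ε')
  have h3 : (N + 1) ^ 2 * (lam + ε' / 2) < N ^ 2 * (lam + 9 / 10 * ε') := by
    have h4 : 0 < N ^ 2 * (lam + 9 / 10 * ε') - (N + 1) ^ 2 * (lam + ε' / 2) := by
      have h5 : 4 * ε' < N * ε' := by nlinarith
      have h6 : 4 < N := lt_of_mul_lt_mul_right h5 hε'.le
      have h7 : 5 * lam < (N - 4) * ε' := by linarith
      have e1 : N ^ 2 * (lam + 9 / 10 * ε') - (N + 1) ^ 2 * (lam + ε' / 2) =
          4 / 10 * ε' * N ^ 2 - (2 * N + 1) * lam - (2 * N + 1) * (ε' / 2) := by ring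
      rw [e1]
      have h8 : (2 * N + 1) * (5 * lam) ≤ (2 * N + 1) * ((N - 4) * ε') :=
        mul_le_mul_of_nonneg_left h7.le (by linarith)
      have h9 : (2 * N + 1) * lam ≤ (2 * N + 1) * ((N - 4) * ε') / 5 := by linarith
      have h10 : 0 < ε' * (4 / 10 * N ^ 2 - (2 * N + 1) * (N - 4) / 5 - (2 * N + 1) / 2) := by
        apply mul_pos hε'
        nlinarith
      nlinarith
    linarith
  have hSpos : 0 < S := by
    have : 0 < (N + 1) ^ 2 * S := lt_of_lt_of_le (by positivity) h2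
    exact (pos_iff_pos_of_mul_pos this).1 (by positivity)
  have h11 : (N + 1) ^ 2 * (2 * (lam + ε' / 2) * k2 * (m * N)) < (N + 1) ^ 2 * (N ^ 2 * S) := by
    calc (N + 1) ^ 2 * (2 * (lam + ε' / 2) * k2 * (m * N))
        = ((N + 1) ^ 2 * (lam + ε' / 2)) * (2 * k2 * (m * N)) := by ring
      _ < (N ^ 2 * (lam + 9 / 10 * ε')) * (2 * k2 * (m * N)) :=
          mul_lt_mul_of_pos_right h3 (by positivity)
      _ = N ^ 2 * (2 * (lam + 9 / 10 * ε') * k2 * (m * N)) := by ring
      _ ≤ N ^ 2 * ((N + 1) ^ 2 * S) := mul_le_mul_of_nonneg_left h2 (by positivity)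
      _ = (N + 1) ^ 2 * (N ^ 2 * S) := by ring
  exact lt_of_mul_lt_mul_left h11 (by positivity)

theorem fine (K lam ε' : ℝ) (hK : 0 ≤ K) (hlam : 0 ≤ lam) (hε' : 0 < ε') :
    ∃ δ1 : ℝ, 0 < δ1 ∧ δ1 ≤ 1 ∧ ∀ ε : ℝ, 0 < ε → ∃ (M1 : ℕ) (k1 : ℝ),
      ∀ (V : Type) [Fintype V] (G : SimpleGraph V) (H : Finset V) (k : ℕ), k1 ≤ k →
        H.Nonempty → (H.card : ℝ) ≤ K * (k : ℝ) ^ 2 →
        2 * (lam + ε') * (k : ℝ) ^ 2 * H.card ≤ dd G H →
        ∃ (m N : ℕ) (cl : Fin m → Fin N → V) (p : Fin m → Fin m → ℝ), m ≤ M1 ∧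
          Sys G m N cl p δ1 ε ∧ (∀ i n, cl i n ∈ H) ∧ (m : ℝ) * N ≤ K * (k : ℝ) ^ 2 ∧
          ε' * (k : ℝ) ^ 2 ≤ (m : ℝ) * N ∧
          2 * (lam + ε' / 2) * (k : ℝ) ^ 2 * ((m : ℝ) * N) < (N : ℝ) ^ 2 * ∑ i, ∑ j, p i j := by
  set κ : ℝ := ε' / (100 * (K + 1)) with hκ
  have hκ0 : 0 < κ := by rw [hκ]; positivity
  have hκK : 100 * κ * K ≤ ε' := by
    have h1 : κ * (100 * (K + 1)) = ε' := by
      rw [hκ]; field_simp
    nlinarith
  refine ⟨min 1 κ, lt_min one_pos hκ0, min_le_left _ _, fun ε hε => ?_⟩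
  have hδ0 : 0 < min 1 κ := lt_min one_pos hκ0
  have hεr : 0 < min (ε / 16) κ := lt_min (by positivity) hκ0
  obtain ⟨l, hl⟩ := exists_nat_gt (1 / κ)
  have hl0 : 0 < (l : ℝ) := lt_trans (by positivity) hl
  have hl1 : 1 ≤ l := by
    have : 0 < l := by exact_mod_cast hl0
    omega
  have hlκ : 2 / (l : ℝ) ≤ 2 * κ := by
    rw [div_le_iff₀ hl0]
    rw [div_lt_iff₀ hκ0] at hl
    nlinarith
  obtain ⟨M, hlM, hM⟩ := reg_clusters (min (ε / 16) κ) (min 1 κ) hεr hδ0 l hl1
  have hM1 : (1 : ℝ) ≤ M := by exact_mod_cast (hl1.trans hlM)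
  refine ⟨M, 1 + M / ε' + 5 * (lam + ε') * M / ε' ^ 2, ?_⟩
  intro V _ G H k hk hne hcard hdd
  have hk1 : (1 : ℝ) ≤ k := by
    refine le_trans ?_ hk
    have : 0 ≤ M / ε' := by positivity
    have : 0 ≤ 5 * (lam + ε') * M / ε' ^ 2 := by positivity
    linarith
  have hkk : (k : ℝ) ≤ (k : ℝ) ^ 2 := by nlinarith
  set k2 : ℝ := (k : ℝ) ^ 2 with hk2
  have hk20 : 0 < k2 := by positivity
  have hA : (M : ℝ) / ε' ≤ k2 := by
    have : 0 ≤ 5 * (lam + ε') * M / ε' ^ 2 := by positivity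
    linarith
  have hA' : (M : ℝ) ≤ ε' * k2 := by
    rw [div_le_iff₀ hε'] at hA
    linarith
  have hB : 5 * (lam + ε') * M / ε' ^ 2 < k2 := by
    have : 0 ≤ M / ε' := by positivity
    linarith
  have hB' : 5 * (lam + ε') * M < k2 * ε' ^ 2 := by
    rwa [div_lt_iff₀ (by positivity)] at hB
  have hH0 : (0 : ℝ) < H.card := by exact_mod_cast hne.card_pos
  have hHlow : 2 * ε' * k2 ≤ H.card := by
    have h1 : 2 * (lam + ε') * k2 * H.card ≤ (H.card : ℝ) * H.card := by
      refine hdd.trans ?_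
      rw [← pow_two]
      exact Fine_dd_le G H
    have h2 : 2 * (lam + ε') * k2 ≤ H.card := le_of_mul_le_mul_right h1 hH0
    nlinarith [mul_nonneg hlam hk20.le]
  have hMH : M ≤ H.card := by
    have : (M : ℝ) ≤ H.card := by nlinarith
    exact_mod_cast this
  obtain ⟨m, P, d, hlm, hmM, hdisj, hU, hsz, hsymm, hself, h01, hreg, hedge⟩ := hM V G H hMH
  have hm0 : 0 < m := by omega
  have hmR : (0 : ℝ) < m := by exact_mod_cast hm0
  set N : ℕ := H.card / m with hN
  have hN1 : 1 ≤ N := by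
    rw [hN]
    exact (Nat.one_le_div_iff hm0).2 (hmM.trans hMH)
  have hNR : (1 : ℝ) ≤ N := by exact_mod_cast hN1
  have hmN : (m : ℝ) * N ≤ H.card := by
    have : m * N ≤ H.card := Nat.mul_div_le _ _
    exact_mod_cast this
  have hmN' : (H.card : ℝ) < m * (N + 1) := by
    have : H.card < m * (N + 1) := Nat.lt_mul_div_succ _ hm0
    exact_mod_cast this
  have hmMR : (m : ℝ) ≤ M := by exact_mod_cast hmM
  have hle : ∀ i, N ≤ (P i).card := fun i => (hsz i).1
  let cl : Fin m → Fin N → V := fun i n =>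
    ((P i).equivFin.symm ⟨n, lt_of_lt_of_le n.2 (hle i)⟩ : V)
  have hclP : ∀ i n, cl i n ∈ P i := fun i n => Finset.coe_mem _
  have hclinj : ∀ i, Function.Injective (cl i) := by
    intro i a b hab
    have h1 := (P i).equivFin.symm.injective (Subtype.ext hab)
    have h2 : (a : ℕ) = b := by simpa using h1
    exact Fin.ext h2
  have hPH : ∀ i, P i ⊆ H := by
    intro i v hv
    rw [← hU]
    exact Finset.mem_biUnion.2 ⟨i, Finset.mem_univ _, hv⟩
  refine ⟨m, N, cl, d, hmM, ?_, fun i n => hPH i (hclP i n), hmN.trans hcard, ?_, ?_⟩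
  · refine ⟨?_, hsymm, hself, fun i j => (h01 i j).1, fun i j => (h01 i j).2,
      fun i j h => (hreg i j h).1, ?_⟩
    · rintro ⟨i, a⟩ ⟨j, b⟩ hab
      by_cases hij : i = j
      · subst hij
        have h0 : a = b := hclinj i hab
        rw [h0]
      · exfalso
        have h1 := hdisj i j hij
        have h2 : cl i a = cl j b := hab
        exact (Finset.disjoint_left.1 h1) (hclP i a) (h2 ▸ hclP j b)
    · intro i j hij
      have h1 := c4_of_regPair G (min (ε / 16) κ) (d i j) (h01 i j).1 (h01 i j).2 (P i) (P j)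
        (hreg i j hij).2 (cl i) (cl j) (hclinj i) (hclinj j) (hclP i) (hclP j)
      refine h1.trans ?_
      have hPi : ∀ i, ((P i).card : ℝ) ≤ 2 * N := by
        intro i
        have : ((P i).card : ℝ) ≤ N + 1 := by exact_mod_cast (hsz i).2
        linarith
      have e1 : min (ε / 16) κ ≤ ε / 16 := min_le_left _ _
      calc 4 * (min (ε / 16) κ * (P i).card * (P j).card) * (N : ℝ) ^ 2
          ≤ 4 * (ε / 16 * (2 * N) * (2 * N)) * (N : ℝ) ^ 2 := by
            gcongr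
            · exact hPi i
            · exact hPi j
        _ = ε * (N : ℝ) ^ 4 := by ring
  · nlinarith
  · refine Fine_num lam ε' _ k2 m N H.card hlam hε' hk20 hmR (by linarith) hmN ?_ ?_
    · have h1 : ∑ i, ∑ j, d i j * (((P i).card : ℝ) * (P j).card) ≤
          ((N : ℝ) + 1) ^ 2 * ∑ i, ∑ j, d i j := by
        rw [Finset.mul_sum]
        refine Finset.sum_le_sum fun i _ => ?_
        rw [Finset.mul_sum]
        refine Finset.sum_le_sum fun j _ => ?_
        have hPi : ∀ i, ((P i).card : ℝ) ≤ N + 1 := by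
          intro i
          exact_mod_cast (hsz i).2
        have h2 : ((P i).card : ℝ) * (P j).card ≤ ((N : ℝ) + 1) * (N + 1) :=
          mul_le_mul (hPi i) (hPi j) (by positivity) (by positivity)
        calc d i j * (((P i).card : ℝ) * (P j).card) ≤ d i j * (((N : ℝ) + 1) * (N + 1)) :=
              mul_le_mul_of_nonneg_left h2 (h01 i j).1
          _ = ((N : ℝ) + 1) ^ 2 * d i j := by ring
      refine le_trans ?_ h1
      have h3 : (4 * min (ε / 16) κ + 4 * min 1 κ + 2 / (l : ℝ)) * (H.card : ℝ) ^ 2 ≤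
          ε' / 5 * k2 * H.card := by
        have h4 : 4 * min (ε / 16) κ + 4 * min 1 κ + 2 / (l : ℝ) ≤ 10 * κ := by
          have := min_le_right (ε / 16) κ
          have := min_le_right 1 κ
          linarith
        calc (4 * min (ε / 16) κ + 4 * min 1 κ + 2 / (l : ℝ)) * (H.card : ℝ) ^ 2
            ≤ 10 * κ * (H.card : ℝ) ^ 2 := mul_le_mul_of_nonneg_right h4 (by positivity)
          _ = 10 * κ * (H.card : ℝ) * H.card := by ring
          _ ≤ 10 * κ * (K * k2) * H.card := by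
              apply mul_le_mul_of_nonneg_right _ hH0.le
              exact mul_le_mul_of_nonneg_left hcard (by positivity)
          _ = (100 * κ * K) / 10 * k2 * H.card := by ring
          _ ≤ ε' / 5 * k2 * H.card := by
              apply mul_le_mul_of_nonneg_right _ hH0.le
              apply mul_le_mul_of_nonneg_right _ hk20.le
              linarith
      have h5 : 2 * (lam + ε') * k2 * H.card - ε' / 5 * k2 * H.card =
          2 * (lam + 9 / 10 * ε') * k2 * H.card := by ring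
      linarith
    · rw [div_lt_iff₀ hε']
      have h1 : 2 * ε' * k2 < M * ((N : ℝ) + 1) := by
        calc 2 * ε' * k2 ≤ H.card := hHlow
          _ < m * ((N : ℝ) + 1) := hmN'
          _ ≤ M * ((N : ℝ) + 1) := mul_le_mul_of_nonneg_right hmMR (by positivity)
      have hM0 : (0 : ℝ) < M := by linarith
      have h2 : M * (5 * (lam + ε')) < M * (((N : ℝ) + 1) * ε') := by
        nlinarith
      exact lt_of_mul_lt_mul_left h2 hM0.le

end

end Pool.Agent.H25.TD
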