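import Pool.Agent.H25.TD.Embed
import Pool.Agent.H25.TD.Fine
import Pool.Agent.H25.TD.Coarse
import Pool.Agent.H25.TK.Main

/-!
The dense case from the template inequality.

PROOF of `finish`. `hasTK_of_conn` with `R' i j` = the reserve route if `(i,j) ∈ Lft`, otherwise the
route of `PartTK`: the former are inside `⋃ Z`, the latter and all `f l` are inside `U`, and `U` is
disjoint from `⋃ Z`.

PROOF of `dense_case`. `coarse K lam ε'`: `δ0`, `ζ`, `M0`, `k0`. `fine K lam ε'`: `δ1`.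
`ε1 = δ0 ζ/(128 (2 M0 + 1)²)`. `embed δ1 K ε1`: `ε`. `fine` for this `ε`: `M1`, `k1`.
`η` with `0 < η < 1` and `(1-η)(lam + ε'/2) > lam`; for each `m <= M1` let `k0 m` be the constant of
`embed` for `m`, `η`, `c1 = ε'`. For `k` larger than all these: `coarse` gives the reserve and `H`
(`|H| <= |V| <= K k²`), `fine` the system `m`, `N`, `cl`, `p`; `m, N >= 1`; the world with
`x = (1-η) N/k²` satisfies `lam Σ x < Σ Σ x x p/2`:
`(1-η)² N² Σ p/(2 k⁴) > (1-η)² (lam + ε'/2) m N/k² >= lam (1-η) m N/k²`. `TIneq` gives `β`,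
`embed` gives `PartTK G (range) k (ε1 k²)`, the range is inside `H`. `reserve_routes`:
`128 (2 card ι + 1)² |Lft| <= 128 (2 M0+1)² ε1 k² = δ0 ζ k² <= δ0 z`. `finish`.

PROOF of `denseOK_of_tineq`. Given `ε`, let `a = min (1/8) (ε/(8 (2 lam + ε)))`, `ε' = ε/8`; given
`K` use `dense_case` with `K (2 lam + ε)` for `K` (made nonnegative by `max`): `Good.dens` gives
`dd >= (1-a) (2 lam + ε) k² n >= 2 (lam + 2 ε') k² n`, since
`(1-a)(2 lam + ε) >= 2 lam + ε - ε/8 >= 2 lam + ε/2`. `V` is nonempty by `Good.card`.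
-/

namespace Pool.Agent.H25.TD

open Finset Pool.Agent.H25.TK
open scoped Classical

noncomputable section

theorem finish {V : Type} [Fintype V] {G : SimpleGraph V} {ι : Type} [Fintype ι]
    {Z : ι → Finset V} {R0 : SimpleGraph ι} {z : ℕ} {δ : ℝ} (hR : Reserve G Z R0 z δ)
    (U : Set V) (hU : ∀ u ∈ U, ∀ a, u ∉ Z a)
    (hdeg : ∀ u ∈ U, ∃ a, δ * z ≤ ((nb G u ∩ Z a).card : ℝ)) (k : ℕ) (L : ℝ)
    (hP : PartTK G U k L) (hL : 128 * (2 * (Fintype.card ι : ℝ) + 1) ^ 2 * L ≤ δ * z) :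
    HasTK G k := by
  obtain ⟨f, Lft, R, hf, hfU, hLft, hRU, hconn, hav, hdis⟩ := hP
  have hL' : 128 * (2 * (Fintype.card ι : ℝ) + 1) ^ 2 * Lft.card ≤ δ * z :=
    le_trans (mul_le_mul_of_nonneg_left hLft (by positivity)) hL
  obtain ⟨R2, h1, h2, h3⟩ := reserve_routes hR f (fun i => hdeg _ (hfU i)) Lft hL'
  have hcross : ∀ i j i' j', Disjoint (R2 i j) (R i' j') := by
    intro i j i' j'
    rw [Set.disjoint_left]
    intro w hw hw'
    obtain ⟨c, hc⟩ := h1 i j w hw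
    exact hU w (hRU i' j' hw') c hc
  refine hasTK_of_conn G k f hf (fun i j => if (i, j) ∈ Lft then R2 i j else R i j) ?_ ?_ ?_
  · intro i j hij
    by_cases h : (i, j) ∈ Lft
    · simp only [h, if_true]
      exact h2 i j h
    · simp only [h, if_false]
      exact hconn i j hij h
  · intro i j hij l
    by_cases h : (i, j) ∈ Lft
    · simp only [h, if_true]
      intro hw
      obtain ⟨c, hc⟩ := h1 i j _ hw
      exact hU _ (hfU l) c hc
    · simp only [h, if_false]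
      exact hav i j hij l
  · intro i j i' j' hij hij' hne
    by_cases h : (i, j) ∈ Lft <;> by_cases h' : (i', j') ∈ Lft
    · simp only [h, h', if_true]
      exact h3 i j i' j' h h' hne
    · simp only [h, h', if_true, if_false]
      exact hcross i j i' j'
    · simp only [h, h', if_true, if_false]
      exact (hcross i' j' i j).symm
    · simp only [h, h', if_false]
      exact hdis i j i' j' hij hij' hne

theorem dense_case (lam : ℝ) (hlam : 0 ≤ lam) (hT : TIneq lam) (K ε' : ℝ) (hK : 0 ≤ K)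
    (hε' : 0 < ε') :
    ∃ k0 : ℝ, ∀ (V : Type) [Fintype V] [Nonempty V] (G : SimpleGraph V) (k : ℕ), k0 ≤ k →
      (Fintype.card V : ℝ) ≤ K * (k : ℝ) ^ 2 →
      2 * (lam + 2 * ε') * (k : ℝ) ^ 2 * Fintype.card V ≤ dd G univ → HasTK G k := by
  obtain ⟨δ0, ζ, M0, k0, hδ0, hζ, hcoarse⟩ := coarse K lam ε' hK hlam hε'
  obtain ⟨δ1, hδ1, hδ1', hfine⟩ := fine K lam ε' hK hlam hε'
  have hden : (0 : ℝ) < 128 * (2 * (M0 : ℝ) + 1) ^ 2 := by positivity
  have hε1 : 0 < δ0 * ζ / (128 * (2 * (M0 : ℝ) + 1) ^ 2) := div_pos (mul_pos hδ0 hζ) hden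
  obtain ⟨ε, hε, hembed⟩ := embed δ1 K (δ0 * ζ / (128 * (2 * (M0 : ℝ) + 1) ^ 2)) hδ1 hδ1' hK hε1
  obtain ⟨M1, k1, hfine⟩ := hfine ε hε
  have hη0 : 0 < ε' / (4 * (lam + ε')) := by positivity
  have hη1 : ε' / (4 * (lam + ε')) ≤ 1 / 4 := by
    rw [div_le_div_iff₀ (by positivity) (by norm_num)]
    linarith
  obtain ⟨η, hηdef⟩ : ∃ η, η = ε' / (4 * (lam + ε')) := ⟨_, rfl⟩
  rw [← hηdef] at hη0 hη1
  have hηm : η * (lam + ε') = ε' / 4 := by
    rw [hηdef]
    field_simp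
  have hηlam : lam < (1 - η) * (lam + ε' / 2) := by
    nlinarith [mul_nonneg hη0.le hε'.le]
  choose κ hκ using fun m : ℕ => hembed m η ε' hη0 (by linarith) hε'
  refine ⟨max (max k0 k1) (max (∑ m ∈ range (M1 + 1), |κ m|) 1), ?_⟩
  intro V _ _ G k hk hV hd
  have hk0 : k0 ≤ k := le_trans (le_trans (le_max_left _ _) (le_max_left _ _)) hk
  have hk1 : k1 ≤ k := le_trans (le_trans (le_max_right _ _) (le_max_left _ _)) hk
  have hk2 : (∑ m ∈ range (M1 + 1), |κ m|) ≤ k :=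
    le_trans (le_trans (le_max_left _ _) (le_max_right _ _)) hk
  have hk3 : (1 : ℝ) ≤ k := le_trans (le_trans (le_max_right _ _) (le_max_right _ _)) hk
  have hkpos : (0 : ℝ) < (k : ℝ) ^ 2 := by positivity
  obtain ⟨ι, _, Z, R0, z, H, hι, hz, hRes, hH, hdisj, hdeg, hdH⟩ := hcoarse V G k hk0 hV hd
  have hHK : (H.card : ℝ) ≤ K * (k : ℝ) ^ 2 := by
    refine le_trans ?_ hV
    exact_mod_cast Finset.card_le_univ H
  obtain ⟨m, N, cl, p, hm, hsys, hcl, hmN, hmN', hedge⟩ := hfine V G H k hk1 hH hHK hdH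
  have hmNpos : 0 < (m : ℝ) * N := lt_of_lt_of_le (mul_pos hε' hkpos) hmN'
  have hmpos : 0 < (m : ℝ) := by
    rcases (Nat.cast_nonneg (α := ℝ) m).lt_or_eq with h | h
    · exact h
    · rw [← h] at hmNpos
      simp at hmNpos
  have hNpos : 0 < (N : ℝ) := by
    rcases (Nat.cast_nonneg (α := ℝ) N).lt_or_eq with h | h
    · exact h
    · rw [← h] at hmNpos
      simp at hmNpos
  have h1η : 0 < 1 - η := by linarith
  have hX : 0 < (1 - η) * N / (k : ℝ) ^ 2 := by positivity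
  let W : World m :=
    { x := fun _ => (1 - η) * N / (k : ℝ) ^ 2
      p := p
      x_pos := fun _ => hX
      p_symm := hsys.symm
      p_nonneg := hsys.nonneg
      p_le := hsys.le_one
      p_self := hsys.self }
  have hW : lam * ∑ i, W.x i < (∑ i, ∑ j, W.x i * W.x j * W.p i j) / 2 := by
    have e1 : ∑ i, W.x i = m * ((1 - η) * N / (k : ℝ) ^ 2) := by
      simp [W]
    have e2 : ∑ i, ∑ j, W.x i * W.x j * W.p i j =
        ((1 - η) * N / (k : ℝ) ^ 2) ^ 2 * ∑ i, ∑ j, p i j := by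
      rw [Finset.mul_sum]
      refine Finset.sum_congr rfl fun i _ => ?_
      rw [Finset.mul_sum]
      refine Finset.sum_congr rfl fun j _ => ?_
      simp only [W]
      ring
    rw [e1, e2]
    have e3 : ((1 - η) * N / (k : ℝ) ^ 2) ^ 2 * ∑ i, ∑ j, p i j =
        ((1 - η) / (k : ℝ) ^ 2) ^ 2 * ((N : ℝ) ^ 2 * ∑ i, ∑ j, p i j) := by
      field_simp
    rw [e3]
    have e4 : ((1 - η) / (k : ℝ) ^ 2) ^ 2 * (2 * (lam + ε' / 2) * (k : ℝ) ^ 2 * ((m : ℝ) * N)) <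
        ((1 - η) / (k : ℝ) ^ 2) ^ 2 * ((N : ℝ) ^ 2 * ∑ i, ∑ j, p i j) :=
      mul_lt_mul_of_pos_left hedge (by positivity)
    have e5 : ((1 - η) / (k : ℝ) ^ 2) ^ 2 * (2 * (lam + ε' / 2) * (k : ℝ) ^ 2 * ((m : ℝ) * N)) =
        2 * (((1 - η) * (lam + ε' / 2)) * (m * ((1 - η) * N / (k : ℝ) ^ 2))) := by
      field_simp
    have e6 : lam * (m * ((1 - η) * N / (k : ℝ) ^ 2)) <
        ((1 - η) * (lam + ε' / 2)) * (m * ((1 - η) * N / (k : ℝ) ^ 2)) :=
      mul_lt_mul_of_pos_right hηlam (mul_pos hmpos hX)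
    linarith
  obtain ⟨β, hβ⟩ := hT m W hW
  have hκm : κ m ≤ k := by
    refine le_trans (le_trans (le_abs_self _) ?_) hk2
    exact Finset.single_le_sum (f := fun m => |κ m|) (fun i _ => abs_nonneg _)
      (Finset.mem_range.2 (Nat.lt_succ_of_le hm))
  have hP := hκ m V G N k cl W β hκm hsys hmN hmN' (fun _ => rfl) hβ
  refine finish hRes _ ?_ ?_ k _ hP ?_
  · rintro u ⟨i, n, rfl⟩ a ha
    exact Finset.disjoint_left.1 (hdisj a) (hcl i n) ha
  · rintro u ⟨i, n, rfl⟩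
    exact hdeg _ (hcl i n)
  · have hιM : (Fintype.card ι : ℝ) ≤ M0 := by exact_mod_cast hι
    have h0 : (0 : ℝ) ≤ Fintype.card ι := Nat.cast_nonneg _
    have f1 : 128 * (2 * (Fintype.card ι : ℝ) + 1) ^ 2 ≤ 128 * (2 * (M0 : ℝ) + 1) ^ 2 := by
      have : (2 * (Fintype.card ι : ℝ) + 1) ^ 2 ≤ (2 * (M0 : ℝ) + 1) ^ 2 :=
        pow_le_pow_left₀ (by positivity) (by linarith) 2
      linarith
    have f2 : 0 ≤ δ0 * ζ / (128 * (2 * (M0 : ℝ) + 1) ^ 2) * (k : ℝ) ^ 2 := by positivity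
    calc 128 * (2 * (Fintype.card ι : ℝ) + 1) ^ 2 *
          (δ0 * ζ / (128 * (2 * (M0 : ℝ) + 1) ^ 2) * (k : ℝ) ^ 2)
        ≤ 128 * (2 * (M0 : ℝ) + 1) ^ 2 *
          (δ0 * ζ / (128 * (2 * (M0 : ℝ) + 1) ^ 2) * (k : ℝ) ^ 2) :=
          mul_le_mul_of_nonneg_right f1 f2
      _ = δ0 * (ζ * (k : ℝ) ^ 2) := by
          field_simp
      _ ≤ δ0 * z := mul_le_mul_of_nonneg_left hz hδ0.le

theorem denseOK_of_tineq (lam : ℝ) (hlam : 0 ≤ lam) (hT : TIneq lam) : DenseOK (2 * lam) := by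
  intro ε hε
  have hpos : 0 < 2 * lam + ε := by linarith
  refine ⟨min (1 / 8) (ε / (8 * (2 * lam + ε))), ?_, min_le_left _ _, ?_⟩
  · exact lt_min (by norm_num) (by positivity)
  intro K
  obtain ⟨k0, h0⟩ := dense_case lam hlam hT (max 0 (K * (2 * lam + ε))) (ε / 8)
    (le_max_left _ _) (by positivity)
  refine ⟨max k0 1, ?_⟩
  intro V _ G D k hk hD hV hG
  have hk0 : k0 ≤ k := le_trans (le_max_left _ _) hk
  have hk1 : (1 : ℝ) ≤ k := le_trans (le_max_right _ _) hk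
  have hkpos : (0 : ℝ) < (k : ℝ) ^ 2 := by positivity
  obtain ⟨a, ha⟩ : ∃ a, a = min (1 / 8) (ε / (8 * (2 * lam + ε))) := ⟨_, rfl⟩
  rw [← ha] at hG
  have ha1 : a ≤ 1 / 8 := by rw [ha]; exact min_le_left _ _
  have ha2 : a * (2 * lam + ε) ≤ ε / 8 := by
    have : a ≤ ε / (8 * (2 * lam + ε)) := by rw [ha]; exact min_le_right _ _
    calc a * (2 * lam + ε) ≤ ε / (8 * (2 * lam + ε)) * (2 * lam + ε) :=
          mul_le_mul_of_nonneg_right this hpos.le
      _ = ε / 8 := by field_simp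
  have hDpos : 0 < D := by rw [hD]; positivity
  have hcard : 0 < (Fintype.card V : ℝ) :=
    lt_of_lt_of_le (mul_pos (by linarith) hDpos) hG.card
  have hne : Nonempty V := by
    rw [← Fintype.card_pos_iff]
    exact_mod_cast hcard
  refine h0 V G k hk0 ?_ ?_
  · calc (Fintype.card V : ℝ) ≤ K * D := hV
      _ = (K * (2 * lam + ε)) * (k : ℝ) ^ 2 := by rw [hD]; ring
      _ ≤ max 0 (K * (2 * lam + ε)) * (k : ℝ) ^ 2 :=
          mul_le_mul_of_nonneg_right (le_max_right _ _) hkpos.le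
  · refine le_trans ?_ hG.dens
    have e : 2 * (lam + 2 * (ε / 8)) ≤ (1 - a) * (2 * lam + ε) := by
      nlinarith
    calc 2 * (lam + 2 * (ε / 8)) * (k : ℝ) ^ 2 * Fintype.card V
        ≤ ((1 - a) * (2 * lam + ε)) * (k : ℝ) ^ 2 * Fintype.card V := by
          refine mul_le_mul_of_nonneg_right (mul_le_mul_of_nonneg_right e hkpos.le) hcard.le
      _ = (1 - a) * D * (Fintype.card V : ℝ) := by rw [hD]; ring

/-- The pipeline: the template inequality with constant `lam` implies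
`sub(k) <= (2 lam + o(1)) k^2`. -/
theorem sub_le_of_tineq (lam : ℝ) (hlam : 0 ≤ lam) (hT : TIneq lam) :
    ∀ ε : ℝ, 0 < ε → ∃ K : ℕ, ∀ k : ℕ, K ≤ k → ∀ (V : Type) [Finite V] [Nonempty V]
      (G : SimpleGraph V),
      (2 * lam + ε) * (k : ℝ) ^ 2 * (Nat.card V : ℝ) ≤ 2 * (Nat.card G.edgeSet : ℝ) →
        HasTK G k :=
  upper_of_dense (2 * lam) (by linarith) (denseOK_of_tineq lam hlam hT)

end

end Pool.Agent.H25.TD
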