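import Pool.Agent.H25.TD.Defs

/-!
The 4-cycle functional.

PROOFS. `c4_nonneg`: sum of squares. `c4_flip`: expand both sides to the quadruple sum and
exchange. `c4_perm`: reindex by the equivalences. `cut_le_c4`: by Cauchy-Schwarz
`(Σ_{a∈X} Σ_{b∈Y} f)² <= |Y| Σ_b (Σ_{a∈X} f a b)² = |Y| Σ_{a,a'∈X} c(a,a')`,
`c(a,a') = Σ_b f a b f a' b`; square again: `<= |Y|² |X|² Σ_{a,a'∈X} c² <= |X|²|Y|² c4 f`.
`c4_le`: `|f| <= 1`, so `|c(a,a')| <= |T|` and `c4 f <= |T| Σ_a Σ_{a'} |c(a,a')|`. For fixed `a` and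
any set `X` of `a'`, with `Nb = {b : E a b}`:
`Σ_{a'∈X} c(a,a') = (1-d) Σ_{X × Nb} f - d Σ_{X × Nbᶜ} f`, absolute value at most `κ`; use it for
`X = {a' : c > 0}` and `X = {a' : c < 0}`: `Σ_{a'} |c| <= 2κ`. So `c4 f <= 2 κ |S| |T|`.
`holder4`: Cauchy-Schwarz twice: `Σ W √s <= √(Σ W) √(Σ W s)` with `s = √r` and then `s = r`.
-/

namespace Pool.Agent.H25.TD

open Finset Pool.Agent.H25.TK
open scoped Classical

noncomputable section

variable {S T : Type} [Fintype S] [Fintype T]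

private lemma C4_expand (f : S → T → ℝ) :
    c4 f = ∑ p : S × S, ∑ q : T × T, f p.1 q.1 * f p.2 q.1 * (f p.1 q.2 * f p.2 q.2) := by
  unfold c4
  rw [Fintype.sum_prod_type]
  refine Finset.sum_congr rfl fun a _ => Finset.sum_congr rfl fun a' _ => ?_
  rw [Fintype.sum_prod_type, sq, Finset.sum_mul_sum]

lemma c4_nonneg (f : S → T → ℝ) : 0 ≤ c4 f :=
  Finset.sum_nonneg fun _ _ => Finset.sum_nonneg fun _ _ => sq_nonneg _

lemma c4_flip (f : S → T → ℝ) : c4 (fun b a => f a b) = c4 f := by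
  rw [C4_expand, C4_expand, Finset.sum_comm]
  refine Finset.sum_congr rfl fun p _ => Finset.sum_congr rfl fun q _ => ?_
  ring

lemma c4_perm (f : S → T → ℝ) (σ : Equiv.Perm S) (τ : Equiv.Perm T) :
    c4 (fun a b => f (σ a) (τ b)) = c4 f := by
  unfold c4
  have h1 : ∀ a a', (∑ b, f a (τ b) * f a' (τ b)) = ∑ b, f a b * f a' b := fun a a' =>
    Equiv.sum_comp τ (fun b => f a b * f a' b)
  simp only [h1]
  rw [← Equiv.sum_comp σ (fun a => ∑ a', (∑ b, f a b * f a' b) ^ 2)]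
  refine Finset.sum_congr rfl fun a _ => ?_
  exact Equiv.sum_comp σ (fun a' => (∑ b, f (σ a) b * f a' b) ^ 2)

lemma cut_le_c4 (f : S → T → ℝ) (X : Finset S) (Y : Finset T) :
    (∑ a ∈ X, ∑ b ∈ Y, f a b) ^ 4 ≤ (X.card : ℝ) ^ 2 * (Y.card : ℝ) ^ 2 * c4 f := by
  set B : ℝ := ∑ a ∈ X, ∑ a' ∈ X, ∑ b, f a b * f a' b with hB
  have hB1 : B = ∑ b, (∑ a ∈ X, f a b) ^ 2 := by
    rw [hB]
    simp only [sq, Finset.sum_mul_sum]
    have h1 : ∀ a ∈ X, ∑ a' ∈ X, ∑ b, f a b * f a' b = ∑ b, ∑ a' ∈ X, f a b * f a' b := fun a _ =>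
      Finset.sum_comm
    rw [Finset.sum_congr rfl h1, Finset.sum_comm]
  have h1 : (∑ a ∈ X, ∑ b ∈ Y, f a b) ^ 2 ≤ Y.card * B := by
    rw [Finset.sum_comm]
    refine (sq_sum_le_card_mul_sum_sq).trans ?_
    refine mul_le_mul_of_nonneg_left ?_ (by positivity)
    rw [hB1]
    exact Finset.sum_le_sum_of_subset_of_nonneg (Finset.subset_univ _) fun _ _ _ => sq_nonneg _
  have h2 : B ^ 2 ≤ (X.card : ℝ) ^ 2 * c4 f := by
    have h3 : B = ∑ p ∈ X ×ˢ X, ∑ b, f p.1 b * f p.2 b := by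
      rw [hB, Finset.sum_product]
    have h4 : ∑ p ∈ X ×ˢ X, (∑ b, f p.1 b * f p.2 b) ^ 2 ≤ c4 f := by
      unfold c4
      rw [← Fintype.sum_prod_type (fun p : S × S => (∑ b, f p.1 b * f p.2 b) ^ 2)]
      exact Finset.sum_le_sum_of_subset_of_nonneg (Finset.subset_univ _) fun _ _ _ => sq_nonneg _
    rw [h3]
    refine (sq_sum_le_card_mul_sum_sq).trans ?_
    rw [Finset.card_product]
    push_cast
    rw [← sq]
    exact mul_le_mul_of_nonneg_left h4 (by positivity)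
  have hB0 : 0 ≤ B := by rw [hB1]; exact Finset.sum_nonneg fun _ _ => sq_nonneg _
  calc (∑ a ∈ X, ∑ b ∈ Y, f a b) ^ 4 = ((∑ a ∈ X, ∑ b ∈ Y, f a b) ^ 2) ^ 2 := by ring
    _ ≤ (Y.card * B) ^ 2 := pow_le_pow_left₀ (sq_nonneg _) h1 2
    _ = (Y.card : ℝ) ^ 2 * B ^ 2 := by ring
    _ ≤ (Y.card : ℝ) ^ 2 * ((X.card : ℝ) ^ 2 * c4 f) := mul_le_mul_of_nonneg_left h2 (by positivity)
    _ = (X.card : ℝ) ^ 2 * (Y.card : ℝ) ^ 2 * c4 f := by ring

lemma c4_le (E : S → T → Prop) (d κ : ℝ) (hd : 0 ≤ d) (hd1 : d ≤ 1)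
    (h : ∀ (X : Finset S) (Y : Finset T),
      |∑ a ∈ X, ∑ b ∈ Y, ((if E a b then (1 : ℝ) else 0) - d)| ≤ κ) :
    c4 (fun a b => (if E a b then (1 : ℝ) else 0) - d) ≤
      4 * κ * Fintype.card S * Fintype.card T := by
  have hκ : 0 ≤ κ := le_trans (abs_nonneg _) (h ∅ ∅)
  set f : S → T → ℝ := fun a b => (if E a b then (1 : ℝ) else 0) - d with hf
  have hf1 : ∀ a b, |f a b| ≤ 1 := by
    intro a b
    simp only [hf]
    split_ifs <;> rw [abs_le] <;> constructor <;> linarith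
  set c : S → S → ℝ := fun a a' => ∑ b, f a b * f a' b with hc
  have hc1 : ∀ a a', |c a a'| ≤ Fintype.card T := by
    intro a a'
    simp only [hc]
    refine (Finset.abs_sum_le_sum_abs _ _).trans ?_
    have : ∀ b ∈ (Finset.univ : Finset T), |f a b * f a' b| ≤ 1 := by
      intro b _
      rw [abs_mul]
      exact mul_le_one₀ (hf1 a b) (abs_nonneg _) (hf1 a' b)
    refine (Finset.sum_le_sum this).trans ?_
    simp
  have hX : ∀ (a : S) (X : Finset S), |∑ a' ∈ X, c a a'| ≤ κ := by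
    intro a X
    have h1 : ∑ a' ∈ X, c a a' =
        (1 - d) * (∑ a' ∈ X, ∑ b ∈ Finset.univ.filter (fun b => E a b), f a' b) +
        (-d) * (∑ a' ∈ X, ∑ b ∈ Finset.univ.filter (fun b => ¬ E a b), f a' b) := by
      rw [Finset.mul_sum, Finset.mul_sum, ← Finset.sum_add_distrib]
      refine Finset.sum_congr rfl fun a' _ => ?_
      simp only [hc]
      rw [← Finset.sum_filter_add_sum_filter_not Finset.univ (fun b => E a b), Finset.mul_sum,
        Finset.mul_sum]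
      congr 1
      · refine Finset.sum_congr rfl fun b hb => ?_
        have : E a b := (Finset.mem_filter.1 hb).2
        simp [hf, this]
      · refine Finset.sum_congr rfl fun b hb => ?_
        have : ¬ E a b := (Finset.mem_filter.1 hb).2
        simp [hf, this]
    rw [h1]
    refine (abs_add_le _ _).trans ?_
    rw [abs_mul, abs_mul, abs_neg, abs_of_nonneg hd, abs_of_nonneg (by linarith : 0 ≤ 1 - d)]
    have h2 := h X (Finset.univ.filter (fun b => E a b))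
    have h3 := h X (Finset.univ.filter (fun b => ¬ E a b))
    have h4 := mul_le_mul_of_nonneg_left h2 (by linarith : 0 ≤ 1 - d)
    have h5 := mul_le_mul_of_nonneg_left h3 hd
    linarith
  have hsum : ∀ a, ∑ a', |c a a'| ≤ 2 * κ := by
    intro a
    rw [← Finset.sum_filter_add_sum_filter_not Finset.univ (fun a' => 0 ≤ c a a')]
    have h1 : ∑ a' ∈ Finset.univ.filter (fun a' => 0 ≤ c a a'), |c a a'| =
        ∑ a' ∈ Finset.univ.filter (fun a' => 0 ≤ c a a'), c a a' :=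
      Finset.sum_congr rfl fun a' ha' => abs_of_nonneg (Finset.mem_filter.1 ha').2
    have h2 : ∑ a' ∈ Finset.univ.filter (fun a' => ¬ 0 ≤ c a a'), |c a a'| =
        - ∑ a' ∈ Finset.univ.filter (fun a' => ¬ 0 ≤ c a a'), c a a' := by
      rw [← Finset.sum_neg_distrib]
      exact Finset.sum_congr rfl fun a' ha' =>
        abs_of_neg (not_le.1 (Finset.mem_filter.1 ha').2)
    rw [h1, h2]
    have h3 := (abs_le.1 (hX a (Finset.univ.filter (fun a' => 0 ≤ c a a')))).2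
    have h4 := (abs_le.1 (hX a (Finset.univ.filter (fun a' => ¬ 0 ≤ c a a')))).1
    linarith
  have hT : (0 : ℝ) ≤ Fintype.card T := by positivity
  have hS : (0 : ℝ) ≤ Fintype.card S := by positivity
  calc c4 f = ∑ a, ∑ a', (c a a') ^ 2 := rfl
    _ ≤ ∑ a, ∑ a', (Fintype.card T : ℝ) * |c a a'| := by
        refine Finset.sum_le_sum fun a _ => Finset.sum_le_sum fun a' _ => ?_
        rw [← sq_abs, sq]
        exact mul_le_mul_of_nonneg_right (hc1 a a') (abs_nonneg _)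
    _ = (Fintype.card T : ℝ) * ∑ a, ∑ a', |c a a'| := by
        rw [Finset.mul_sum]
        exact Finset.sum_congr rfl fun a _ => by rw [Finset.mul_sum]
    _ ≤ (Fintype.card T : ℝ) * ∑ _a : S, 2 * κ :=
        mul_le_mul_of_nonneg_left (Finset.sum_le_sum fun a _ => hsum a) hT
    _ = 2 * κ * Fintype.card S * Fintype.card T := by
        rw [Finset.sum_const, Finset.card_univ, nsmul_eq_mul]
        ring
    _ ≤ 4 * κ * Fintype.card S * Fintype.card T := by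
        have := mul_nonneg (mul_nonneg hκ hS) hT
        nlinarith

private lemma C4_cs {ι : Type} (s : Finset ι) (W t : ι → ℝ) (hW : ∀ i ∈ s, 0 ≤ W i)
    (ht : ∀ i ∈ s, 0 ≤ t i) :
    ∑ i ∈ s, W i * √(t i) ≤ √(∑ i ∈ s, W i) * √(∑ i ∈ s, W i * t i) := by
  rw [← Real.sqrt_mul (Finset.sum_nonneg hW)]
  apply Real.le_sqrt_of_sq_le
  have h1 : ∑ i ∈ s, W i * √(t i) = ∑ i ∈ s, √(W i) * √(W i * t i) := by
    refine Finset.sum_congr rfl fun i hi => ?_
    rw [Real.sqrt_mul (hW i hi), ← mul_assoc, Real.mul_self_sqrt (hW i hi)]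
  have h2 : ∑ i ∈ s, W i = ∑ i ∈ s, √(W i) ^ 2 :=
    Finset.sum_congr rfl fun i hi => (Real.sq_sqrt (hW i hi)).symm
  have h3 : ∑ i ∈ s, W i * t i = ∑ i ∈ s, √(W i * t i) ^ 2 :=
    Finset.sum_congr rfl fun i hi => (Real.sq_sqrt (mul_nonneg (hW i hi) (ht i hi))).symm
  rw [h1, h2, h3]
  exact Finset.sum_mul_sq_le_sq_mul_sq _ _ _

private lemma C4_q4_sq (x : ℝ) : q4 x ^ 2 = √x := by
  unfold q4
  exact Real.sq_sqrt (Real.sqrt_nonneg x)

lemma holder4 {ι : Type} (s : Finset ι) (W r : ι → ℝ) (hW : ∀ i ∈ s, 0 ≤ W i)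
    (hr : ∀ i ∈ s, 0 ≤ r i) :
    ∑ i ∈ s, W i * q4 (r i) ≤ q4 (∑ i ∈ s, W i) ^ 3 * q4 (∑ i ∈ s, W i * r i) := by
  have h1 := C4_cs s W (fun i => √(r i)) hW (fun i _ => Real.sqrt_nonneg _)
  have h2 := C4_cs s W r hW hr
  have h3 : √(∑ i ∈ s, W i * √(r i)) ≤ q4 (∑ i ∈ s, W i) * q4 (∑ i ∈ s, W i * r i) := by
    refine (Real.sqrt_le_sqrt h2).trans (le_of_eq ?_)
    rw [Real.sqrt_mul (Real.sqrt_nonneg _)]
    rfl
  calc ∑ i ∈ s, W i * q4 (r i) ≤ √(∑ i ∈ s, W i) * √(∑ i ∈ s, W i * √(r i)) := h1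
    _ ≤ √(∑ i ∈ s, W i) * (q4 (∑ i ∈ s, W i) * q4 (∑ i ∈ s, W i * r i)) :=
        mul_le_mul_of_nonneg_left h3 (Real.sqrt_nonneg _)
    _ = q4 (∑ i ∈ s, W i) ^ 3 * q4 (∑ i ∈ s, W i * r i) := by
        rw [← C4_q4_sq (∑ i ∈ s, W i)]
        ring

/-- The form in which the functional is used. -/
lemma cut_le_rel {V : Type} (G : SimpleGraph V) (d : ℝ) (A : S → V) (B : T → V) (X : Finset S)
    (Y : Finset T) :
    |∑ a ∈ X, ∑ b ∈ Y, dev G d A B a b| ≤
      Fintype.card S * Fintype.card T * q4 (rel G d A B) := by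
  have h1 := cut_le_c4 (dev G d A B) X Y
  have hc := c4_nonneg (dev G d A B)
  have hS : (0 : ℝ) ≤ Fintype.card S := by positivity
  have hT : (0 : ℝ) ≤ Fintype.card T := by positivity
  have hXS : (X.card : ℝ) ≤ Fintype.card S := by exact_mod_cast Finset.card_le_univ X
  have hYT : (Y.card : ℝ) ≤ Fintype.card T := by exact_mod_cast Finset.card_le_univ Y
  have hX0 : (0 : ℝ) ≤ X.card := by positivity
  have hY0 : (0 : ℝ) ≤ Y.card := by positivity
  have hrel : 0 ≤ rel G d A B := by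
    unfold rel
    positivity
  have h2 : ((Fintype.card S : ℝ) * Fintype.card T * q4 (rel G d A B)) ^ 4 =
      (Fintype.card S : ℝ) ^ 4 * (Fintype.card T : ℝ) ^ 4 * rel G d A B := by
    rw [mul_pow, mul_pow, q4_pow _ hrel]
  have h3 : (Fintype.card S : ℝ) ^ 2 * (Fintype.card T : ℝ) ^ 2 * c4 (dev G d A B) ≤
      (Fintype.card S : ℝ) ^ 4 * (Fintype.card T : ℝ) ^ 4 * rel G d A B := by
    unfold rel
    by_cases h0 : (Fintype.card S : ℝ) ^ 2 * (Fintype.card T : ℝ) ^ 2 = 0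
    · rw [h0, zero_mul, div_zero, mul_zero]
    · apply le_of_eq
      field_simp
  have h4 : (X.card : ℝ) ^ 2 * (Y.card : ℝ) ^ 2 * c4 (dev G d A B) ≤
      (Fintype.card S : ℝ) ^ 2 * (Fintype.card T : ℝ) ^ 2 * c4 (dev G d A B) := by
    refine mul_le_mul_of_nonneg_right ?_ hc
    exact mul_le_mul (pow_le_pow_left₀ hX0 hXS 2) (pow_le_pow_left₀ hY0 hYT 2) (by positivity)
      (by positivity)
  have h5 : |∑ a ∈ X, ∑ b ∈ Y, dev G d A B a b| ^ 4 ≤
      ((Fintype.card S : ℝ) * Fintype.card T * q4 (rel G d A B)) ^ 4 := by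
    rw [h2]
    have : |∑ a ∈ X, ∑ b ∈ Y, dev G d A B a b| ^ 4 = (∑ a ∈ X, ∑ b ∈ Y, dev G d A B a b) ^ 4 := by
      rw [← abs_pow]
      exact abs_of_nonneg (Even.pow_nonneg (by decide) _)
    rw [this]
    exact h1.trans (h4.trans h3)
  exact (pow_le_pow_iff_left₀ (abs_nonneg _)
    (mul_nonneg (mul_nonneg hS hT) (q4_nonneg _)) (by norm_num)).1 h5

end

end Pool.Agent.H25.TD
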