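import Pool.Agent.H25.TD.World
import Pool.Agent.H25.TK.KSfun

/-!
Common definitions of the dense side (MP_5406dc, clique subdivisions). `q4` (fourth root), `dd`,
`nb`, `Conn`, `HasTK` are those of `TK/Defs.lean`.
-/

namespace Pool.Agent.H25.TD

open Finset Pool.Agent.H25.TK
open scoped Classical

noncomputable section

/-- The 4-cycle functional `sum over a, a', b, b'` of `f a b f a' b f a b' f a' b'`. -/
def c4 {S T : Type} [Fintype S] [Fintype T] (f : S → T → ℝ) : ℝ :=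
  ∑ a, ∑ a', (∑ b, f a b * f a' b) ^ 2

/-- Deviation of the adjacency between two families of vertices from the density `d`. -/
def dev {V S T : Type} (G : SimpleGraph V) (d : ℝ) (A : S → V) (B : T → V) (a : S) (b : T) : ℝ :=
  (if G.Adj (A a) (B b) then 1 else 0) - d

/-- Normalised 4-cycle functional. -/
def rel {V S T : Type} [Fintype S] [Fintype T] (G : SimpleGraph V) (d : ℝ) (A : S → V)
    (B : T → V) : ℝ :=
  c4 (dev G d A B) / ((Fintype.card S : ℝ) ^ 2 * (Fintype.card T : ℝ) ^ 2)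

/-- Number of adjacent pairs in `A × B`. -/
def ee {V : Type} (G : SimpleGraph V) (A B : Finset V) : ℕ :=
  ((A ×ˢ B).filter (fun q => G.Adj q.1 q.2)).card

/-- Regular pair of density `d` (cut norm form). -/
def RegPair {V : Type} (G : SimpleGraph V) (ε d : ℝ) (A B : Finset V) : Prop :=
  ∀ X ⊆ A, ∀ Y ⊆ B, |(ee G X Y : ℝ) - d * X.card * Y.card| ≤ ε * A.card * B.card

/-- A system of `m` clusters of size `N` in the graph `G`. -/
structure Sys {V : Type} (G : SimpleGraph V) (m N : ℕ) (cl : Fin m → Fin N → V)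
    (p : Fin m → Fin m → ℝ) (δ ε : ℝ) : Prop where
  inj : Function.Injective (fun z : Fin m × Fin N => cl z.1 z.2)
  symm : ∀ i j, p i j = p j i
  self : ∀ i, p i i = 0
  nonneg : ∀ i j, 0 ≤ p i j
  le_one : ∀ i j, p i j ≤ 1
  gap : ∀ i j, 0 < p i j → δ ≤ p i j
  reg : ∀ i j, 0 < p i j → c4 (dev G (p i j) (cl i) (cl j)) ≤ ε * (N : ℝ) ^ 4

/-- A subdivision of `K_k` inside `U` up to at most `L` missing pairs. -/
def PartTK {V : Type} (G : SimpleGraph V) (U : Set V) (k : ℕ) (L : ℝ) : Prop :=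
  ∃ (f : Fin k → V) (Lft : Finset (Fin k × Fin k)) (R : Fin k → Fin k → Set V),
    Function.Injective f ∧ (∀ i, f i ∈ U) ∧ (Lft.card : ℝ) ≤ L ∧ (∀ i j, R i j ⊆ U) ∧
    (∀ i j, i < j → (i, j) ∉ Lft → Conn G (f i) (f j) (R i j)) ∧
    (∀ i j, i < j → ∀ l, f l ∉ R i j) ∧
    (∀ i j i' j', i < j → i' < j' → (i, j) ≠ (i', j') → Disjoint (R i j) (R i' j'))

/-- Integer routing plan in `m` clusters of size `N`: branch sets of sizes `b i` and route types
`τ < q` (a route `w τ` from `src τ` to `dst τ`, used by `sz τ` strings). -/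
structure Plan (m N : ℕ) (p : Fin m → Fin m → ℝ) where
  q : ℕ
  src : Fin q → Fin m
  dst : Fin q → Fin m
  le : ∀ τ, src τ ≤ dst τ
  w : Fin q → List (Fin m)
  route : ∀ τ, IsRoute p (src τ) (dst τ) (w τ)
  sz : Fin q → ℕ
  b : Fin m → ℕ
  small : ∀ τ, sz τ ≤ b (src τ) * b (dst τ)
  fit : ∀ v, ∑ τ, sz τ * (w τ).count v + b v ≤ N

namespace Plan

variable {m N : ℕ} {p : Fin m → Fin m → ℝ}

/-- The `t`-th cluster of the route `τ`. -/
def pos (P : Plan m N p) (τ : Fin P.q) (t : ℕ) : Fin m := (P.w τ).getD t (P.src τ)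

/-- Length of the route `τ`. -/
def len (P : Plan m N p) (τ : Fin P.q) : ℕ := (P.w τ).length

/-- Number of strings available for the pairs of type `(i,j)`. -/
def avail (P : Plan m N p) (i j : Fin m) : ℕ :=
  ∑ τ, if P.src τ = i ∧ P.dst τ = j then P.sz τ else 0

/-- Total shortage of strings. -/
def loss (P : Plan m N p) : ℝ :=
  (∑ i, ∑ j, if i < j then
      max 0 ((1 - p i j) * ((P.b i : ℝ) * P.b j) - P.avail i j) else 0) +
    ∑ i, max 0 ((P.b i : ℝ) ^ 2 / 2 - P.avail i i)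

/-- Total weight of the links. -/
def wt (P : Plan m N p) : ℝ :=
  (∑ τ, (P.sz τ : ℝ) * (P.len τ + 1)) + (∑ i, (P.b i : ℝ)) ^ 2

/-- Lower order terms. -/
def low (P : Plan m N p) : ℝ :=
  (∑ τ, (2 * (P.len τ : ℝ) + 2 + P.b (P.src τ) + P.b (P.dst τ))) + 2 * m * ∑ i, (P.b i : ℝ)

end Plan

end

end Pool.Agent.H25.TD
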