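import Pool.Agent.H25.TD.Defs

/-!
Integer plan from a feasible distribution.

PROOF. `b_i = ⌈β_i k⌉₊` (between `β_i k` and `β_i k + 1`). The route types are the triples
`(i,j,w)`, `w ∈ Ω`, `|w| <= L`, `g i j w ≠ 0` (so `i <= j` and `w` is a route), enumerated by
`Fin q` (`Finset.equivFin`); there are at most `m² (m+1)^L` of them (lists of length at most `L`).
`sz = ⌊g k²⌋₊`. `small`: `g i j w <= (1-p) β_i β_j` or `<= β_i²/2` (a single term of a sum of
nonnegative terms). `fit`: `Σ sz count v + b_v <= k² W.x v + k + 1 <= (1-η) N + η N = N`.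
Loss for `i < j`: `(1-p) b_i b_j - Σ sz <= (1-p) β_i β_j k² + (β_i + β_j) k + 1 -
Σ_{|w| <= L} g k² + #(i,j) = k² Σ_{|w|>L} g + (β_i+β_j) k + 1 + #(i,j)`, `#(i,j)` = number of
types; for `i = j`: `b_i²/2 - Σ sz <= k² Σ_{|w|>L} g + β_i k + 1 + #(i,i)`. Sum over
`i <= j`: `k² Σ_{long} g + m k + m² + q`, and `(L+1) Σ_{long} g <= Σ g |w| = Σ_v Σ g count v <=
Σ W.x <= m N / k²`.
-/

namespace Pool.Agent.H25.TD

open Finset Pool.Agent.H25.TK
open scoped Classical

noncomputable section

private theorem mkPlan_upper {m : ℕ} (h : Fin m → Fin m → ℝ) (h0 : ∀ i j, 0 ≤ h i j) :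
    (∑ i, ∑ j, (if i < j then h i j else 0)) + ∑ i, h i i ≤ ∑ i, ∑ j, h i j := by
  rw [← sum_add_distrib]
  refine sum_le_sum fun i _ => ?_
  have h1 : h i i = ∑ j, (if i = j then h i j else 0) := by
    rw [sum_ite_eq]; simp
  rw [h1, ← sum_add_distrib]
  refine sum_le_sum fun j _ => ?_
  have := h0 i j
  rcases lt_trichotomy i j with hij | hij | hij
  · rw [if_pos hij, if_neg hij.ne]; linarith
  · rw [if_neg (by rw [hij]; exact lt_irrefl _), if_pos hij]; linarith
  · rw [if_neg hij.not_gt, if_neg hij.ne']; linarith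

private theorem mkPlan_beta {m : ℕ} (β : Fin m → ℝ) :
    (∑ i, ∑ j, (if i < j then β i + β j else 0)) + ∑ i, β i = m * ∑ i, β i := by
  have e1 : (∑ i, ∑ j, (if i < j then β i + β j else 0)) =
      (∑ i, ∑ j, (if i < j then β i else 0)) + ∑ i, ∑ j, (if j < i then β i else 0) := by
    rw [sum_comm (s := univ) (t := univ) (f := fun i j => (if j < i then β i else 0)),
      ← sum_add_distrib]
    refine sum_congr rfl fun i _ => ?_
    rw [← sum_add_distrib]
    refine sum_congr rfl fun j _ => ?_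
    split_ifs <;> simp
  rw [e1, ← sum_add_distrib, ← sum_add_distrib, mul_sum]
  refine sum_congr rfl fun i _ => ?_
  have h1 : β i = ∑ j, (if i = j then β i else 0) := by
    rw [sum_ite_eq]; simp
  have h2 : (∑ j, (if i < j then β i else 0)) + (∑ j, (if j < i then β i else 0)) +
      ∑ j, (if i = j then β i else 0) = ∑ _j : Fin m, β i := by
    rw [← sum_add_distrib, ← sum_add_distrib]
    refine sum_congr rfl fun j _ => ?_
    rcases lt_trichotomy i j with hij | hij | hij
    · rw [if_pos hij, if_neg hij.not_gt, if_neg hij.ne]; ring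
    · rw [if_neg (by rw [hij]; exact lt_irrefl _), if_neg (by rw [hij]; exact lt_irrefl _),
        if_pos hij]; ring
    · rw [if_neg hij.not_gt, if_pos hij, if_neg hij.ne']; ring
  rw [← h1] at h2
  rw [h2]
  simp

/-- Code of a short list. -/
private def mkPlan_code (m L : ℕ) (x : Fin m × Fin m × List (Fin m)) :
    Fin m × Fin m × (Fin L → Option (Fin m)) := (x.1, x.2.1, fun t => x.2.2[(t : ℕ)]?)

private theorem mkPlan_code_inj (m L : ℕ) (x y : Fin m × Fin m × List (Fin m))
    (hx : x.2.2.length ≤ L) (hy : y.2.2.length ≤ L) (h : mkPlan_code m L x = mkPlan_code m L y) :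
    x = y := by
  obtain ⟨i, j, w⟩ := x
  obtain ⟨i', j', w'⟩ := y
  simp only [mkPlan_code, Prod.mk.injEq] at h
  obtain ⟨h1, h2, h3⟩ := h
  have h4 : w = w' := by
    apply List.ext_getElem?
    intro t
    by_cases ht : t < L
    · exact congrFun h3 ⟨t, ht⟩
    · rw [List.getElem?_eq_none (by simp only at hx; omega),
        List.getElem?_eq_none (by simp only at hy; omega)]
  rw [h1, h2, h4]

private theorem mkPlan_card {m : ℕ} (L : ℕ) (T : Finset (Fin m × Fin m × List (Fin m)))
    (hT : ∀ x ∈ T, x.2.2.length ≤ L) : T.card ≤ m ^ 2 * (m + 1) ^ L := by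
  have h1 : T.card ≤ Fintype.card (Fin m × Fin m × (Fin L → Option (Fin m))) := by
    rw [← Finset.card_univ]
    refine card_le_card_of_injOn (mkPlan_code m L) (fun x _ => mem_univ _) ?_
    intro x hx y hy hxy
    exact mkPlan_code_inj m L x y (hT x hx) (hT y hy) hxy
  refine h1.trans (le_of_eq ?_)
  rw [Fintype.card_prod, Fintype.card_prod, Fintype.card_fun, Fintype.card_option,
    Fintype.card_fin, Fintype.card_fin]
  ring

private theorem mkPlan_enum {α : Type} (T : Finset α) (F : α → ℝ) :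
    ∑ τ : Fin T.card, F (T.equivFin.symm τ) = ∑ x ∈ T, F x := by
  rw [← Finset.sum_coe_sort T F]
  exact Equiv.sum_comp T.equivFin.symm (fun x : T => F x)

theorem plan_of_feas {m N : ℕ} (W : World m) (β : Fin m → ℝ) (hF : Feas W β) (k L : ℕ) (η : ℝ)
    (hη : 0 < η) (hη1 : η ≤ 1) (hk : 1 ≤ k)
    (hx : ∀ i, W.x i = (1 - η) * N / (k : ℝ) ^ 2) (hN : (k : ℝ) + 1 ≤ η * N) :
    ∃ P : Plan m N W.p, P.q ≤ m ^ 2 * (m + 1) ^ L ∧ (∀ τ, P.len τ ≤ L) ∧ k ≤ ∑ i, P.b i ∧
      ∑ i, P.b i ≤ k + m ∧
      P.loss ≤ (m : ℝ) * N / (L + 1) + P.q + m * k + (m : ℝ) ^ 2 := by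
  obtain ⟨Ω, g, g0, gne, gij, gii, gload⟩ := hF.routes
  have hβ0 := hF.nonneg
  have hβ1 : ∀ i, β i ≤ 1 := fun i => by
    rw [← hF.sum_one]
    exact single_le_sum (fun j _ => hβ0 j) (mem_univ i)
  have hk0 : (0 : ℝ) < k := by exact_mod_cast hk
  set b : Fin m → ℕ := fun i => ⌈β i * k⌉₊ with hb
  have hb1 : ∀ i, β i * k ≤ b i := fun i => Nat.le_ceil _
  have hb2 : ∀ i, (b i : ℝ) ≤ β i * k + 1 := fun i =>
    (Nat.ceil_lt_add_one (mul_nonneg (hβ0 i) hk0.le)).le
  -- bound for single terms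
  have gle : ∀ i j w, g i j w ≤ β i * β j := by
    intro i j w
    by_cases hg : g i j w = 0
    · rw [hg]; exact mul_nonneg (hβ0 i) (hβ0 j)
    · obtain ⟨hij, hw, -⟩ := gne i j w hg
      have h1 : g i j w ≤ ∑ w ∈ Ω, g i j w := single_le_sum (fun w _ => g0 i j w) hw
      rcases hij.lt_or_eq with hlt | heq
      · rw [gij i j hlt] at h1
        have h2 := W.p_nonneg i j
        have h3 := mul_nonneg (hβ0 i) (hβ0 j)
        nlinarith
      · subst heq
        rw [gii i] at h1
        nlinarith [mul_nonneg (hβ0 i) (hβ0 i)]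
  set T : Finset (Fin m × Fin m × List (Fin m)) :=
    (univ ×ˢ univ ×ˢ Ω).filter (fun x => g x.1 x.2.1 x.2.2 ≠ 0 ∧ x.2.2.length ≤ L) with hT
  have hTm : ∀ x ∈ T, g x.1 x.2.1 x.2.2 ≠ 0 ∧ x.2.2.length ≤ L := fun x hx =>
    (mem_filter.1 hx).2
  set e : Fin T.card → Fin m × Fin m × List (Fin m) := fun τ => (T.equivFin.symm τ : _) with he
  have heT : ∀ τ, e τ ∈ T := fun τ => (T.equivFin.symm τ).2
  set s : Fin m × Fin m × List (Fin m) → ℕ := fun x => ⌊g x.1 x.2.1 x.2.2 * (k : ℝ) ^ 2⌋₊ with hs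
  have hs1 : ∀ x, (s x : ℝ) ≤ g x.1 x.2.1 x.2.2 * (k : ℝ) ^ 2 := fun x =>
    Nat.floor_le (mul_nonneg (g0 _ _ _) (by positivity))
  have hs2 : ∀ x, g x.1 x.2.1 x.2.2 * (k : ℝ) ^ 2 - 1 ≤ s x := fun x =>
    (Nat.sub_one_lt_floor _).le
  -- total load
  have hload : ∀ v, ∑ x ∈ T, (s x : ℝ) * (x.2.2.count v : ℝ) ≤ (k : ℝ) ^ 2 * W.x v := by
    intro v
    have h1 : ∑ x ∈ T, (s x : ℝ) * (x.2.2.count v : ℝ) ≤
        ∑ x ∈ (univ ×ˢ univ ×ˢ Ω), (k : ℝ) ^ 2 * (g x.1 x.2.1 x.2.2 * (x.2.2.count v : ℝ)) := by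
      refine le_trans (sum_le_sum (g := fun x : Fin m × Fin m × List (Fin m) =>
        (k : ℝ) ^ 2 * (g x.1 x.2.1 x.2.2 * (x.2.2.count v : ℝ))) fun x _ => ?_)
        (sum_le_sum_of_subset_of_nonneg (filter_subset _ _) fun x _ _ => ?_)
      · calc (s x : ℝ) * (x.2.2.count v : ℝ) ≤
            (g x.1 x.2.1 x.2.2 * (k : ℝ) ^ 2) * (x.2.2.count v : ℝ) :=
              mul_le_mul_of_nonneg_right (hs1 x) (Nat.cast_nonneg _)
          _ = _ := by ring
      · have := g0 x.1 x.2.1 x.2.2
        positivity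
    refine h1.trans ?_
    rw [sum_product]
    simp_rw [sum_product]
    refine le_trans (le_of_eq ?_) (mul_le_mul_of_nonneg_left (gload v) (by positivity))
    rw [mul_sum]
    refine sum_congr rfl fun i _ => ?_
    rw [mul_sum]
    refine sum_congr rfl fun j _ => ?_
    rw [mul_sum]
  have hxk : ∀ v, (k : ℝ) ^ 2 * W.x v = (1 - η) * N := fun v => by
    rw [hx v]; field_simp
  let P : Plan m N W.p :=
    { q := T.card
      src := fun τ => (e τ).1
      dst := fun τ => (e τ).2.1
      le := fun τ => (gne _ _ _ (hTm _ (heT τ)).1).1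
      w := fun τ => (e τ).2.2
      route := fun τ => (gne _ _ _ (hTm _ (heT τ)).1).2.2
      sz := fun τ => s (e τ)
      b := b
      small := by
        intro τ
        have h1 : (s (e τ) : ℝ) ≤ (b (e τ).1 : ℝ) * b (e τ).2.1 := by
          refine (hs1 _).trans ?_
          calc g (e τ).1 (e τ).2.1 (e τ).2.2 * (k : ℝ) ^ 2 ≤
              (β (e τ).1 * β (e τ).2.1) * (k : ℝ) ^ 2 :=
                mul_le_mul_of_nonneg_right (gle _ _ _) (by positivity)
            _ = (β (e τ).1 * k) * (β (e τ).2.1 * k) := by ring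
            _ ≤ _ := mul_le_mul (hb1 _) (hb1 _) (mul_nonneg (hβ0 _) hk0.le) (Nat.cast_nonneg _)
        exact_mod_cast h1
      fit := by
        intro v
        have h1 : (∑ τ, (s (e τ) : ℝ) * ((e τ).2.2.count v : ℝ)) + (b v : ℝ) ≤ N := by
          have h2 := mkPlan_enum T (fun x => (s x : ℝ) * (x.2.2.count v : ℝ))
          have h3 := hload v
          rw [hxk v] at h3
          have h4 : (b v : ℝ) ≤ k + 1 := by
            refine (hb2 v).trans ?_
            nlinarith [hβ1 v]
          have h5 : (∑ τ, (s (e τ) : ℝ) * ((e τ).2.2.count v : ℝ)) =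
              ∑ x ∈ T, (s x : ℝ) * (x.2.2.count v : ℝ) := h2
          rw [h5]
          linarith
        exact_mod_cast h1 }
  refine ⟨P, mkPlan_card L T fun x hx => (hTm x hx).2, fun τ => (hTm _ (heT τ)).2, ?_, ?_, ?_⟩
  · have h1 : (k : ℝ) ≤ ∑ i, (b i : ℝ) := by
      calc (k : ℝ) = ∑ i, β i * k := by rw [← sum_mul, hF.sum_one, one_mul]
        _ ≤ _ := sum_le_sum fun i _ => hb1 i
    exact_mod_cast h1
  · have h1 : ∑ i, (b i : ℝ) ≤ k + m := by
      calc ∑ i, (b i : ℝ) ≤ ∑ i, (β i * k + 1) := sum_le_sum fun i _ => hb2 i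
        _ = _ := by rw [sum_add_distrib, ← sum_mul, hF.sum_one, one_mul]; simp
    exact_mod_cast h1
  · -- the loss
    set lng : Fin m → Fin m → ℝ := fun i j => ∑ w ∈ Ω, (if w.length ≤ L then 0 else g i j w)
      with hlng
    set cnt : Fin m → Fin m → ℝ := fun i j =>
      ∑ x ∈ T, (if x.1 = i ∧ x.2.1 = j then (1 : ℝ) else 0) with hcnt
    have hlng0 : ∀ i j, 0 ≤ lng i j := fun i j => sum_nonneg fun w _ => by
      split_ifs
      · exact le_rfl
      · exact g0 i j w
    have hcnt0 : ∀ i j, 0 ≤ cnt i j := fun i j => sum_nonneg fun x _ => by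
      split_ifs <;> norm_num
    -- available strings
    have hshort : ∀ i j, ∑ x ∈ T, (if x.1 = i ∧ x.2.1 = j then g x.1 x.2.1 x.2.2 else 0) =
        ∑ w ∈ Ω, g i j w - lng i j := by
      intro i j
      rw [hT, sum_filter, sum_product]
      simp_rw [sum_product]
      rw [sum_eq_single i, sum_eq_single j, hlng, ← sum_sub_distrib]
      · refine sum_congr rfl fun w _ => ?_
        by_cases h1 : w.length ≤ L
        · by_cases h2 : g i j w = 0
          · simp [h2]
          · simp [h1, h2]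
        · simp [h1]
      · intro j' _ hj'
        refine sum_eq_zero fun w _ => ?_
        simp [hj']
      · intro h; exact absurd (mem_univ j) h
      · intro i' _ hi'
        refine sum_eq_zero fun j' _ => sum_eq_zero fun w _ => ?_
        simp [hi']
      · intro h; exact absurd (mem_univ i) h
    have havail : ∀ i j, (k : ℝ) ^ 2 * (∑ w ∈ Ω, g i j w - lng i j) - cnt i j ≤ P.avail i j := by
      intro i j
      have h1 : ((P.avail i j : ℕ) : ℝ) = ∑ x ∈ T, (if x.1 = i ∧ x.2.1 = j then (s x : ℝ) else 0) := by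
        have h2 := mkPlan_enum T (fun x => (if x.1 = i ∧ x.2.1 = j then (s x : ℝ) else 0))
        rw [← h2]
        unfold Plan.avail
        rw [Nat.cast_sum]
        refine sum_congr rfl fun τ _ => ?_
        rw [Nat.cast_ite, Nat.cast_zero]
      rw [h1, ← hshort i j, hcnt, mul_sum, ← sum_sub_distrib]
      refine sum_le_sum fun x _ => ?_
      split_ifs
      · have := hs2 x
        linarith
      · simp
    -- the three sums
    have hsumcnt : ∑ i, ∑ j, cnt i j = (T.card : ℝ) := by
      rw [hcnt]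
      have h1 : ∀ i, (∑ j, ∑ x ∈ T, (if x.1 = i ∧ x.2.1 = j then (1 : ℝ) else 0)) =
          ∑ x ∈ T, (if x.1 = i then (1 : ℝ) else 0) := by
        intro i
        rw [sum_comm]
        refine sum_congr rfl fun x _ => ?_
        by_cases h2 : x.1 = i
        · simp [h2]
        · simp [h2]
      simp_rw [h1]
      rw [sum_comm]
      simp
    have hsumlng : (k : ℝ) ^ 2 * (∑ i, ∑ j, lng i j) ≤ (m : ℝ) * N / (L + 1) := by
      have hL : (0 : ℝ) < (L : ℝ) + 1 := by positivity
      rw [le_div_iff₀ hL]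
      have h1 : (∑ i, ∑ j, lng i j) * ((L : ℝ) + 1) ≤
          ∑ v, ∑ i, ∑ j, ∑ w ∈ Ω, g i j w * (w.count v : ℝ) := by
        have h2 : ∑ v, ∑ i, ∑ j, ∑ w ∈ Ω, g i j w * (w.count v : ℝ) =
            ∑ i, ∑ j, ∑ w ∈ Ω, g i j w * (w.length : ℝ) := by
          rw [sum_comm]
          refine sum_congr rfl fun i _ => ?_
          rw [sum_comm]
          refine sum_congr rfl fun j _ => ?_
          rw [sum_comm]
          refine sum_congr rfl fun w _ => ?_
          rw [← mul_sum]
          congr 1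
          have h3 : ∑ v, w.count v = w.length := by
            have := Multiset.sum_count_eq_card (s := (univ : Finset (Fin m))) (m := (w : Multiset (Fin m)))
              (fun a _ => mem_univ a)
            simpa using this
          rw [← h3, Nat.cast_sum]
        rw [h2, sum_mul]
        refine sum_le_sum fun i _ => ?_
        rw [sum_mul]
        refine sum_le_sum fun j _ => ?_
        rw [hlng]
        simp only
        rw [sum_mul]
        refine sum_le_sum fun w _ => ?_
        split_ifs with h3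
        · have := g0 i j w
          rw [zero_mul]; positivity
        · refine mul_le_mul_of_nonneg_left ?_ (g0 i j w)
          have : L + 1 ≤ w.length := by omega
          exact_mod_cast this
      have h2 : ∑ v, ∑ i, ∑ j, ∑ w ∈ Ω, g i j w * (w.count v : ℝ) ≤ ∑ v, W.x v :=
        sum_le_sum fun v _ => gload v
      have h3 : (k : ℝ) ^ 2 * ∑ v, W.x v = m * ((1 - η) * N) := by
        rw [mul_sum]
        simp_rw [hxk]
        simp
      have h4 : (k : ℝ) ^ 2 * ((∑ i, ∑ j, lng i j) * ((L : ℝ) + 1)) ≤ (k : ℝ) ^ 2 * ∑ v, W.x v :=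
        mul_le_mul_of_nonneg_left (h1.trans h2) (by positivity)
      rw [h3] at h4
      have h5 : (m : ℝ) * ((1 - η) * N) ≤ m * N := by
        refine mul_le_mul_of_nonneg_left ?_ (Nat.cast_nonneg _)
        nlinarith [Nat.cast_nonneg (α := ℝ) N]
      nlinarith
    -- the terms
    have hoff : ∀ i j, i < j → max 0 ((1 - W.p i j) * ((P.b i : ℝ) * P.b j) - P.avail i j) ≤
        ((k : ℝ) ^ 2 * lng i j + 1 + cnt i j) + (β i + β j) * k := by
      intro i j hij
      have h0 := hlng0 i j
      have h0' := hcnt0 i j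
      have hbi := hβ0 i
      have hbj := hβ0 j
      refine max_le ?_ ?_
      · positivity
      · have h1 := havail i j
        rw [gij i j hij] at h1
        have h2 : (P.b i : ℝ) * P.b j ≤ (β i * k + 1) * (β j * k + 1) :=
          mul_le_mul (hb2 i) (hb2 j) (Nat.cast_nonneg _) (by positivity)
        have hp0 := W.p_nonneg i j
        have hp1 := W.p_le i j
        have h3 : (1 - W.p i j) * ((P.b i : ℝ) * P.b j) ≤
            (1 - W.p i j) * ((β i * k + 1) * (β j * k + 1)) :=
          mul_le_mul_of_nonneg_left h2 (by linarith)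
        have h4 : (1 - W.p i j) * (β i * k + β j * k + 1) ≤ β i * k + β j * k + 1 := by
          have : 0 ≤ β i * k + β j * k + 1 := by positivity
          nlinarith
        nlinarith
    have hdiag : ∀ i, max 0 ((P.b i : ℝ) ^ 2 / 2 - P.avail i i) ≤
        ((k : ℝ) ^ 2 * lng i i + 1 + cnt i i) + β i * k := by
      intro i
      have h0 := hlng0 i i
      have h0' := hcnt0 i i
      have hbi := hβ0 i
      refine max_le ?_ ?_
      · positivity
      · have h1 := havail i i
        rw [gii i] at h1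
        have h2 : (P.b i : ℝ) ^ 2 ≤ (β i * k + 1) ^ 2 := by
          have := hb2 i
          exact pow_le_pow_left₀ (Nat.cast_nonneg _) (hb2 i) 2
        nlinarith
    have hfinal : P.loss ≤ (∑ i, ∑ j, ((k : ℝ) ^ 2 * lng i j + 1 + cnt i j)) +
        k * (m * ∑ i, β i) := by
      have h1 := mkPlan_upper (fun i j => (k : ℝ) ^ 2 * lng i j + 1 + cnt i j) (fun i j => by
        have := hlng0 i j
        have := hcnt0 i j
        positivity)
      have h2 := mkPlan_beta β
      have h3 : (∑ i, ∑ j, if i < j then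
          max 0 ((1 - W.p i j) * ((P.b i : ℝ) * P.b j) - P.avail i j) else 0) ≤
          (∑ i, ∑ j, (if i < j then ((k : ℝ) ^ 2 * lng i j + 1 + cnt i j) else 0)) +
          k * ∑ i, ∑ j, (if i < j then β i + β j else 0) := by
        rw [mul_sum, ← sum_add_distrib]
        refine sum_le_sum fun i _ => ?_
        rw [mul_sum, ← sum_add_distrib]
        refine sum_le_sum fun j _ => ?_
        split_ifs with hij
        · have := hoff i j hij
          linarith
        · simp
      have h4 : (∑ i, max 0 ((P.b i : ℝ) ^ 2 / 2 - P.avail i i)) ≤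
          (∑ i, ((k : ℝ) ^ 2 * lng i i + 1 + cnt i i)) + k * ∑ i, β i := by
        rw [mul_sum, ← sum_add_distrib]
        refine sum_le_sum fun i _ => ?_
        have := hdiag i
        linarith
      unfold Plan.loss
      rw [← h2, mul_add]
      linarith
    refine hfinal.trans ?_
    rw [hF.sum_one]
    have h5 : (∑ i, ∑ j, ((k : ℝ) ^ 2 * lng i j + 1 + cnt i j)) =
        (k : ℝ) ^ 2 * (∑ i, ∑ j, lng i j) + (m : ℝ) ^ 2 + (T.card : ℝ) := by
      rw [← hsumcnt, mul_sum]
      simp_rw [sum_add_distrib, mul_sum]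
      simp
      ring
    rw [h5]
    have h6 : (P.q : ℝ) = (T.card : ℝ) := rfl
    rw [h6]
    linarith

end

end Pool.Agent.H25.TD
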