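import Pool.Agent.H25.TD.EmbedPlan
import Pool.Agent.H25.TD.MkPlan

/-!
The dense embedding theorem.

PROOF. Choose `ξ > 0` with `ξ (1 + 1/δ) + (2/δ) √(2ξ) <= ε1/2`, `w = 2K + 4`, and `ε` with
`q4 w ^ 3 * q4 (2 ε w) <= ξ`. Choose `L` with `K/(L+1) <= ε1/4`. Given `m`, `η`, `c1`, take `k0`
so large that for `k >= k0`, `c1 k² <= m N <= K k²`: `k + 1 <= η N` (`N >= c1 k²/m`), `m <= k`,
`q + m k + m² <= ε1/4 k²` for `q = m²(m+1)^L`, and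
`low <= (2L + 2) q + 2 q (k+m) + 2 m (k+m) <= ε w k²`. Let `P` be the plan of `plan_of_feas`.
`wt = Σ sz (len + 1) + (Σ b)² <= 2 Σ_v (Σ sz count v) + (k+m)² <= 2 m N + 4 k² <= w k²`. So
`q4 wt ^ 3 * q4 (ε wt + low) <= q4 (w k²)^3 * q4 (2 ε w k²) <= ξ k² =: Ξ`
(`q4 (c k²)` multiplicative, `q4 (k²)^4 = k²`). `embed_plan`: the number of missing pairs is at
most `loss + Ξ + Ξ/δ + √(2Ξ) (k+m)/δ <= K k²/(L+1) + ε1/4 k² + ξ(1 + 1/δ) k² +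
(2/δ) √(2ξ) k² <= ε1 k²`.
-/

namespace Pool.Agent.H25.TD

open Finset Pool.Agent.H25.TK
open scoped Classical

noncomputable section

private lemma Embed_mono {V : Type} {G : SimpleGraph V} {U : Set V} {k : ℕ} {L L' : ℝ}
    (h : PartTK G U k L) (hL : L ≤ L') : PartTK G U k L' := by
  obtain ⟨f, Lft, R, h1, h2, h3, h4⟩ := h
  exact ⟨f, Lft, R, h1, h2, h3.trans hL, h4⟩

/-- each branch set is at most the sum -/
private lemma Embed_b {m N : ℕ} {p : Fin m → Fin m → ℝ} (P : Plan m N p) (i : Fin m) {B : ℝ}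
    (h : (∑ i, (P.b i : ℝ)) ≤ B) : (P.b i : ℝ) ≤ B :=
  (single_le_sum (f := fun i => (P.b i : ℝ)) (fun _ _ => Nat.cast_nonneg _) (mem_univ i)).trans h

private lemma Embed_low {m N : ℕ} {p : Fin m → Fin m → ℝ} (P : Plan m N p) {Q L B : ℝ}
    (hq : (P.q : ℝ) ≤ Q) (hL : ∀ τ, (P.len τ : ℝ) ≤ L) (hL0 : 0 ≤ L)
    (hB : (∑ i, (P.b i : ℝ)) ≤ B) (hB0 : 0 ≤ B) :
    P.low ≤ Q * (2 * L + 2 + 2 * B) + 2 * m * B := by
  unfold Plan.low
  have h1 : (∑ τ, (2 * (P.len τ : ℝ) + 2 + P.b (P.src τ) + P.b (P.dst τ))) ≤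
      ∑ _τ : Fin P.q, (2 * L + 2 + 2 * B) := by
    apply sum_le_sum
    intro τ _
    have := hL τ
    have := Embed_b P (P.src τ) hB
    have := Embed_b P (P.dst τ) hB
    linarith
  rw [sum_const, card_univ, Fintype.card_fin, nsmul_eq_mul] at h1
  have h2 : (P.q : ℝ) * (2 * L + 2 + 2 * B) ≤ Q * (2 * L + 2 + 2 * B) :=
    mul_le_mul_of_nonneg_right hq (by linarith)
  have h3 : 2 * (m : ℝ) * (∑ i, (P.b i : ℝ)) ≤ 2 * m * B :=
    mul_le_mul_of_nonneg_left hB (by positivity)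
  linarith

private lemma Embed_wt {m N : ℕ} {p : Fin m → Fin m → ℝ} (P : Plan m N p) {B : ℝ}
    (hB : (∑ i, (P.b i : ℝ)) ≤ B) : P.wt ≤ 2 * (m * N) + B ^ 2 := by
  unfold Plan.wt
  have h0 : 0 ≤ ∑ i, (P.b i : ℝ) := sum_nonneg (fun _ _ => Nat.cast_nonneg _)
  have h1 : (∑ i, (P.b i : ℝ)) ^ 2 ≤ B ^ 2 := pow_le_pow_left₀ h0 hB 2
  have h2 : (∑ τ, (P.sz τ : ℝ) * (P.len τ + 1)) ≤ 2 * ∑ τ, (P.sz τ : ℝ) * P.len τ := by
    rw [mul_sum]
    apply sum_le_sum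
    intro τ _
    have h3 : 1 ≤ P.len τ := by
      unfold Plan.len
      exact List.length_pos_iff.mpr (P.route τ).1
    have h4 : (1 : ℝ) ≤ P.len τ := by exact_mod_cast h3
    have h5 : (0 : ℝ) ≤ P.sz τ := Nat.cast_nonneg _
    nlinarith
  have h3 : ∀ τ, P.len τ = ∑ v, (P.w τ).count v := by
    intro τ
    unfold Plan.len
    have h4 := Multiset.sum_count_eq_card (s := (univ : Finset (Fin m)))
      (m := ((P.w τ : List (Fin m)) : Multiset (Fin m))) (fun a _ => mem_univ a)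
    rw [Multiset.coe_card] at h4
    rw [← h4]
    apply sum_congr rfl
    intro v _
    exact (Multiset.coe_count v (P.w τ))
  have h4 : (∑ τ, (P.sz τ : ℝ) * P.len τ) ≤ m * N := by
    have h5 : (∑ τ, (P.sz τ : ℝ) * P.len τ) = ∑ v, ∑ τ, (P.sz τ : ℝ) * ((P.w τ).count v : ℝ) := by
      rw [sum_comm]
      apply sum_congr rfl
      intro τ _
      rw [h3 τ, Nat.cast_sum, mul_sum]
    rw [h5]
    have h6 : ∀ v : Fin m, (∑ τ, (P.sz τ : ℝ) * ((P.w τ).count v : ℝ)) ≤ N := by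
      intro v
      have h7 := P.fit v
      have h8 : (∑ τ, P.sz τ * (P.w τ).count v) ≤ N := by omega
      have h9 : ((∑ τ, P.sz τ * (P.w τ).count v : ℕ) : ℝ) ≤ N := by exact_mod_cast h8
      rw [Nat.cast_sum] at h9
      simpa using h9
    calc (∑ v, ∑ τ, (P.sz τ : ℝ) * ((P.w τ).count v : ℝ)) ≤ ∑ _v : Fin m, (N : ℝ) :=
          sum_le_sum (fun v _ => h6 v)
      _ = m * N := by rw [sum_const, card_univ, Fintype.card_fin, nsmul_eq_mul]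
  linarith

private lemma Embed_wt_nonneg {m N : ℕ} {p : Fin m → Fin m → ℝ} (P : Plan m N p) :
    0 ≤ P.wt := by
  unfold Plan.wt
  positivity

private lemma Embed_low_nonneg {m N : ℕ} {p : Fin m → Fin m → ℝ} (P : Plan m N p) :
    0 ≤ P.low := by
  unfold Plan.low
  positivity

private lemma Embed_q4 {w ε ξ x : ℝ} (hw : 0 < w) (hξ : 0 ≤ ξ) (hx : 0 ≤ x)
    (hε : ε = ξ ^ 4 / (2 * w ^ 4)) :
    q4 (w * x) ^ 3 * q4 (2 * ε * w * x) ≤ ξ * x := by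
  have hε0 : 0 ≤ ε := by rw [hε]; positivity
  have h1 : (q4 w ^ 3 * q4 (2 * ε * w)) ^ 4 = ξ ^ 4 := by
    calc (q4 w ^ 3 * q4 (2 * ε * w)) ^ 4 = (q4 w ^ 4) ^ 3 * q4 (2 * ε * w) ^ 4 := by ring
      _ = w ^ 3 * (2 * ε * w) := by rw [q4_pow w hw.le, q4_pow _ (by positivity)]
      _ = ξ ^ 4 := by rw [hε]; field_simp
  have h2 : q4 w ^ 3 * q4 (2 * ε * w) ≤ ξ := by
    by_contra hcon
    push Not at hcon
    have h3 := pow_lt_pow_left₀ hcon hξ (n := 4) (by norm_num)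
    linarith
  rw [q4_mul w x hw.le, q4_mul (2 * ε * w) x (by positivity)]
  have h4 : q4 x ^ 4 = x := q4_pow x hx
  calc (q4 w * q4 x) ^ 3 * (q4 (2 * ε * w) * q4 x) =
      (q4 w ^ 3 * q4 (2 * ε * w)) * q4 x ^ 4 := by ring
    _ = (q4 w ^ 3 * q4 (2 * ε * w)) * x := by rw [h4]
    _ ≤ ξ * x := mul_le_mul_of_nonneg_right h2 hx

theorem embed (δ K ε1 : ℝ) (hδ : 0 < δ) (hδ1 : δ ≤ 1) (hK : 0 ≤ K) (hε1 : 0 < ε1) :
    ∃ ε : ℝ, 0 < ε ∧ ∀ (m : ℕ) (η c1 : ℝ), 0 < η → η ≤ 1 → 0 < c1 → ∃ k0 : ℝ,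
      ∀ (V : Type) (G : SimpleGraph V) (N k : ℕ) (cl : Fin m → Fin N → V) (W : World m)
        (β : Fin m → ℝ), k0 ≤ k → Sys G m N cl W.p δ ε → (m : ℝ) * N ≤ K * (k : ℝ) ^ 2 →
        c1 * (k : ℝ) ^ 2 ≤ (m : ℝ) * N → (∀ i, W.x i = (1 - η) * N / (k : ℝ) ^ 2) → Feas W β →
        PartTK G {v | ∃ i n, v = cl i n} k (ε1 * (k : ℝ) ^ 2) := by
  set s : ℝ := min 1 (ε1 * δ / 6) with hs
  have hs0 : 0 < s := lt_min one_pos (by positivity)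
  have hs1 : s ≤ 1 := min_le_left _ _
  have hs2 : s ≤ ε1 * δ / 6 := min_le_right _ _
  set ξ : ℝ := s ^ 2 / 2 with hξ
  have hξ0 : 0 < ξ := by positivity
  set w : ℝ := 2 * K + 4 with hw
  have hw0 : 0 < w := by positivity
  set ε : ℝ := ξ ^ 4 / (2 * w ^ 4) with hε
  have hε0 : 0 < ε := by positivity
  -- the main numerical condition
  have hnum : ξ + ξ / δ + 2 * s / δ ≤ ε1 / 2 := by
    have h1 : ξ ≤ s / 2 := by
      rw [hξ]
      nlinarith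
    have h2 : ξ + ξ / δ + 2 * s / δ = (ξ * δ + ξ + 2 * s) / δ := by field_simp
    rw [h2, div_le_iff₀ hδ]
    have h3 : ξ * δ ≤ ξ := by nlinarith
    nlinarith
  refine ⟨ε, hε0, ?_⟩
  intro m η c1 hη hη1 hc1
  set L : ℕ := ⌈4 * K / ε1⌉₊ with hL
  have hL1 : K / ((L : ℝ) + 1) ≤ ε1 / 4 := by
    have h1 : 4 * K / ε1 ≤ L := Nat.le_ceil _
    rw [div_le_iff₀ hε1] at h1
    rw [div_le_iff₀ (by positivity)]
    nlinarith
  set Q : ℝ := (m : ℝ) ^ 2 * ((m : ℝ) + 1) ^ L with hQ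
  have hQ0 : 0 ≤ Q := by positivity
  set k1 : ℝ := 2 * m / (η * c1) with hk1
  set k2 : ℝ := 4 * (Q + m + (m : ℝ) ^ 2) / ε1 with hk2
  set k3 : ℝ := (Q * (2 * L + 6) + 4 * m) / (ε * w) with hk3
  have hk10 : 0 ≤ k1 := by positivity
  have hk20 : 0 ≤ k2 := by positivity
  have hk30 : 0 ≤ k3 := by positivity
  refine ⟨k1 + k2 + k3 + m + 1, ?_⟩
  intro V G N k cl W β hk hS hmN hc hx hF
  have hm0 : (0 : ℝ) ≤ m := Nat.cast_nonneg m
  have hkr : (1 : ℝ) ≤ k := by linarith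
  have hkN : 1 ≤ k := by exact_mod_cast hkr
  have hkm : (m : ℝ) ≤ k := by linarith
  have hk0 : (0 : ℝ) < k := by linarith
  have hmpos : (0 : ℝ) < m := by
    rcases hm0.lt_or_eq with h | h
    · exact h
    · exfalso
      rw [← h, zero_mul] at hc
      have : 0 < c1 * (k : ℝ) ^ 2 := by positivity
      linarith
  -- (1)
  have hN1 : (k : ℝ) + 1 ≤ η * N := by
    have h1 : k1 ≤ k := by linarith
    rw [hk1, div_le_iff₀ (by positivity)] at h1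
    have h2 : (k : ℝ) * (2 * m) ≤ η * (m * N) := by
      calc (k : ℝ) * (2 * m) ≤ k * (k * (η * c1)) := mul_le_mul_of_nonneg_left h1 hk0.le
        _ = η * (c1 * (k : ℝ) ^ 2) := by ring
        _ ≤ η * (m * N) := mul_le_mul_of_nonneg_left hc hη.le
    have h3 : (2 * (k : ℝ)) * m ≤ (η * N) * m := by linarith
    have h4 : 2 * (k : ℝ) ≤ η * N := le_of_mul_le_mul_right h3 hmpos
    linarith
  obtain ⟨P, hP1, hP2, hP3, hP4, hP5⟩ := plan_of_feas W β hF k L η hη hη1 hkN hx hN1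
  have hPq : (P.q : ℝ) ≤ Q := by
    rw [hQ]
    exact_mod_cast hP1
  have hPb : (∑ i, (P.b i : ℝ)) ≤ k + m := by exact_mod_cast hP4
  have hPb2 : (∑ i, (P.b i : ℝ)) ≤ 2 * k := by linarith
  have hlow : P.low ≤ ε * w * (k : ℝ) ^ 2 := by
    have h1 := Embed_low P (L := (L : ℝ)) hPq (fun τ => by exact_mod_cast hP2 τ)
      (Nat.cast_nonneg L) hPb2 (by positivity)
    have h2 : k3 ≤ k := by linarith
    rw [hk3, div_le_iff₀ (by positivity)] at h2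
    have h3 : (Q * (2 * L + 6) + 4 * m) * k ≤ (k * (ε * w)) * k :=
      mul_le_mul_of_nonneg_right h2 hk0.le
    have h4 : Q * (2 * L + 2 + 2 * (2 * k)) ≤ Q * (2 * L + 6) * k := by
      have h5 : (2 * (L : ℝ) + 2 + 2 * (2 * k)) ≤ (2 * L + 6) * k := by
        have h6 : (0 : ℝ) ≤ L := Nat.cast_nonneg L
        have h7 : (2 * (L : ℝ) + 2) ≤ (2 * L + 2) * k := le_mul_of_one_le_right (by linarith) hkr
        linarith
      calc Q * (2 * L + 2 + 2 * (2 * k)) ≤ Q * ((2 * L + 6) * k) :=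
            mul_le_mul_of_nonneg_left h5 hQ0
        _ = Q * (2 * L + 6) * k := by ring
    calc P.low ≤ Q * (2 * L + 2 + 2 * (2 * k)) + 2 * m * (2 * k) := h1
      _ ≤ Q * (2 * L + 6) * k + 2 * m * (2 * k) := by linarith
      _ = (Q * (2 * L + 6) + 4 * m) * k := by ring
      _ ≤ (k * (ε * w)) * k := h3
      _ = ε * w * (k : ℝ) ^ 2 := by ring
  have hwt : P.wt ≤ w * (k : ℝ) ^ 2 := by
    have h1 := Embed_wt P hPb2
    calc P.wt ≤ 2 * (m * N) + (2 * (k : ℝ)) ^ 2 := h1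
      _ ≤ 2 * (K * (k : ℝ) ^ 2) + (2 * (k : ℝ)) ^ 2 := by linarith
      _ = w * (k : ℝ) ^ 2 := by rw [hw]; ring
  have hwt0 := Embed_wt_nonneg P
  have hlow0 := Embed_low_nonneg P
  have hΞ : q4 P.wt ^ 3 * q4 (ε * P.wt + P.low) ≤ ξ * (k : ℝ) ^ 2 := by
    have h1 : q4 P.wt ≤ q4 (w * (k : ℝ) ^ 2) := q4_mono hwt
    have h2 : ε * P.wt + P.low ≤ 2 * ε * w * (k : ℝ) ^ 2 := by
      have h3 : ε * P.wt ≤ ε * (w * (k : ℝ) ^ 2) := mul_le_mul_of_nonneg_left hwt hε0.le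
      linarith
    have h3 := q4_mono h2
    calc q4 P.wt ^ 3 * q4 (ε * P.wt + P.low) ≤
        q4 (w * (k : ℝ) ^ 2) ^ 3 * q4 (2 * ε * w * (k : ℝ) ^ 2) :=
          mul_le_mul (pow_le_pow_left₀ (q4_nonneg _) h1 3) h3 (q4_nonneg _)
            (pow_nonneg (q4_nonneg _) 3)
      _ ≤ ξ * (k : ℝ) ^ 2 := Embed_q4 hw0 hξ0.le (by positivity) hε
  have hmain := embed_plan G hS hδ hδ1 hε0.le P (ξ * (k : ℝ) ^ 2) hΞ k hP3
  refine Embed_mono hmain ?_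
  have hsqrt : √(2 * (ξ * (k : ℝ) ^ 2)) = s * k := by
    have h1 : 2 * (ξ * (k : ℝ) ^ 2) = (s * k) ^ 2 := by rw [hξ]; ring
    rw [h1, Real.sqrt_sq (by positivity)]
  rw [hsqrt]
  have hloss : P.loss ≤ ε1 / 2 * (k : ℝ) ^ 2 := by
    have h1 : (m : ℝ) * N / (L + 1) ≤ ε1 / 4 * (k : ℝ) ^ 2 := by
      calc (m : ℝ) * N / (L + 1) ≤ (K * (k : ℝ) ^ 2) / (L + 1) :=
            div_le_div_of_nonneg_right hmN (by positivity)
        _ = K / (L + 1) * (k : ℝ) ^ 2 := by ring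
        _ ≤ ε1 / 4 * (k : ℝ) ^ 2 := mul_le_mul_of_nonneg_right hL1 (by positivity)
    have h2 : (P.q : ℝ) + m * k + (m : ℝ) ^ 2 ≤ ε1 / 4 * (k : ℝ) ^ 2 := by
      have h3 : k2 ≤ k := by linarith
      rw [hk2, div_le_iff₀ hε1] at h3
      have h4 : (4 * (Q + m + (m : ℝ) ^ 2)) * k ≤ (k * ε1) * k :=
        mul_le_mul_of_nonneg_right h3 hk0.le
      have h5 : Q ≤ Q * k := le_mul_of_one_le_right hQ0 hkr
      have h6 : (m : ℝ) ^ 2 ≤ (m : ℝ) ^ 2 * k := le_mul_of_one_le_right (sq_nonneg _) hkr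
      have h7 : (k * ε1) * k = 4 * (ε1 / 4 * (k : ℝ) ^ 2) := by ring
      have h8 : (4 * (Q + m + (m : ℝ) ^ 2)) * k =
          4 * (Q * k + m * k + (m : ℝ) ^ 2 * k) := by ring
      linarith
    linarith
  have hb3 : s * k * (∑ i, (P.b i : ℝ)) / δ ≤ 2 * s / δ * (k : ℝ) ^ 2 := by
    have h1 : s * k * (∑ i, (P.b i : ℝ)) ≤ s * k * (2 * k) :=
      mul_le_mul_of_nonneg_left hPb2 (by positivity)
    calc s * k * (∑ i, (P.b i : ℝ)) / δ ≤ s * k * (2 * k) / δ :=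
          div_le_div_of_nonneg_right h1 hδ.le
      _ = 2 * s / δ * (k : ℝ) ^ 2 := by ring
  have hfin : (ξ + ξ / δ + 2 * s / δ) * (k : ℝ) ^ 2 ≤ ε1 / 2 * (k : ℝ) ^ 2 :=
    mul_le_mul_of_nonneg_right hnum (by positivity)
  calc P.loss + ξ * (k : ℝ) ^ 2 + ξ * (k : ℝ) ^ 2 / δ + s * k * (∑ i, (P.b i : ℝ)) / δ
      ≤ ε1 / 2 * (k : ℝ) ^ 2 + ξ * (k : ℝ) ^ 2 + ξ * (k : ℝ) ^ 2 / δ +
        2 * s / δ * (k : ℝ) ^ 2 := by linarith
    _ = ε1 / 2 * (k : ℝ) ^ 2 + (ξ + ξ / δ + 2 * s / δ) * (k : ℝ) ^ 2 := by ring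
    _ ≤ ε1 * (k : ℝ) ^ 2 := by linarith

end

end Pool.Agent.H25.TD
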