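import Pool.Agent.H25.TD.Defs

/-!
From an arbitrary index type to `Fin k`.

PROOF. Choose an injection `e : Fin k → Z`; `f = u ∘ e`. For `x < y` let `(z,z')` be
`(e x, e y)` if `ord (e x) (e y)`, otherwise `(e y, e x)`; `R' x y = R z z'`, and `(x,y) ∈ Lft'`
iff `(z,z') ∈ Lft` (an injective image, so `Lft'` is not larger). `Conn` is symmetric (reverse
walk). Two different pairs `x < y`, `x' < y'` give different `(z,z')` since `e` is injective.
-/

namespace Pool.Agent.H25.TD

open Finset Pool.Agent.H25.TK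
open scoped Classical

noncomputable section

lemma Conn_symm {V : Type} {G : SimpleGraph V} {a b : V} {R : Set V} (h : Conn G a b R) :
    Conn G b a R := by
  obtain ⟨p, hp⟩ := h
  refine ⟨p.reverse, fun w hw => ?_⟩
  rw [SimpleGraph.Walk.support_reverse, List.mem_reverse] at hw
  rcases hp w hw with h | h | h
  · exact Or.inr (Or.inl h)
  · exact Or.inl h
  · exact Or.inr (Or.inr h)

private lemma Index_pair {Z : Type} {k : ℕ} (e : Fin k ↪ Z) (ord : Z → Z → Prop) {x y x' y' : Fin k}
    (h : (if ord (e x) (e y) then (e x, e y) else (e y, e x)) =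
      (if ord (e x') (e y') then (e x', e y') else (e y', e x')))
    (hxy : x < y) (hxy' : x' < y') : (x, y) = (x', y') := by
  split_ifs at h <;> simp only [Prod.mk.injEq, EmbeddingLike.apply_eq_iff_eq] at h <;>
    obtain ⟨h1, h2⟩ := h <;> subst h1 <;> subst h2 <;> first | rfl | (exfalso; omega)

theorem partTK_of_index {V : Type} (G : SimpleGraph V) (U : Set V) {Z : Type} [Fintype Z]
    (ord : Z → Z → Prop) (hord : ∀ z z', z ≠ z' → ord z z' ∨ ord z' z) (u : Z → V)
    (hu : Function.Injective u) (huU : ∀ z, u z ∈ U) (Lft : Finset (Z × Z)) (R : Z → Z → Set V)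
    (hRU : ∀ z z', R z z' ⊆ U)
    (hconn : ∀ z z', ord z z' → (z, z') ∉ Lft → Conn G (u z) (u z') (R z z'))
    (hav : ∀ z z' l, ord z z' → u l ∉ R z z')
    (hdis : ∀ z z' w w', ord z z' → ord w w' → (z, z') ≠ (w, w') → Disjoint (R z z') (R w w'))
    (k : ℕ) (hk : k ≤ Fintype.card Z) (L : ℝ) (hL : (Lft.card : ℝ) ≤ L) :
    PartTK G U k L := by
  obtain ⟨e⟩ : Nonempty (Fin k ↪ Z) := by
    apply Function.Embedding.nonempty_of_card_le
    simpa using hk
  set pr : Fin k → Fin k → Z × Z := fun x y =>
    if ord (e x) (e y) then (e x, e y) else (e y, e x) with hpr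
  have hne : ∀ x y : Fin k, x < y → e x ≠ e y := fun x y h he => by
    have := e.injective he
    subst this
    exact lt_irrefl _ h
  have hprord : ∀ x y : Fin k, x < y → ord (pr x y).1 (pr x y).2 := by
    intro x y hxy
    simp only [hpr]
    split_ifs with h
    · exact h
    · rcases hord (e x) (e y) (hne x y hxy) with h1 | h1
      · exact absurd h1 h
      · exact h1
  have hprinj : ∀ x y x' y' : Fin k, x < y → x' < y' → pr x y = pr x' y' → (x, y) = (x', y') :=
    fun x y x' y' h1 h2 h3 => Index_pair e ord h3 h1 h2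
  refine ⟨fun x => u (e x), univ.filter (fun q : Fin k × Fin k => q.1 < q.2 ∧ pr q.1 q.2 ∈ Lft),
    fun x y => R (pr x y).1 (pr x y).2, hu.comp e.injective, fun x => huU _, ?_, fun x y => hRU _ _,
    ?_, ?_, ?_⟩
  · refine le_trans ?_ hL
    have : (univ.filter (fun q : Fin k × Fin k => q.1 < q.2 ∧ pr q.1 q.2 ∈ Lft)).card ≤ Lft.card := by
      refine Finset.card_le_card_of_injOn (fun q => pr q.1 q.2) ?_ ?_
      · intro q hq
        exact (Finset.mem_filter.1 hq).2.2
      · intro q hq q' hq' h
        exact hprinj _ _ _ _ (Finset.mem_filter.1 hq).2.1 (Finset.mem_filter.1 hq').2.1 h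
    exact_mod_cast this
  · intro x y hxy hL'
    have h1 : pr x y ∉ Lft := fun h => hL' (Finset.mem_filter.2 ⟨Finset.mem_univ _, hxy, h⟩)
    have h2 := hconn (pr x y).1 (pr x y).2 (hprord x y hxy) h1
    by_cases h : ord (e x) (e y)
    · have h3 : pr x y = (e x, e y) := by simp only [hpr]; rw [if_pos h]
      rw [h3] at h2
      simp only at h2 ⊢
      rw [h3]
      exact h2
    · have h3 : pr x y = (e y, e x) := by simp only [hpr]; rw [if_neg h]
      rw [h3] at h2
      simp only at h2 ⊢
      rw [h3]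
      exact Conn_symm h2
  · intro x y hxy l
    exact hav _ _ _ (hprord x y hxy)
  · intro x y x' y' hxy hxy' hne'
    refine hdis _ _ _ _ (hprord x y hxy) (hprord x' y' hxy') fun h => hne' ?_
    exact hprinj _ _ _ _ hxy hxy' h

end

end Pool.Agent.H25.TD
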