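import Pool.Agent.H25.TD.PlanMatch
import Pool.Agent.H25.TD.Index

/-!
Realisation of a plan up to few missing pairs.

PROOF of `embed_plan`. `Z = Σ i, Fin (b i)`, `ord z z' = (z.1 < z'.1 ∨ z.1 = z'.1 ∧ z.2 < z'.2)`.
For `ord z z'`: if adjacent, `R = ∅`; else if matched to `(τ,x)` (`plan_match`):
`R = {a τ t x : t < len τ}` (walk `u z, a τ 0 x, ..., a τ (len-1) x, u z'`); else `(z,z') ∈ Lft`,
`R = ∅`. Disjointness: different pairs are matched to different strings, `a_inj`. Sum the bound of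
`plan_match` over `i <= j`: `loss + Ξ + Ξ/δ + Σ √(2 b_i b_j K_ij)/δ` and by Cauchy-Schwarz
`Σ √(b_i b_j * 2 K_ij) <= √(Σ b_i b_j) √(2 Σ K_ij) <= (Σ b) √(2 Ξ)`. Then `partTK_of_index`
(`card Z = Σ b`).
-/

namespace Pool.Agent.H25.TD

open Finset Pool.Agent.H25.TK
open scoped Classical

noncomputable section

private lemma ep_conn {V : Type} (G : SimpleGraph V) (c : ℕ → V) : ∀ ℓ : ℕ,
    (∀ t, t + 1 < ℓ → G.Adj (c t) (c (t + 1))) → ∀ x y : V, 0 < ℓ → G.Adj x (c 0) →
      G.Adj y (c (ℓ - 1)) → Conn G x y {v | ∃ t < ℓ, v = c t} := by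
  have key : ∀ ℓ : ℕ, (∀ t, t + 1 < ℓ + 1 → G.Adj (c t) (c (t + 1))) →
      ∃ p : G.Walk (c 0) (c ℓ), ∀ w ∈ p.support, ∃ t < ℓ + 1, w = c t := by
    intro ℓ
    induction ℓ with
    | zero =>
      intro _
      refine ⟨SimpleGraph.Walk.nil, fun w hw => ⟨0, by omega, ?_⟩⟩
      simpa using hw
    | succ ℓ ih =>
      intro h
      obtain ⟨p, hp⟩ := ih (fun t ht => h t (by omega))
      refine ⟨p.concat (h ℓ (by omega)), fun w hw => ?_⟩
      rw [SimpleGraph.Walk.support_concat, List.mem_append, List.mem_singleton] at hw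
      rcases hw with hw | hw
      · obtain ⟨t, ht, e⟩ := hp w hw
        exact ⟨t, by omega, e⟩
      · exact ⟨ℓ + 1, by omega, hw⟩
  intro ℓ h x y hℓ hx hy
  obtain ⟨ℓ, rfl⟩ : ∃ n, ℓ = n + 1 := ⟨ℓ - 1, by omega⟩
  rw [Nat.add_sub_cancel] at hy
  obtain ⟨p, hp⟩ := key ℓ h
  refine ⟨(SimpleGraph.Walk.cons hx p).concat hy.symm, fun w hw => ?_⟩
  rw [SimpleGraph.Walk.support_concat, List.mem_append, List.mem_singleton,
    SimpleGraph.Walk.support_cons, List.mem_cons] at hw
  rcases hw with (hw | hw) | hw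
  · exact Or.inl hw
  · exact Or.inr (Or.inr (hp w hw))
  · exact Or.inr (Or.inl hw)

private lemma ep_sum {m q : ℕ} (src dst : Fin q → Fin m) (F : Fin q → ℝ) (hF : ∀ τ, 0 ≤ F τ) :
    ∑ i, ∑ j, (if i ≤ j then ∑ τ, (if src τ = i ∧ dst τ = j then F τ else 0) else 0) ≤
      ∑ τ, F τ := by
  have h1 : ∀ i j : Fin m, (if i ≤ j then ∑ τ, (if src τ = i ∧ dst τ = j then F τ else 0) else 0) ≤
      ∑ τ, (if src τ = i ∧ dst τ = j then F τ else 0) := by
    intro i j
    split_ifs with h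
    · exact le_rfl
    · exact Finset.sum_nonneg (fun τ _ => by split_ifs; exacts [hF τ, le_rfl])
  refine (Finset.sum_le_sum (fun i _ => Finset.sum_le_sum (fun j _ => h1 i j))).trans
    (le_of_eq ?_)
  have h2 : ∀ i : Fin m, ∑ j, ∑ τ, (if src τ = i ∧ dst τ = j then F τ else 0) =
      ∑ τ, (if src τ = i then F τ else 0) := by
    intro i
    rw [Finset.sum_comm]
    refine Finset.sum_congr rfl (fun τ _ => ?_)
    simp only [ite_and]
    split_ifs
    · simp
    · simp
  rw [Finset.sum_congr rfl (fun i _ => h2 i), Finset.sum_comm]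
  refine Finset.sum_congr rfl (fun τ _ => ?_)
  simp

private lemma ep_diag {m : ℕ} (X : Fin m → Fin m → ℝ) (Y : Fin m → ℝ) :
    ∑ i, ∑ j, (if i ≤ j then (if i < j then X i j else Y i) else 0) =
      (∑ i, ∑ j, if i < j then X i j else 0) + ∑ i, Y i := by
  rw [← Finset.sum_add_distrib]
  refine Finset.sum_congr rfl (fun i _ => ?_)
  have h : ∀ j, (if i ≤ j then (if i < j then X i j else Y i) else 0) =
      (if i < j then X i j else 0) + (if i = j then Y i else 0) := by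
    intro j
    rcases lt_trichotomy i j with h | h | h
    · rw [if_pos h.le, if_pos h, if_pos h, if_neg h.ne, add_zero]
    · subst h; simp
    · rw [if_neg (not_le.2 h), if_neg (not_lt.2 h.le), if_neg h.ne', add_zero]
  rw [Finset.sum_congr rfl (fun j _ => h j), Finset.sum_add_distrib]
  simp

/-- the total bound -/
private lemma ep_bound {m q : ℕ} (src dst : Fin q → Fin m) (X W : Fin m → Fin m → ℝ)
    (Y b : Fin m → ℝ) (Bdc κ : Fin q → ℝ) (δ Ξ : ℝ) (hδ : 0 < δ) (hb : ∀ i, 0 ≤ b i)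
    (hB : ∀ τ, 0 ≤ Bdc τ) (hκ : ∀ τ, 0 ≤ κ τ) (hW : ∀ i j, 0 ≤ W i j)
    (hΞ : (∑ τ, (δ * Bdc τ + κ τ)) + ∑ i, ∑ j, W i j ≤ Ξ) :
    ∑ i, ∑ j, (if i ≤ j then ((if i < j then X i j else Y i) + W i j +
      (∑ τ, if src τ = i ∧ dst τ = j then Bdc τ else 0) +
      √(b i * b j * (2 * ∑ τ, if src τ = i ∧ dst τ = j then κ τ else 0)) / δ) else 0) ≤
    ((∑ i, ∑ j, if i < j then X i j else 0) + ∑ i, Y i) + Ξ + Ξ / δ +
      √(2 * Ξ) * (∑ i, b i) / δ := by
  have hsplit : ∀ i j : Fin m, (if i ≤ j then ((if i < j then X i j else Y i) + W i j +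
      (∑ τ, if src τ = i ∧ dst τ = j then Bdc τ else 0) +
      √(b i * b j * (2 * ∑ τ, if src τ = i ∧ dst τ = j then κ τ else 0)) / δ) else 0) =
      (if i ≤ j then (if i < j then X i j else Y i) else 0) + (if i ≤ j then W i j else 0) +
      (if i ≤ j then (∑ τ, if src τ = i ∧ dst τ = j then Bdc τ else 0) else 0) +
      √(b i * b j) * √(if i ≤ j then 2 * ∑ τ, (if src τ = i ∧ dst τ = j then κ τ else 0)
        else 0) / δ := by
    intro i j
    split_ifs with h1 h2
    · rw [Real.sqrt_mul (mul_nonneg (hb i) (hb j))]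
    · rw [Real.sqrt_mul (mul_nonneg (hb i) (hb j))]
    · simp
  simp only [hsplit, Finset.sum_add_distrib]
  have hS1 : 0 ≤ ∑ τ, δ * Bdc τ := Finset.sum_nonneg (fun τ _ => mul_nonneg hδ.le (hB τ))
  have hS2 : 0 ≤ ∑ τ, κ τ := Finset.sum_nonneg (fun τ _ => hκ τ)
  have hS3 : 0 ≤ ∑ i, ∑ j, W i j :=
    Finset.sum_nonneg (fun i _ => Finset.sum_nonneg (fun j _ => hW i j))
  rw [Finset.sum_add_distrib] at hΞ
  -- first term
  have t1 := ep_diag X Y
  -- second term
  have t2 : ∑ i, ∑ j, (if i ≤ j then W i j else 0) ≤ Ξ := by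
    refine (Finset.sum_le_sum (fun i _ => Finset.sum_le_sum (fun j _ => ?_))).trans
      (by linarith : ∑ i, ∑ j, W i j ≤ Ξ)
    split_ifs
    · exact le_rfl
    · exact hW i j
  -- third term
  have t3 : ∑ i, ∑ j, (if i ≤ j then (∑ τ, if src τ = i ∧ dst τ = j then Bdc τ else 0) else 0) ≤
      Ξ / δ := by
    refine (ep_sum src dst Bdc hB).trans ?_
    rw [le_div_iff₀ hδ, Finset.sum_mul]
    have : ∑ τ, Bdc τ * δ = ∑ τ, δ * Bdc τ := Finset.sum_congr rfl (fun τ _ => mul_comm _ _)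
    rw [this]
    linarith
  -- fourth term
  have t4 : ∑ i, ∑ j, √(b i * b j) * √(if i ≤ j then
      2 * ∑ τ, (if src τ = i ∧ dst τ = j then κ τ else 0) else 0) / δ ≤
      √(2 * Ξ) * (∑ i, b i) / δ := by
    have e1 : ∑ i, ∑ j, √(b i * b j) * √(if i ≤ j then
        2 * ∑ τ, (if src τ = i ∧ dst τ = j then κ τ else 0) else 0) / δ =
        (∑ z : Fin m × Fin m, √(b z.1 * b z.2) * √(if z.1 ≤ z.2 then
        2 * ∑ τ, (if src τ = z.1 ∧ dst τ = z.2 then κ τ else 0) else 0)) / δ := by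
      rw [Fintype.sum_prod_type, Finset.sum_div]
      refine Finset.sum_congr rfl (fun i _ => ?_)
      rw [Finset.sum_div]
    rw [e1]
    refine div_le_div_of_nonneg_right ?_ hδ.le
    refine (Real.sum_sqrt_mul_sqrt_le (f := fun z : Fin m × Fin m => b z.1 * b z.2)
      (g := fun z : Fin m × Fin m => if z.1 ≤ z.2 then
        2 * ∑ τ, (if src τ = z.1 ∧ dst τ = z.2 then κ τ else 0) else 0) _
      (fun z => mul_nonneg (hb z.1) (hb z.2)) (fun z => ?_)).trans ?_
    · split_ifs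
      · refine mul_nonneg (by norm_num) (Finset.sum_nonneg (fun τ _ => ?_))
        split_ifs
        exacts [hκ τ, le_rfl]
      · exact le_rfl
    · have e2 : ∑ z : Fin m × Fin m, b z.1 * b z.2 = (∑ i, b i) ^ 2 := by
        rw [Fintype.sum_prod_type, sq, Finset.sum_mul_sum]
      have e3 : ∑ z : Fin m × Fin m, (if z.1 ≤ z.2 then
          2 * ∑ τ, (if src τ = z.1 ∧ dst τ = z.2 then κ τ else 0) else 0) ≤ 2 * Ξ := by
        rw [Fintype.sum_prod_type]
        have e4 := ep_sum src dst κ hκ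
        have e5 : ∑ i, ∑ j, (if i ≤ j then
          2 * ∑ τ, (if src τ = i ∧ dst τ = j then κ τ else 0) else 0) =
          2 * ∑ i, ∑ j, (if i ≤ j then
            ∑ τ, (if src τ = i ∧ dst τ = j then κ τ else 0) else 0) := by
          rw [Finset.mul_sum]
          refine Finset.sum_congr rfl (fun i _ => ?_)
          rw [Finset.mul_sum]
          refine Finset.sum_congr rfl (fun j _ => ?_)
          split_ifs
          · rfl
          · simp
        rw [e5]
        linarith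
      rw [e2, Real.sqrt_sq (Finset.sum_nonneg (fun i _ => hb i)), mul_comm]
      exact mul_le_mul_of_nonneg_right (Real.sqrt_le_sqrt e3)
        (Finset.sum_nonneg (fun i _ => hb i))
  rw [t1]
  linarith

theorem embed_plan {V : Type} (G : SimpleGraph V) {m N : ℕ} {cl : Fin m → Fin N → V}
    {p : Fin m → Fin m → ℝ} {δ ε : ℝ} (hS : Sys G m N cl p δ ε) (hδ : 0 < δ) (hδ1 : δ ≤ 1)
    (hε : 0 ≤ ε) (P : Plan m N p) (Ξ : ℝ) (hΞ : q4 P.wt ^ 3 * q4 (ε * P.wt + P.low) ≤ Ξ)
    (k : ℕ) (hk : k ≤ ∑ i, P.b i) :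
    PartTK G {v | ∃ i n, v = cl i n} k
      (P.loss + Ξ + Ξ / δ + √(2 * Ξ) * (∑ i, (P.b i : ℝ)) / δ) := by
  obtain ⟨a, u, Bd, hW⟩ := wire G hS hδ hε P Ξ hΞ
  have hmatch := fun (i j : Fin m) (hij : i ≤ j) =>
    plan_match G hS hδ hδ1 P Ξ a u Bd hW i j hij
  choose M hM1 hM2 hM3 using hmatch
  set Z := Σ i, Fin (P.b i) with hZ
  set ord : Z → Z → Prop := fun z z' => z.1 < z'.1 ∨ (z.1 = z'.1 ∧ (z.2 : ℕ) < z'.2) with hord
  set S : Z → Z → Option (Σ τ, Fin (P.sz τ)) := fun z z' =>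
    if h : z.1 ≤ z'.1 then M z.1 z'.1 h (z.2, z'.2) else none with hSdef
  have hSpos : ∀ (i j : Fin m) (r : Fin (P.b i)) (r' : Fin (P.b j)) (h : i ≤ j),
      S ⟨i, r⟩ ⟨j, r'⟩ = M i j h (r, r') := by
    intro i j r r' h
    simp only [hSdef]
    rw [dif_pos h]
  have hSle : ∀ (z z' : Z) x, S z z' = some x → z.1 ≤ z'.1 := by
    intro z z' x h
    by_contra h'
    simp only [hSdef] at h
    rw [dif_neg h'] at h
    exact absurd h (by simp)
  have hordle : ∀ z z' : Z, ord z z' → z.1 ≤ z'.1 := by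
    rintro z z' (h | h)
    · exact h.le
    · exact h.1.le
  set R : Z → Z → Set V := fun z z' => {v | ord z z' ∧ ∃ x, S z z' = some x ∧
    ∃ t < P.len x.1, v = a x.1 t x.2} with hR
  set Lft : Finset (Z × Z) := univ.filter (fun y => ord y.1 y.2 ∧
    ¬ G.Adj (u y.1.1 y.1.2) (u y.2.1 y.2.2) ∧ S y.1 y.2 = none) with hLft
  refine partTK_of_index G _ ord ?_ (fun z => u z.1 z.2) hW.u_inj ?_ Lft R ?_ ?_ ?_ ?_ k ?_ _ ?_
  · -- ord is total
    rintro ⟨i, r⟩ ⟨j, r'⟩ hne
    simp only [hord]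
    rcases lt_trichotomy i j with h | h | h
    · exact Or.inl (Or.inl h)
    · subst h
      have : r ≠ r' := fun h => hne (by rw [h])
      have h' : (r : ℕ) ≠ r' := fun h => this (Fin.ext h)
      rcases lt_or_gt_of_ne h' with h'' | h''
      · exact Or.inl (Or.inr ⟨rfl, h''⟩)
      · exact Or.inr (Or.inr ⟨rfl, h''⟩)
    · exact Or.inr (Or.inl h)
  · -- branch vertices in the clusters
    intro z
    exact hW.u_cl z.1 z.2
  · -- inner vertices in the clusters
    rintro z z' v ⟨-, x, -, t, ht, rfl⟩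
    exact hW.a_cl x.1 t x.2 ht
  · -- connections
    rintro ⟨i, r⟩ ⟨j, r'⟩ ho hL
    have hij : i ≤ j := hordle _ _ ho
    by_cases hadj : G.Adj (u i r) (u j r')
    · refine ⟨SimpleGraph.Walk.cons hadj SimpleGraph.Walk.nil, fun w hw => ?_⟩
      simp only [SimpleGraph.Walk.support_cons, SimpleGraph.Walk.support_nil, List.mem_cons,
        List.not_mem_nil, or_false] at hw
      rcases hw with hw | hw
      · exact Or.inl hw
      · exact Or.inr (Or.inl hw)
    · have hsome : ∃ x, S ⟨i, r⟩ ⟨j, r'⟩ = some x := by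
        by_contra hno
        apply hL
        rw [hLft, Finset.mem_filter]
        refine ⟨Finset.mem_univ _, ho, hadj, ?_⟩
        rcases hx : S ⟨i, r⟩ ⟨j, r'⟩ with _ | x
        · rfl
        · exact absurd ⟨x, hx⟩ hno
      obtain ⟨x, hx⟩ := hsome
      have hx' := hx
      rw [hSpos i j r r' hij] at hx
      obtain ⟨h1, h2, h3, h4, h5⟩ := hM1 i j hij (r, r') x hx
      have hlen : 0 < P.len x.1 := by
        have := (P.route x.1).1
        exact List.length_pos_of_ne_nil this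
      obtain ⟨p', hp'⟩ := ep_conn G (fun t => a x.1 t x.2) (P.len x.1)
        (fun t ht => hW.adj x.1 x.2 h3 t ht) (u i r) (u j r') hlen h4 h5
      refine ⟨p', fun w hw => ?_⟩
      rcases hp' w hw with h | h | h
      · exact Or.inl h
      · exact Or.inr (Or.inl h)
      · exact Or.inr (Or.inr ⟨ho, x, hx', h⟩)
  · -- branch vertices are avoided
    rintro z z' l ho ⟨-, x, -, t, ht, h⟩
    exact hW.a_u x.1 t x.2 l.1 l.2 ht h.symm
  · -- disjointness
    rintro ⟨i, r⟩ ⟨j, r'⟩ ⟨i', s⟩ ⟨j', s'⟩ ho ho' hne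
    rw [Set.disjoint_left]
    rintro v ⟨-, x, hx, t, ht, rfl⟩ ⟨-, y, hy, t', ht', hxy⟩
    obtain ⟨-, h2⟩ := hW.a_inj x.1 t x.2 y.1 t' y.2 ht ht' hxy
    have h2' : x = y := h2
    subst h2'
    have hij : i ≤ j := hordle _ _ ho
    have hij' : i' ≤ j' := hordle _ _ ho'
    rw [hSpos i j r r' hij] at hx
    rw [hSpos i' j' s s' hij'] at hy
    obtain ⟨h3, h4, -⟩ := hM1 i j hij (r, r') x hx
    obtain ⟨h3', h4', -⟩ := hM1 i' j' hij' (s, s') x hy
    have e1 : i = i' := h3.symm.trans h3'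
    have e2 : j = j' := h4.symm.trans h4'
    subst e1
    subst e2
    have := hM2 i j hij (r, r') (s, s') x hx hy
    rw [Prod.mk.injEq] at this
    apply hne
    rw [this.1, this.2]
  · -- number of branch vertices
    have hcz : Fintype.card (Σ i, Fin (P.b i)) = ∑ i, P.b i := by
      rw [Fintype.card_sigma]
      simp
    exact hk.trans hcz.ge
  · -- number of missing pairs
    have hcard : (Lft.card : ℝ) = ∑ i, ∑ j, (if h : i ≤ j then
        ((univ.filter (fun z : Fin (P.b i) × Fin (P.b j) => (i = j → (z.1 : ℕ) < z.2) ∧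
          ¬ G.Adj (u i z.1) (u j z.2) ∧ M i j h z = none)).card : ℝ) else 0) := by
      have e1 : (Lft.card : ℝ) = ∑ y : Z × Z, (if ord y.1 y.2 ∧
          ¬ G.Adj (u y.1.1 y.1.2) (u y.2.1 y.2.2) ∧ S y.1 y.2 = none then (1 : ℝ) else 0) := by
        rw [hLft, Finset.card_filter]
        push_cast
        rfl
      rw [e1, Fintype.sum_prod_type, Fintype.sum_sigma]
      refine Finset.sum_congr rfl (fun i _ => ?_)
      have e2 : ∀ r : Fin (P.b i), ∑ z' : Z, (if ord ⟨i, r⟩ z' ∧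
          ¬ G.Adj (u i r) (u z'.1 z'.2) ∧ S ⟨i, r⟩ z' = none then (1 : ℝ) else 0) =
          ∑ j, ∑ r' : Fin (P.b j), (if ord ⟨i, r⟩ ⟨j, r'⟩ ∧
          ¬ G.Adj (u i r) (u j r') ∧ S ⟨i, r⟩ ⟨j, r'⟩ = none then (1 : ℝ) else 0) := by
        intro r
        rw [Fintype.sum_sigma]
      rw [Finset.sum_congr rfl (fun r _ => e2 r), Finset.sum_comm]
      refine Finset.sum_congr rfl (fun j _ => ?_)
      split_ifs with h
      · rw [Finset.card_filter]
        push_cast
        rw [Fintype.sum_prod_type]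
        refine Finset.sum_congr rfl (fun r _ => Finset.sum_congr rfl (fun r' _ => ?_))
        rw [hSpos i j r r' h]
        have e3 : ord ⟨i, r⟩ ⟨j, r'⟩ ↔ (i = j → (r : ℕ) < r') := by
          simp only [hord]
          rcases h.lt_or_eq with h' | h'
          · exact ⟨fun _ e => absurd e h'.ne, fun _ => Or.inl h'⟩
          · constructor
            · rintro (h'' | h'') _
              · exact absurd h' h''.ne
              · exact h''.2
            · intro h''
              exact Or.inr ⟨h', h'' h'⟩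
        simp only [e3]
      · refine Finset.sum_eq_zero (fun r _ => Finset.sum_eq_zero (fun r' _ => ?_))
        rw [if_neg]
        rintro ⟨ho, -⟩
        exact h (hordle _ _ ho)
    rw [hcard]
    have hq4 : ∀ x : ℝ, 0 ≤ q4 x := fun x => by unfold q4; positivity
    have hmain := ep_bound P.src P.dst
      (fun i j => max 0 ((1 - p i j) * ((P.b i : ℝ) * P.b j) - P.avail i j))
      (fun i j => if i < j ∧ 0 < p i j then
        (P.b i : ℝ) * P.b j * q4 (rel G (p i j) (u i) (u j)) else 0)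
      (fun i => max 0 ((P.b i : ℝ) ^ 2 / 2 - P.avail i i)) (fun i => (P.b i : ℝ))
      (fun τ => ((Bd τ).card : ℝ)) (fun τ => (P.sz τ : ℝ) *
          (q4 (rel G (p (P.src τ) (P.pos τ 0)) (u (P.src τ)) (a τ 0)) +
          q4 (rel G (p (P.dst τ) (P.pos τ (P.len τ - 1))) (u (P.dst τ))
            (a τ (P.len τ - 1))))) δ Ξ hδ (fun i => Nat.cast_nonneg _)
      (fun τ => Nat.cast_nonneg _)
      (fun τ => mul_nonneg (Nat.cast_nonneg _) (add_nonneg (hq4 _) (hq4 _)))
      (fun i j => by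
        split_ifs
        · exact mul_nonneg (by positivity) (hq4 _)
        · exact le_rfl) hW.bound
    refine le_trans (Finset.sum_le_sum (fun i _ => Finset.sum_le_sum (fun j _ => ?_)))
      hmain
    by_cases h : i ≤ j
    · rw [dif_pos h, if_pos h]
      exact hM3 i j h
    · rw [dif_neg h, if_neg h]

end

end Pool.Agent.H25.TD
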