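import Mathlib

/-!
Maximal matchings.

PROOF of `max_matching`. Among the partial maps `M : P → Option S` with the first two properties
(there is one: `none` everywhere) take one with the largest number of matched points; if `p`, `s`
were unmatched and `R p s`, then `Function.update M p (some s)` would be larger.

PROOF of `perm_matching`. Apply `max_matching` to `R` on `Fin s × Fin s`. The sets of unmatched
points on both sides have the same size; extend the matching by a bijection between them.
-/

namespace Pool.Agent.H25.TD

open Finset
open scoped Classical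

theorem max_matching {P S : Type} [Fintype P] [Fintype S] (R : P → S → Prop) :
    ∃ M : P → Option S, (∀ x s, M x = some s → R x s) ∧
      (∀ x x' s, M x = some s → M x' = some s → x = x') ∧
      ∀ x s, M x = none → (∀ x', M x' ≠ some s) → ¬ R x s := by
  let good : (P → Option S) → Prop := fun M => (∀ x s, M x = some s → R x s) ∧
    (∀ x x' s, M x = some s → M x' = some s → x = x')
  have hne : (univ.filter good).Nonempty := ⟨fun _ => none, by simp [good]⟩
  obtain ⟨M, hM, hmax⟩ := Finset.exists_max_image (univ.filter good)
    (fun M => (univ.filter (fun x => M x ≠ none)).card) hne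
  rw [mem_filter] at hM
  refine ⟨M, hM.2.1, hM.2.2, ?_⟩
  intro x s hx hs hR
  have hgood : good (Function.update M x (some s)) := by
    constructor
    · intro x' s' h
      by_cases hxx : x' = x
      · subst hxx
        rw [Function.update_self] at h
        obtain rfl := Option.some.inj h
        exact hR
      · rw [Function.update_of_ne hxx] at h
        exact hM.2.1 x' s' h
    · intro x1 x2 s' h1 h2
      by_cases e1 : x1 = x
      · by_cases e2 : x2 = x
        · rw [e1, e2]
        · rw [e1, Function.update_self] at h1
          rw [Function.update_of_ne e2] at h2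
          obtain rfl := Option.some.inj h1
          exact absurd h2 (hs x2)
      · rw [Function.update_of_ne e1] at h1
        by_cases e2 : x2 = x
        · rw [e2, Function.update_self] at h2
          obtain rfl := Option.some.inj h2
          exact absurd h1 (hs x1)
        · rw [Function.update_of_ne e2] at h2
          exact hM.2.2 x1 x2 s' h1 h2
  have h1 := hmax (Function.update M x (some s)) (mem_filter.mpr ⟨mem_univ _, hgood⟩)
  have hlt : (univ.filter (fun x' => M x' ≠ none)).card <
      (univ.filter (fun x' => Function.update M x (some s) x' ≠ none)).card := by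
    apply Finset.card_lt_card
    refine ⟨?_, ?_⟩
    · intro x' hx'
      rw [mem_filter] at hx' ⊢
      refine ⟨mem_univ _, ?_⟩
      by_cases e : x' = x
      · rw [e, Function.update_self]
        simp
      · rw [Function.update_of_ne e]
        exact hx'.2
    · intro hsub
      have : x ∈ univ.filter (fun x' => M x' ≠ none) :=
        hsub (mem_filter.mpr ⟨mem_univ _, by rw [Function.update_self]; simp⟩)
      exact (mem_filter.mp this).2 hx
  exact absurd h1 (not_le.mpr hlt)

theorem perm_matching {n : ℕ} (R : Fin n → Fin n → Prop) :
    ∃ (σ : Equiv.Perm (Fin n)) (X Y : Finset (Fin n)), X.card = Y.card ∧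
      (∀ x ∉ X, R x (σ x)) ∧ ∀ x ∈ X, ∀ y ∈ Y, ¬ R x y := by
  obtain ⟨M, h1, h2, h3⟩ := max_matching R
  let f : {x : Fin n // M x ≠ none} → {s : Fin n // ∃ x', M x' = some s} := fun x =>
    ⟨(Option.ne_none_iff_exists'.mp x.2).choose, x.1,
      (Option.ne_none_iff_exists'.mp x.2).choose_spec⟩
  have hf : ∀ x, M x.1 = some (f x).1 := fun x =>
    (Option.ne_none_iff_exists'.mp x.2).choose_spec
  have hbij : Function.Bijective f := by
    constructor
    · intro x y hxy
      apply Subtype.ext
      apply h2 x.1 y.1 (f x).1 (hf x)
      rw [hxy]
      exact hf y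
    · rintro ⟨s, x', hx'⟩
      refine ⟨⟨x', by rw [hx']; simp⟩, ?_⟩
      apply Subtype.ext
      have := hf ⟨x', by rw [hx']; simp⟩
      exact Option.some.inj (this.symm.trans hx')
  let e : {x : Fin n // M x ≠ none} ≃ {s : Fin n // ∃ x', M x' = some s} :=
    Equiv.ofBijective f hbij
  refine ⟨e.extendSubtype, univ.filter (fun x => ¬ M x ≠ none),
    univ.filter (fun s => ¬ ∃ x', M x' = some s), ?_, ?_, ?_⟩
  · have hc : (univ.filter (fun x => M x ≠ none)).card =
        (univ.filter (fun s => ∃ x', M x' = some s)).card := by
      rw [← Fintype.card_subtype, ← Fintype.card_subtype]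
      exact Fintype.card_congr e
    have e1 := Finset.card_filter_add_card_filter_not (s := (univ : Finset (Fin n)))
      (fun x => M x ≠ none)
    have e2 := Finset.card_filter_add_card_filter_not (s := (univ : Finset (Fin n)))
      (fun s => ∃ x', M x' = some s)
    omega
  · intro x hx
    have hx' : M x ≠ none := by
      by_contra hcon
      exact hx (mem_filter.mpr ⟨mem_univ _, by simpa using hcon⟩)
    rw [Equiv.extendSubtype_apply_of_mem e x hx']
    exact h1 x _ (hf ⟨x, hx'⟩)
  · intro x hx y hy
    rw [mem_filter] at hx hy
    refine h3 x y (by simpa using hx.2) ?_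
    intro x' hx'
    exact hy.2 ⟨x', hx'⟩

end Pool.Agent.H25.TD
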