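import Pool.Agent.H25.TD.C4
import Pool.Agent.H25.TD.MaxMatch

/-!
Pairs of branch vertices against strings.

PROOF of `ends_core`. Let `κ θ = q4 (rel B (A θ))`, `κ' θ = q4 (rel B' (A' θ))`, `s θ = sz θ`. If `P`
or `S` is empty the claim is trivial (right side nonnegative). Put `γ = |P|/(b b')`,
`P(r) = {r' : (r,r') ∈ P}`, `U = {r : γ/2 b' <= |P(r)|}`; `|P| <= |U| b' + b γ/2 b'`, so
`|U| >= γ b/2 > 0`. Let `S θ = {x : (θ,x) ∈ S}`.
Count `Q = #{(r,(θ,x)) : r ∈ U, x ∈ S θ, B r ~ A θ x}`. Lower bound, by `cut_le_rel` for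
`U × S θ`: `Q >= Σ_θ (δ |U| |S θ| - b s_θ κ_θ) = δ |U| |S| - b Σ s κ`.
Upper bound: for `r ∈ U` let `A0 θ = {x ∈ S θ : B r ~ A θ x}`; by `hno` there is no edge between
`B' (P(r))` and `A' θ (A0 θ)`, so by `cut_le_rel` `δ |P(r)| |A0 θ| <= b' s_θ κ'_θ`, so
`|A0 θ| <= 2/(δ γ) s_θ κ'_θ`; `Q <= |U| 2/(δ γ) Σ s κ'`.
Together, with `b <= 2|U|/γ`: `δ |S| <= (2/γ) Σ s κ + 2/(δγ) Σ s κ'`; multiply by `δ γ` and use
`δ <= 1`: `δ² γ |S| <= 2 Σ s (κ + κ')`.

PROOF of `pair_match`. `max_matching` between the pairs in `Π` and the strings in `Sg`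
(subtypes), compatibility as relation. Let `P`, `S` be the unmatched ones. The matched ones are
equally many, so `|P| - |S| = |Π| - |Sg|`. If `|P| <= D := |Π| - |Sg|` (positive part `e`), done.
Otherwise `|P| <= |S| + e`, and either `|P| <= e`, or with `a = |P| - e > 0`: `a <= |P|`,
`a <= |S|`, so `δ² a² <= δ² |P||S| <= 2 b b' K`, so `a <= √(2 b b' K)/δ`.

PROOF of `nonadj_count`. `#adjacent = d b b' + Σ Σ dev >= d b b' - b b' q4 rel`.
-/

namespace Pool.Agent.H25.TD

open Finset Pool.Agent.H25.TK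
open scoped Classical

noncomputable section

private lemma Ends_sum_dev {V : Type} (G : SimpleGraph V) {S T : Type} [Fintype S] [Fintype T]
    (d : ℝ) (A : S → V) (B : T → V) (X : Finset S) (Y : Finset T) :
    ∑ a ∈ X, ∑ b ∈ Y, dev G d A B a b =
      ∑ a ∈ X, ((Y.filter (fun b => G.Adj (A a) (B b))).card : ℝ) - d * (X.card * Y.card) := by
  have h : ∀ a ∈ X, ∑ b ∈ Y, dev G d A B a b =
      ((Y.filter (fun b => G.Adj (A a) (B b))).card : ℝ) - d * Y.card := by
    intro a _
    unfold dev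
    rw [sum_sub_distrib, sum_const, nsmul_eq_mul, sum_boole]
    ring
  rw [sum_congr rfl h, sum_sub_distrib, sum_const, nsmul_eq_mul]
  ring

theorem ends_core {V : Type} (G : SimpleGraph V) {b b' : ℕ} (B : Fin b → V) (B' : Fin b' → V)
    {Θ : Type} [Fintype Θ] (sz : Θ → ℕ) (A A' : (θ : Θ) → Fin (sz θ) → V) (d d' : Θ → ℝ) (δ : ℝ)
    (hδ : 0 < δ) (hδ1 : δ ≤ 1) (hd : ∀ θ, δ ≤ d θ) (hd' : ∀ θ, δ ≤ d' θ)
    (P : Finset (Fin b × Fin b')) (S : Finset (Σ θ, Fin (sz θ)))
    (hno : ∀ z ∈ P, ∀ x ∈ S, ¬ (G.Adj (B z.1) (A x.1 x.2) ∧ G.Adj (B' z.2) (A' x.1 x.2))) :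
    δ ^ 2 * (P.card * S.card) ≤ 2 * (b * b') *
      ∑ θ, (sz θ : ℝ) * (q4 (rel G (d θ) B (A θ)) + q4 (rel G (d' θ) B' (A' θ))) := by
  set κ : Θ → ℝ := fun θ => q4 (rel G (d θ) B (A θ)) with hκ
  set κ' : Θ → ℝ := fun θ => q4 (rel G (d' θ) B' (A' θ)) with hκ'
  have hκ0 : ∀ θ, 0 ≤ κ θ := fun θ => q4_nonneg _
  have hκ'0 : ∀ θ, 0 ≤ κ' θ := fun θ => q4_nonneg _
  set K : ℝ := ∑ θ, (sz θ : ℝ) * κ θ with hK
  set K' : ℝ := ∑ θ, (sz θ : ℝ) * κ' θ with hK'
  have hK0 : 0 ≤ K := sum_nonneg (fun θ _ => mul_nonneg (by positivity) (hκ0 θ))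
  have hK'0 : 0 ≤ K' := sum_nonneg (fun θ _ => mul_nonneg (by positivity) (hκ'0 θ))
  have hKK : ∑ θ, (sz θ : ℝ) * (κ θ + κ' θ) = K + K' := by
    rw [hK, hK', ← sum_add_distrib]
    exact sum_congr rfl (fun θ _ => by ring)
  rw [hKK]
  -- slices
  set PR : Fin b → Finset (Fin b') := fun r => univ.filter (fun r' => (r, r') ∈ P) with hPR
  set ST : (θ : Θ) → Finset (Fin (sz θ)) := fun θ => univ.filter (fun x => (⟨θ, x⟩ : Σ θ, Fin (sz θ)) ∈ S)
    with hST
  have hPcard : (P.card : ℝ) = ∑ r, ((PR r).card : ℝ) := by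
    have h1 : P.card = ∑ r, (PR r).card := by
      calc P.card = (univ.filter (fun z => z ∈ P)).card := by rw [filter_univ_mem]
        _ = ∑ z, if z ∈ P then 1 else 0 := card_filter _ _
        _ = ∑ r, ∑ r', if (r, r') ∈ P then 1 else 0 := Fintype.sum_prod_type _
        _ = ∑ r, (PR r).card := sum_congr rfl (fun r _ => (card_filter _ _).symm)
    rw [h1]; push_cast; rfl
  have hScard : (S.card : ℝ) = ∑ θ, ((ST θ).card : ℝ) := by
    have h1 : S.card = ∑ θ, (ST θ).card := by
      calc S.card = (univ.filter (fun z => z ∈ S)).card := by rw [filter_univ_mem]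
        _ = ∑ z, if z ∈ S then 1 else 0 := card_filter _ _
        _ = ∑ θ, ∑ x : Fin (sz θ), if (⟨θ, x⟩ : Σ θ, Fin (sz θ)) ∈ S then 1 else 0 :=
            Fintype.sum_sigma _
        _ = ∑ θ, (ST θ).card := sum_congr rfl (fun θ _ => (card_filter _ _).symm)
    rw [h1]; push_cast; rfl
  set U : Finset (Fin b) := univ.filter (fun r => (P.card : ℝ) ≤ 2 * b * (PR r).card) with hU
  -- |P| ≤ 2 b' |U|
  have hPU : (P.card : ℝ) ≤ 2 * b' * U.card := by
    have h1 : ∀ r, ((PR r).card : ℝ) ≤ (if r ∈ U then (b' : ℝ) else 0) + P.card / (2 * b) := by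
      intro r
      have hb : 0 < (b : ℝ) := by exact_mod_cast (Fin.pos r)
      by_cases hr : r ∈ U
      · rw [if_pos hr]
        have h2 : ((PR r).card : ℝ) ≤ b' := by
          have := card_le_univ (PR r)
          rw [Fintype.card_fin] at this
          exact_mod_cast this
        have h3 : 0 ≤ (P.card : ℝ) / (2 * b) := by positivity
        linarith
      · rw [if_neg hr, zero_add, le_div_iff₀ (by positivity)]
        have h2 : ¬ (P.card : ℝ) ≤ 2 * b * (PR r).card := by
          intro h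
          exact hr (mem_filter.2 ⟨mem_univ _, h⟩)
        push Not at h2
        linarith
    have h2 : (P.card : ℝ) ≤ b' * U.card + P.card / 2 := by
      calc (P.card : ℝ) = ∑ r, ((PR r).card : ℝ) := hPcard
        _ ≤ ∑ r, ((if r ∈ U then (b' : ℝ) else 0) + P.card / (2 * b)) :=
            sum_le_sum (fun r _ => h1 r)
        _ = b' * U.card + b * (P.card / (2 * b)) := by
            rw [sum_add_distrib, sum_ite_mem, univ_inter, sum_const, sum_const, nsmul_eq_mul,
              nsmul_eq_mul, card_univ, Fintype.card_fin]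
            ring
        _ ≤ b' * U.card + P.card / 2 := by
            apply add_le_add_right
            rcases Nat.eq_zero_or_pos b with hb | hb
            · subst hb
              simp
              positivity
            · have hb' : (b : ℝ) ≠ 0 := by positivity
              apply le_of_eq
              field_simp
    linarith
  -- lower bound
  have hlow : ∀ θ, δ * (U.card * (ST θ).card) - b * (sz θ * κ θ) ≤
      ∑ r ∈ U, (((ST θ).filter (fun x => G.Adj (B r) (A θ x))).card : ℝ) := by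
    intro θ
    have h1 := cut_le_rel G (d θ) B (A θ) U (ST θ)
    rw [Ends_sum_dev, Fintype.card_fin, Fintype.card_fin] at h1
    have h2 := (abs_le.1 h1).1
    have h3 : δ * ((U.card : ℝ) * (ST θ).card) ≤ d θ * (U.card * (ST θ).card) :=
      mul_le_mul_of_nonneg_right (hd θ) (by positivity)
    have h4 : (b : ℝ) * (sz θ * κ θ) = b * sz θ * q4 (rel G (d θ) B (A θ)) := by
      rw [hκ]; ring
    rw [h4]
    linarith
  -- upper bound
  have hup : ∀ θ, ∀ r ∈ U,
      δ * P.card * (((ST θ).filter (fun x => G.Adj (B r) (A θ x))).card : ℝ) ≤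
        2 * b * b' * (sz θ * κ' θ) := by
    intro θ r hr
    set A0 := (ST θ).filter (fun x => G.Adj (B r) (A θ x)) with hA0
    have h1 := cut_le_rel G (d' θ) B' (A' θ) (PR r) A0
    rw [Ends_sum_dev, Fintype.card_fin, Fintype.card_fin] at h1
    have h2 : ∑ a ∈ PR r, ((A0.filter (fun x => G.Adj (B' a) (A' θ x))).card : ℝ) = 0 := by
      apply sum_eq_zero
      intro r' hr'
      have hzP : (r, r') ∈ P := (mem_filter.1 hr').2
      have : A0.filter (fun x => G.Adj (B' r') (A' θ x)) = ∅ := by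
        rw [filter_eq_empty_iff]
        intro x hx hadj
        rw [hA0, mem_filter] at hx
        have hxS : (⟨θ, x⟩ : Σ θ, Fin (sz θ)) ∈ S := (mem_filter.1 hx.1).2
        exact hno (r, r') hzP ⟨θ, x⟩ hxS ⟨hx.2, hadj⟩
      rw [this]; simp
    rw [h2, zero_sub] at h1
    have h3 := (abs_le.1 h1).1
    have h4 : δ * (((PR r).card : ℝ) * A0.card) ≤ d' θ * ((PR r).card * A0.card) :=
      mul_le_mul_of_nonneg_right (hd' θ) (by positivity)
    have h5 : δ * (((PR r).card : ℝ) * A0.card) ≤ b' * sz θ * κ' θ := by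
      rw [hκ']
      simp only
      linarith
    have h6 : (P.card : ℝ) ≤ 2 * b * (PR r).card := (mem_filter.1 hr).2
    calc δ * P.card * (A0.card : ℝ) ≤ δ * (2 * b * (PR r).card) * A0.card := by
          apply mul_le_mul_of_nonneg_right _ (by positivity)
          exact mul_le_mul_of_nonneg_left h6 hδ.le
      _ = 2 * b * (δ * (((PR r).card : ℝ) * A0.card)) := by ring
      _ ≤ 2 * b * (b' * sz θ * κ' θ) := mul_le_mul_of_nonneg_left h5 (by positivity)
      _ = 2 * b * b' * (sz θ * κ' θ) := by ring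
  -- sums
  set Q : ℝ := ∑ θ, ∑ r ∈ U, (((ST θ).filter (fun x => G.Adj (B r) (A θ x))).card : ℝ) with hQ
  have hQlow : δ * (U.card * S.card) - b * K ≤ Q := by
    calc δ * (U.card * S.card) - b * K
        = ∑ θ, (δ * (U.card * (ST θ).card) - b * (sz θ * κ θ)) := by
          rw [sum_sub_distrib, hScard, hK, mul_sum, mul_sum, mul_sum]
      _ ≤ Q := sum_le_sum (fun θ _ => hlow θ)
  have hQup : δ * P.card * Q ≤ 2 * b * b' * (U.card * K') := by
    calc δ * P.card * Q
        = ∑ θ, ∑ r ∈ U, δ * P.card *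
            (((ST θ).filter (fun x => G.Adj (B r) (A θ x))).card : ℝ) := by
          rw [hQ, mul_sum]
          exact sum_congr rfl (fun θ _ => by rw [mul_sum])
      _ ≤ ∑ θ, ∑ r ∈ U, 2 * b * b' * (sz θ * κ' θ) :=
          sum_le_sum (fun θ _ => sum_le_sum (fun r hr => hup θ r hr))
      _ = 2 * b * b' * (U.card * K') := by
          rw [hK', mul_sum, mul_sum]
          apply sum_congr rfl
          intro θ _
          rw [sum_const, nsmul_eq_mul]
          ring
  rcases Nat.eq_zero_or_pos U.card with hU0 | hU0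
  · have : (P.card : ℝ) = 0 := by
      have h1 : (P.card : ℝ) ≤ 0 := by
        have := hPU
        rw [hU0] at this
        simpa using this
      exact le_antisymm h1 (by positivity)
    rw [this]
    have : 0 ≤ 2 * ((b : ℝ) * b') * (K + K') := by positivity
    simpa using this
  · have hUpos : 0 < (U.card : ℝ) := by exact_mod_cast hU0
    have h1 : δ * P.card * (δ * (U.card * S.card) - b * K) ≤ 2 * b * b' * (U.card * K') :=
      (mul_le_mul_of_nonneg_left hQlow (by positivity)).trans hQup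
    have h2 : δ * P.card * (b * K) ≤ 2 * b' * U.card * (b * K) := by
      apply mul_le_mul_of_nonneg_right _ (by positivity)
      calc δ * (P.card : ℝ) ≤ 1 * P.card := mul_le_mul_of_nonneg_right hδ1 (by positivity)
        _ ≤ 2 * b' * U.card := by rw [one_mul]; exact hPU
    have h3 : (δ ^ 2 * (P.card * S.card)) * U.card ≤ (2 * (b * b') * (K + K')) * U.card := by
      nlinarith
    exact le_of_mul_le_mul_right h3 hUpos

theorem pair_match {V : Type} (G : SimpleGraph V) {b b' : ℕ} (B : Fin b → V) (B' : Fin b' → V)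
    {Θ : Type} [Fintype Θ] (sz : Θ → ℕ) (A A' : (θ : Θ) → Fin (sz θ) → V) (d d' : Θ → ℝ) (δ : ℝ)
    (hδ : 0 < δ) (hδ1 : δ ≤ 1) (hd : ∀ θ, δ ≤ d θ) (hd' : ∀ θ, δ ≤ d' θ)
    (Pr : Finset (Fin b × Fin b')) (Sg : Finset (Σ θ, Fin (sz θ))) :
    ∃ M : Fin b × Fin b' → Option (Σ θ, Fin (sz θ)),
      (∀ z x, M z = some x → z ∈ Pr ∧ x ∈ Sg ∧ G.Adj (B z.1) (A x.1 x.2) ∧
        G.Adj (B' z.2) (A' x.1 x.2)) ∧
      (∀ z z' x, M z = some x → M z' = some x → z = z') ∧
      ((Pr.filter (fun z => M z = none)).card : ℝ) ≤ max 0 ((Pr.card : ℝ) - Sg.card) +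
        √(2 * (b * b') *
          ∑ θ, (sz θ : ℝ) * (q4 (rel G (d θ) B (A θ)) + q4 (rel G (d' θ) B' (A' θ)))) / δ := by
  obtain ⟨M0, hM1, hM2, hM3⟩ := max_matching (P := {z // z ∈ Pr}) (S := {x // x ∈ Sg})
    (fun z x => G.Adj (B z.1.1) (A x.1.1 x.1.2) ∧ G.Adj (B' z.1.2) (A' x.1.1 x.1.2))
  set M : Fin b × Fin b' → Option (Σ θ, Fin (sz θ)) := fun z =>
    if h : z ∈ Pr then (M0 ⟨z, h⟩).map Subtype.val else none with hM
  have hMs : ∀ z x, M z = some x → ∃ (h : z ∈ Pr) (h' : x ∈ Sg), M0 ⟨z, h⟩ = some ⟨x, h'⟩ := by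
    intro z x hzx
    by_cases h : z ∈ Pr
    · rw [hM] at hzx
      simp only [dif_pos h] at hzx
      rw [Option.map_eq_some_iff] at hzx
      obtain ⟨y, hy, rfl⟩ := hzx
      exact ⟨h, y.2, hy⟩
    · rw [hM] at hzx
      simp only [dif_neg h] at hzx
      exact absurd hzx (by simp)
  have hMn : ∀ z (h : z ∈ Pr), M z = none → M0 ⟨z, h⟩ = none := by
    intro z h hzn
    rw [hM] at hzn
    simp only [dif_pos h] at hzn
    exact Option.map_eq_none_iff.1 hzn
  refine ⟨M, ?_, ?_, ?_⟩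
  · intro z x hzx
    obtain ⟨h, h', hy⟩ := hMs z x hzx
    have := hM1 _ _ hy
    exact ⟨h, h', this.1, this.2⟩
  · intro z z' x hzx hzx'
    obtain ⟨h, h', hy⟩ := hMs z x hzx
    obtain ⟨h2, h2', hy2⟩ := hMs z' x hzx'
    have := hM2 _ _ _ hy hy2
    exact congrArg Subtype.val this
  · set K : ℝ := 2 * (b * b') *
      ∑ θ, (sz θ : ℝ) * (q4 (rel G (d θ) B (A θ)) + q4 (rel G (d' θ) B' (A' θ))) with hK
    set Pun := Pr.filter (fun z => M z = none) with hPun
    set Sun := Sg.filter (fun x => ∀ z, M z ≠ some x) with hSun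
    have hcore : δ ^ 2 * (Pun.card * Sun.card) ≤ K := by
      apply ends_core G B B' sz A A' d d' δ hδ hδ1 hd hd' Pun Sun
      intro z hz x hx
      rw [hPun, mem_filter] at hz
      rw [hSun, mem_filter] at hx
      apply hM3 ⟨z, hz.1⟩ ⟨x, hx.1⟩ (hMn z hz.1 hz.2)
      intro z' hz'
      apply hx.2 z'.1
      rw [hM]
      simp only [dif_pos z'.2]
      rw [hz']
      rfl
    have hcnt : (Sg \ Sun).card ≤ (Pr \ Pun).card := by
      rw [← card_map Function.Embedding.some]
      refine le_trans (card_le_card ?_) (card_image_le (f := M) (s := Pr \ Pun))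
      intro o ho
      rw [mem_map] at ho
      obtain ⟨x, hx, rfl⟩ := ho
      rw [mem_sdiff, hSun, mem_filter] at hx
      have h1 : ∃ z, M z = some x := by
        by_contra hcon
        push Not at hcon
        exact hx.2 ⟨hx.1, hcon⟩
      obtain ⟨z, hz⟩ := h1
      obtain ⟨h, h', hy⟩ := hMs z x hz
      rw [mem_image]
      refine ⟨z, ?_, hz⟩
      rw [mem_sdiff, hPun, mem_filter]
      refine ⟨h, fun h2 => ?_⟩
      rw [hz] at h2
      exact absurd h2.2 (by simp)
    have hc1 : (Sg \ Sun).card + Sun.card = Sg.card :=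
      card_sdiff_add_card_eq_card (filter_subset _ _)
    have hc2 : (Pr \ Pun).card + Pun.card = Pr.card :=
      card_sdiff_add_card_eq_card (filter_subset _ _)
    have hc3 : (Pun.card : ℝ) ≤ Sun.card + ((Pr.card : ℝ) - Sg.card) := by
      have : Pun.card + Sg.card ≤ Sun.card + Pr.card := by omega
      have h' : (Pun.card : ℝ) + Sg.card ≤ Sun.card + Pr.card := by exact_mod_cast this
      linarith
    set e : ℝ := max 0 ((Pr.card : ℝ) - Sg.card) with he
    have he0 : 0 ≤ e := le_max_left _ _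
    have he1 : (Pr.card : ℝ) - Sg.card ≤ e := le_max_right _ _
    by_cases hcase : (Pun.card : ℝ) ≤ e
    · have : 0 ≤ √K / δ := by positivity
      linarith
    · push Not at hcase
      set a : ℝ := Pun.card - e with ha
      have ha0 : 0 < a := by linarith
      have ha1 : a ≤ Pun.card := by linarith
      have ha2 : a ≤ Sun.card := by linarith
      have h1 : (δ * a) ^ 2 ≤ K := by
        refine le_trans ?_ hcore
        rw [mul_pow, sq a]
        exact mul_le_mul_of_nonneg_left (mul_le_mul ha1 ha2 ha0.le (by positivity))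
          (by positivity)
      have h2 : δ * a ≤ √K := Real.le_sqrt_of_sq_le h1
      have h3 : a ≤ √K / δ := by
        rw [le_div_iff₀ hδ]; linarith
      linarith

lemma nonadj_count {V : Type} (G : SimpleGraph V) {b b' : ℕ} (B : Fin b → V) (B' : Fin b' → V)
    (d : ℝ) :
    ((univ.filter (fun z : Fin b × Fin b' => ¬ G.Adj (B z.1) (B' z.2))).card : ℝ) ≤
      (1 - d) * (b * b') + b * b' * q4 (rel G d B B') := by
  have h1 := cut_le_rel G d B B' univ univ
  rw [Ends_sum_dev, Fintype.card_fin, Fintype.card_fin, card_univ, card_univ, Fintype.card_fin,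
    Fintype.card_fin] at h1
  have h2 := (abs_le.1 h1).1
  have h3 : (univ.filter (fun z : Fin b × Fin b' => G.Adj (B z.1) (B' z.2))).card =
      ∑ a, (univ.filter (fun x => G.Adj (B a) (B' x))).card := by
    rw [card_filter, Fintype.sum_prod_type]
    exact sum_congr rfl (fun r _ => (card_filter _ _).symm)
  have h4 : (univ.filter (fun z : Fin b × Fin b' => G.Adj (B z.1) (B' z.2))).card +
      (univ.filter (fun z : Fin b × Fin b' => ¬ G.Adj (B z.1) (B' z.2))).card = b * b' := by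
    rw [card_filter_add_card_filter_not, card_univ, Fintype.card_prod, Fintype.card_fin,
      Fintype.card_fin]
  have h5 : ((univ.filter (fun z : Fin b × Fin b' => G.Adj (B z.1) (B' z.2))).card : ℝ) =
      ∑ a, ((univ.filter (fun x => G.Adj (B a) (B' x))).card : ℝ) := by
    rw [h3]; push_cast; rfl
  have h6 : ((univ.filter (fun z : Fin b × Fin b' => G.Adj (B z.1) (B' z.2))).card : ℝ) +
      (univ.filter (fun z : Fin b × Fin b' => ¬ G.Adj (B z.1) (B' z.2))).card = b * b' := by
    exact_mod_cast h4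
  linarith

end

end Pool.Agent.H25.TD
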