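import Pool.Agent.H25.TD.C4

/-!
Average of the 4-cycle functional over random injections.

PROOF of `c4_perm_avg`. Expand `c4` of the block function into the sum over
`a, a' : Fin s`, `b, b' : Fin t` of `F = f f f f`. Terms with `a = a'` or `b = b'`: absolute value at
most `1`, there are at most `s t² + s² t` of them. For `a ≠ a'`, `b ≠ b'` the points
`x = ι a ≠ x' = ι a'`, `y = ι' b ≠ y' = ι' b'` are distinct and
`Σ_σ Σ_σ' F(σ x, σ x', σ' y, σ' y') = (N!/(N(N-1)))² Σ_{x ≠ x'} Σ_{y ≠ y'} F(x,x',y,y')`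
(`perm_two`), and the last sum is at most `c4 f <= C N⁴` since the missing terms
(`x = x'` or `y = y'`) are products of squares, hence nonnegative. There are
`s(s-1) t(t-1)` such quadruples and `s(s-1) t(t-1)/(N(N-1))² * N⁴ <= s² t²`
(`(s-1)/(N-1) <= s/N` as `s <= N`).

PROOF of `perm_two`. The sum `Σ_σ F (σ x) (σ x')` does not depend on the pair `x ≠ x'` (replace
`σ` by `σ τ` with `τ` mapping one pair to the other), so
`N (N-1) Σ_σ F (σ x) (σ x') = Σ_{x ≠ x'} Σ_σ F (σ x) (σ x') = Σ_σ Σ_{x ≠ x'} F x x' =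
N! Σ_{x ≠ x'} F x x'`.
-/

namespace Pool.Agent.H25.TD

open Finset Pool.Agent.H25.TK
open scoped Classical

noncomputable section

private lemma PermAvg_card (N : ℕ) :
    ((univ.filter (fun z : Fin N × Fin N => z.1 ≠ z.2)).card : ℝ) = (N : ℝ) * (N - 1) := by
  have h1 : univ.filter (fun z : Fin N × Fin N => z.1 ≠ z.2) = (univ : Finset (Fin N)).offDiag := by
    ext z
    simp [Finset.mem_offDiag]
  rw [h1, Finset.offDiag_card, Finset.card_univ, Fintype.card_fin, Nat.cast_sub]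
  · push_cast
    ring
  · rcases Nat.eq_zero_or_pos N with h | h
    · subst h; simp
    · exact Nat.le_mul_of_pos_left N h

private lemma PermAvg_trans {N : ℕ} {x x' y y' : Fin N} (hx : x ≠ x') (hy : y ≠ y') :
    ∃ τ : Equiv.Perm (Fin N), τ y = x ∧ τ y' = x' := by
  refine ⟨(Equiv.swap y x).trans (Equiv.swap (Equiv.swap y x y') x'), ?_, ?_⟩
  · have h1 : (Equiv.swap y x) y = x := Equiv.swap_apply_left y x
    have h2 : x ≠ Equiv.swap y x y' := by
      intro h
      have h3 : (Equiv.swap y x) y = (Equiv.swap y x) y' := h1.trans h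
      exact hy ((Equiv.swap y x).injective h3)
    rw [Equiv.trans_apply, h1]
    exact Equiv.swap_apply_of_ne_of_ne h2 hx
  · rw [Equiv.trans_apply]
    exact Equiv.swap_apply_left _ _

lemma perm_two {N : ℕ} (F : Fin N → Fin N → ℝ) {x x' : Fin N} (hx : x ≠ x') :
    ((N : ℝ) * (N - 1)) * ∑ σ : Equiv.Perm (Fin N), F (σ x) (σ x') =
      (Nat.factorial N : ℝ) * ∑ z ∈ univ.filter (fun z : Fin N × Fin N => z.1 ≠ z.2),
        F z.1 z.2 := by
  have h1 : ∀ z ∈ univ.filter (fun z : Fin N × Fin N => z.1 ≠ z.2),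
      ∑ σ : Equiv.Perm (Fin N), F (σ z.1) (σ z.2) = ∑ σ : Equiv.Perm (Fin N), F (σ x) (σ x') := by
    intro z hz
    have hz' : z.1 ≠ z.2 := (Finset.mem_filter.1 hz).2
    obtain ⟨τ, h1, h2⟩ := PermAvg_trans hz' hx
    rw [← Equiv.sum_comp (Equiv.mulRight τ) (fun σ : Equiv.Perm (Fin N) => F (σ x) (σ x'))]
    refine Finset.sum_congr rfl fun σ _ => ?_
    simp only [Equiv.coe_mulRight, Equiv.Perm.mul_apply]
    rw [h1, h2]
  have h2 : ∀ σ : Equiv.Perm (Fin N),
      ∑ z ∈ univ.filter (fun z : Fin N × Fin N => z.1 ≠ z.2), F (σ z.1) (σ z.2) =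
      ∑ z ∈ univ.filter (fun z : Fin N × Fin N => z.1 ≠ z.2), F z.1 z.2 := by
    intro σ
    refine Finset.sum_bij (fun z _ => (σ z.1, σ z.2)) ?_ ?_ ?_ ?_
    · intro z hz
      simp only [Finset.mem_filter, Finset.mem_univ, true_and] at hz ⊢
      exact fun h => hz (σ.injective h)
    · intro z _ z' _ h
      simp only [Prod.mk.injEq] at h
      exact Prod.ext (σ.injective h.1) (σ.injective h.2)
    · intro z hz
      simp only [Finset.mem_filter, Finset.mem_univ, true_and] at hz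
      refine ⟨(σ.symm z.1, σ.symm z.2), ?_, ?_⟩
      · simp only [Finset.mem_filter, Finset.mem_univ, true_and]
        exact fun h => hz (σ.symm.injective h)
      · simp
    · intro z _
      rfl
  have h3 : ∑ z ∈ univ.filter (fun z : Fin N × Fin N => z.1 ≠ z.2),
      ∑ σ : Equiv.Perm (Fin N), F (σ z.1) (σ z.2) =
      ((N : ℝ) * (N - 1)) * ∑ σ : Equiv.Perm (Fin N), F (σ x) (σ x') := by
    rw [Finset.sum_congr rfl h1, Finset.sum_const, nsmul_eq_mul, PermAvg_card]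
  rw [← h3, Finset.sum_comm, Finset.sum_congr rfl (fun σ _ => h2 σ), Finset.sum_const,
    Finset.card_univ, Fintype.card_perm, Fintype.card_fin, nsmul_eq_mul]

private def PermAvg_g {N : ℕ} (f : Fin N → Fin N → ℝ) (z w : Fin N × Fin N) : ℝ :=
  f z.1 w.1 * f z.2 w.1 * (f z.1 w.2 * f z.2 w.2)

private lemma PermAvg_expand {S T : Type} [Fintype S] [Fintype T] (f : S → T → ℝ) :
    c4 f = ∑ p : S × S, ∑ q : T × T, f p.1 q.1 * f p.2 q.1 * (f p.1 q.2 * f p.2 q.2) := by
  unfold c4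
  rw [Fintype.sum_prod_type]
  refine Finset.sum_congr rfl fun a _ => Finset.sum_congr rfl fun a' _ => ?_
  rw [Fintype.sum_prod_type, sq, Finset.sum_mul_sum]

private lemma PermAvg_off {N : ℕ} (f : Fin N → Fin N → ℝ) :
    ∑ z ∈ univ.filter (fun z : Fin N × Fin N => z.1 ≠ z.2),
      ∑ w ∈ univ.filter (fun w : Fin N × Fin N => w.1 ≠ w.2), PermAvg_g f z w ≤ c4 f := by
  have h0 : c4 f = ∑ z : Fin N × Fin N, ∑ w : Fin N × Fin N, PermAvg_g f z w := PermAvg_expand f
  rw [h0]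
  calc ∑ z ∈ univ.filter (fun z : Fin N × Fin N => z.1 ≠ z.2),
      ∑ w ∈ univ.filter (fun w : Fin N × Fin N => w.1 ≠ w.2), PermAvg_g f z w
      ≤ ∑ z ∈ univ.filter (fun z : Fin N × Fin N => z.1 ≠ z.2),
        ∑ w : Fin N × Fin N, PermAvg_g f z w := by
        refine Finset.sum_le_sum fun z _ => ?_
        refine Finset.sum_le_sum_of_subset_of_nonneg (Finset.subset_univ _) fun w _ hw => ?_
        have hw' : w.1 = w.2 := by
          by_contra h
          exact hw (Finset.mem_filter.2 ⟨Finset.mem_univ _, h⟩)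
        unfold PermAvg_g
        rw [hw']
        exact mul_self_nonneg _
    _ ≤ ∑ z : Fin N × Fin N, ∑ w : Fin N × Fin N, PermAvg_g f z w := by
        refine Finset.sum_le_sum_of_subset_of_nonneg (Finset.subset_univ _) fun z _ hz => ?_
        have hz' : z.1 = z.2 := by
          by_contra h
          exact hz (Finset.mem_filter.2 ⟨Finset.mem_univ _, h⟩)
        refine Finset.sum_nonneg fun w _ => ?_
        unfold PermAvg_g
        rw [hz']
        exact mul_nonneg (mul_self_nonneg _) (mul_self_nonneg _)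

private lemma PermAvg_two {N : ℕ} (f : Fin N → Fin N → ℝ) {x x' y y' : Fin N} (hx : x ≠ x')
    (hy : y ≠ y') :
    ((N : ℝ) * (N - 1)) ^ 2 * ∑ σ : Equiv.Perm (Fin N), ∑ σ' : Equiv.Perm (Fin N),
      PermAvg_g f (σ x, σ x') (σ' y, σ' y') =
    (Nat.factorial N : ℝ) ^ 2 * ∑ z ∈ univ.filter (fun z : Fin N × Fin N => z.1 ≠ z.2),
      ∑ w ∈ univ.filter (fun w : Fin N × Fin N => w.1 ≠ w.2), PermAvg_g f z w := by
  have h1 := perm_two (fun z z' => ∑ σ' : Equiv.Perm (Fin N), PermAvg_g f (z, z') (σ' y, σ' y')) hx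
  have h2 : ∀ z : Fin N × Fin N, ((N : ℝ) * (N - 1)) * ∑ σ' : Equiv.Perm (Fin N),
      PermAvg_g f (z.1, z.2) (σ' y, σ' y') =
      (Nat.factorial N : ℝ) * ∑ w ∈ univ.filter (fun w : Fin N × Fin N => w.1 ≠ w.2),
        PermAvg_g f z w := fun z =>
    perm_two (fun w w' => PermAvg_g f (z.1, z.2) (w, w')) hy
  have h3 : ((N : ℝ) * (N - 1)) * ∑ z ∈ univ.filter (fun z : Fin N × Fin N => z.1 ≠ z.2),
      ∑ σ' : Equiv.Perm (Fin N), PermAvg_g f (z.1, z.2) (σ' y, σ' y') =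
      (Nat.factorial N : ℝ) * ∑ z ∈ univ.filter (fun z : Fin N × Fin N => z.1 ≠ z.2),
        ∑ w ∈ univ.filter (fun w : Fin N × Fin N => w.1 ≠ w.2), PermAvg_g f z w := by
    rw [Finset.mul_sum, Finset.mul_sum]
    exact Finset.sum_congr rfl fun z _ => h2 z
  calc ((N : ℝ) * (N - 1)) ^ 2 * ∑ σ : Equiv.Perm (Fin N), ∑ σ' : Equiv.Perm (Fin N),
        PermAvg_g f (σ x, σ x') (σ' y, σ' y')
      = ((N : ℝ) * (N - 1)) * (((N : ℝ) * (N - 1)) * ∑ σ : Equiv.Perm (Fin N),
          ∑ σ' : Equiv.Perm (Fin N), PermAvg_g f (σ x, σ x') (σ' y, σ' y')) := by ring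
    _ = ((N : ℝ) * (N - 1)) * ((Nat.factorial N : ℝ) *
          ∑ z ∈ univ.filter (fun z : Fin N × Fin N => z.1 ≠ z.2),
          ∑ σ' : Equiv.Perm (Fin N), PermAvg_g f (z.1, z.2) (σ' y, σ' y')) := by rw [h1]
    _ = (Nat.factorial N : ℝ) * (((N : ℝ) * (N - 1)) *
          ∑ z ∈ univ.filter (fun z : Fin N × Fin N => z.1 ≠ z.2),
          ∑ σ' : Equiv.Perm (Fin N), PermAvg_g f (z.1, z.2) (σ' y, σ' y')) := by ring
    _ = (Nat.factorial N : ℝ) ^ 2 * ∑ z ∈ univ.filter (fun z : Fin N × Fin N => z.1 ≠ z.2),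
      ∑ w ∈ univ.filter (fun w : Fin N × Fin N => w.1 ≠ w.2), PermAvg_g f z w := by
        rw [h3]
        ring

theorem c4_perm_avg {N s t : ℕ} (f : Fin N → Fin N → ℝ) (hf : ∀ a b, |f a b| ≤ 1)
    (ι : Fin s → Fin N) (hι : Function.Injective ι) (ι' : Fin t → Fin N)
    (hι' : Function.Injective ι') (C : ℝ) (hC : c4 f ≤ C * (N : ℝ) ^ 4) (hC0 : 0 ≤ C) :
    ∑ σ : Equiv.Perm (Fin N), ∑ σ' : Equiv.Perm (Fin N),
        c4 (fun a b => f (σ (ι a)) (σ' (ι' b))) ≤
      (Nat.factorial N : ℝ) ^ 2 * ((s : ℝ) ^ 2 * (t : ℝ) ^ 2 * C + s * (t : ℝ) ^ 2 +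
        (s : ℝ) ^ 2 * t) := by
  set K : ℝ := (Nat.factorial N : ℝ) ^ 2 with hK
  have hK0 : 0 ≤ K := by positivity
  set D : Fin s × Fin s → Fin t × Fin t → ℝ := fun p q =>
    ∑ σ : Equiv.Perm (Fin N), ∑ σ' : Equiv.Perm (Fin N),
      PermAvg_g f (σ (ι p.1), σ (ι p.2)) (σ' (ι' q.1), σ' (ι' q.2)) with hD
  have hL : ∑ σ : Equiv.Perm (Fin N), ∑ σ' : Equiv.Perm (Fin N),
        c4 (fun a b => f (σ (ι a)) (σ' (ι' b))) = ∑ p, ∑ q, D p q := by
    have h1 : ∀ σ σ' : Equiv.Perm (Fin N), c4 (fun a b => f (σ (ι a)) (σ' (ι' b))) =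
        ∑ p : Fin s × Fin s, ∑ q : Fin t × Fin t,
          PermAvg_g f (σ (ι p.1), σ (ι p.2)) (σ' (ι' q.1), σ' (ι' q.2)) := fun σ σ' =>
      PermAvg_expand _
    calc ∑ σ : Equiv.Perm (Fin N), ∑ σ' : Equiv.Perm (Fin N),
          c4 (fun a b => f (σ (ι a)) (σ' (ι' b)))
        = ∑ σ : Equiv.Perm (Fin N), ∑ σ' : Equiv.Perm (Fin N),
          ∑ p : Fin s × Fin s, ∑ q : Fin t × Fin t,
          PermAvg_g f (σ (ι p.1), σ (ι p.2)) (σ' (ι' q.1), σ' (ι' q.2)) := by
          simp only [h1]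
      _ = ∑ σ : Equiv.Perm (Fin N), ∑ p : Fin s × Fin s, ∑ σ' : Equiv.Perm (Fin N),
          ∑ q : Fin t × Fin t,
          PermAvg_g f (σ (ι p.1), σ (ι p.2)) (σ' (ι' q.1), σ' (ι' q.2)) :=
          Finset.sum_congr rfl fun σ _ => Finset.sum_comm
      _ = ∑ p : Fin s × Fin s, ∑ σ : Equiv.Perm (Fin N), ∑ σ' : Equiv.Perm (Fin N),
          ∑ q : Fin t × Fin t,
          PermAvg_g f (σ (ι p.1), σ (ι p.2)) (σ' (ι' q.1), σ' (ι' q.2)) := Finset.sum_comm
      _ = ∑ p : Fin s × Fin s, ∑ σ : Equiv.Perm (Fin N), ∑ q : Fin t × Fin t,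
          ∑ σ' : Equiv.Perm (Fin N),
          PermAvg_g f (σ (ι p.1), σ (ι p.2)) (σ' (ι' q.1), σ' (ι' q.2)) :=
          Finset.sum_congr rfl fun p _ => Finset.sum_congr rfl fun σ _ => Finset.sum_comm
      _ = ∑ p, ∑ q, D p q := Finset.sum_congr rfl fun p _ => Finset.sum_comm
  have hg1 : ∀ z w, PermAvg_g f z w ≤ 1 := by
    intro z w
    unfold PermAvg_g
    refine (le_abs_self _).trans ?_
    rw [abs_mul, abs_mul, abs_mul]
    refine mul_le_one₀ (mul_le_one₀ (hf _ _) (abs_nonneg _) (hf _ _))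
      (mul_nonneg (abs_nonneg _) (abs_nonneg _)) (mul_le_one₀ (hf _ _) (abs_nonneg _) (hf _ _))
  have hD1 : ∀ p q, D p q ≤ K := by
    intro p q
    simp only [hD]
    calc ∑ σ : Equiv.Perm (Fin N), ∑ σ' : Equiv.Perm (Fin N),
          PermAvg_g f (σ (ι p.1), σ (ι p.2)) (σ' (ι' q.1), σ' (ι' q.2))
        ≤ ∑ _σ : Equiv.Perm (Fin N), ∑ _σ' : Equiv.Perm (Fin N), (1 : ℝ) :=
          Finset.sum_le_sum fun σ _ => Finset.sum_le_sum fun σ' _ => hg1 _ _
      _ = K := by
          simp only [Finset.sum_const, Finset.card_univ, Fintype.card_perm, Fintype.card_fin,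
            nsmul_eq_mul, mul_one, hK, sq]
  have hD2 : ∀ p q, p.1 ≠ p.2 → q.1 ≠ q.2 → ((N : ℝ) * (N - 1)) ^ 2 * D p q ≤
      K * (C * (N : ℝ) ^ 4) := by
    intro p q hp hq
    simp only [hD]
    rw [PermAvg_two f (fun h => hp (hι h)) (fun h => hq (hι' h))]
    exact mul_le_mul_of_nonneg_left ((PermAvg_off f).trans hC) hK0
  have hsplit : ∑ p, ∑ q, D p q =
      ∑ p ∈ univ.filter (fun p : Fin s × Fin s => p.1 ≠ p.2),
        ∑ q ∈ univ.filter (fun q : Fin t × Fin t => q.1 ≠ q.2), D p q +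
      ∑ p ∈ univ.filter (fun p : Fin s × Fin s => p.1 ≠ p.2),
        ∑ q ∈ univ.filter (fun q : Fin t × Fin t => ¬ q.1 ≠ q.2), D p q +
      ∑ p ∈ univ.filter (fun p : Fin s × Fin s => ¬ p.1 ≠ p.2), ∑ q, D p q := by
    rw [← Finset.sum_filter_add_sum_filter_not univ (fun p : Fin s × Fin s => p.1 ≠ p.2),
      ← Finset.sum_add_distrib]
    congr 1
    refine Finset.sum_congr rfl fun p _ => ?_
    rw [Finset.sum_filter_add_sum_filter_not univ (fun q : Fin t × Fin t => q.1 ≠ q.2)]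
  have hdiag : ∀ n : ℕ, (univ.filter (fun q : Fin n × Fin n => ¬ q.1 ≠ q.2)).card = n := by
    intro n
    have h1 : univ.filter (fun q : Fin n × Fin n => ¬ q.1 ≠ q.2) =
        (univ : Finset (Fin n)).image (fun i => (i, i)) := by
      ext q
      simp only [ne_eq, not_not, Finset.mem_filter, Finset.mem_univ, true_and, Finset.mem_image]
      constructor
      · intro h
        exact ⟨q.1, Prod.ext rfl h⟩
      · rintro ⟨i, rfl⟩
        rfl
    rw [h1, Finset.card_image_of_injective _ (fun a b h => congrArg Prod.fst h), Finset.card_univ,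
      Fintype.card_fin]
  have hp3 : ∑ p ∈ univ.filter (fun p : Fin s × Fin s => ¬ p.1 ≠ p.2), ∑ q, D p q ≤
      K * (s * (t : ℝ) ^ 2) := by
    calc ∑ p ∈ univ.filter (fun p : Fin s × Fin s => ¬ p.1 ≠ p.2), ∑ q, D p q
        ≤ ∑ _p ∈ univ.filter (fun p : Fin s × Fin s => ¬ p.1 ≠ p.2), ∑ _q : Fin t × Fin t, K :=
          Finset.sum_le_sum fun p _ => Finset.sum_le_sum fun q _ => hD1 p q
      _ = K * (s * (t : ℝ) ^ 2) := by
          rw [Finset.sum_const, Finset.sum_const, hdiag, Finset.card_univ, Fintype.card_prod,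
            Fintype.card_fin, nsmul_eq_mul, nsmul_eq_mul]
          push_cast
          ring
  have hp2 : ∑ p ∈ univ.filter (fun p : Fin s × Fin s => p.1 ≠ p.2),
        ∑ q ∈ univ.filter (fun q : Fin t × Fin t => ¬ q.1 ≠ q.2), D p q ≤
      K * ((s : ℝ) ^ 2 * t) := by
    calc ∑ p ∈ univ.filter (fun p : Fin s × Fin s => p.1 ≠ p.2),
        ∑ q ∈ univ.filter (fun q : Fin t × Fin t => ¬ q.1 ≠ q.2), D p q
        ≤ ∑ _p ∈ univ.filter (fun p : Fin s × Fin s => p.1 ≠ p.2),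
          ∑ _q ∈ univ.filter (fun q : Fin t × Fin t => ¬ q.1 ≠ q.2), K :=
          Finset.sum_le_sum fun p _ => Finset.sum_le_sum fun q _ => hD1 p q
      _ ≤ ∑ _p : Fin s × Fin s,
          ∑ _q ∈ univ.filter (fun q : Fin t × Fin t => ¬ q.1 ≠ q.2), K :=
          Finset.sum_le_sum_of_subset_of_nonneg (Finset.subset_univ _)
            fun _ _ _ => Finset.sum_nonneg fun _ _ => hK0
      _ = K * ((s : ℝ) ^ 2 * t) := by
          rw [Finset.sum_const, Finset.sum_const, hdiag, Finset.card_univ, Fintype.card_prod,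
            Fintype.card_fin, nsmul_eq_mul, nsmul_eq_mul]
          push_cast
          ring
  have hp1 : ∑ p ∈ univ.filter (fun p : Fin s × Fin s => p.1 ≠ p.2),
        ∑ q ∈ univ.filter (fun q : Fin t × Fin t => q.1 ≠ q.2), D p q ≤
      K * ((s : ℝ) ^ 2 * (t : ℝ) ^ 2 * C) := by
    by_cases hs : s ≤ 1
    · have h1 : univ.filter (fun p : Fin s × Fin s => p.1 ≠ p.2) = ∅ := by
        apply Finset.filter_eq_empty_iff.2
        intro p _ h
        apply h
        apply Fin.ext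
        have := p.1.2
        have := p.2.2
        omega
      rw [h1, Finset.sum_empty]
      positivity
    by_cases ht : t ≤ 1
    · have h1 : univ.filter (fun q : Fin t × Fin t => q.1 ≠ q.2) = ∅ := by
        apply Finset.filter_eq_empty_iff.2
        intro p _ h
        apply h
        apply Fin.ext
        have := p.1.2
        have := p.2.2
        omega
      rw [h1]
      simp only [Finset.sum_empty, Finset.sum_const_zero]
      positivity
    have hsN : s ≤ N := by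
      have := Fintype.card_le_of_injective ι hι
      simpa using this
    have htN : t ≤ N := by
      have := Fintype.card_le_of_injective ι' hι'
      simpa using this
    have hN2 : (2 : ℝ) ≤ N := by
      have : 2 ≤ N := by omega
      exact_mod_cast this
    have hs2 : (2 : ℝ) ≤ s := by
      have : 2 ≤ s := by omega
      exact_mod_cast this
    have ht2 : (2 : ℝ) ≤ t := by
      have : 2 ≤ t := by omega
      exact_mod_cast this
    have hsN' : (s : ℝ) ≤ N := by exact_mod_cast hsN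
    have htN' : (t : ℝ) ≤ N := by exact_mod_cast htN
    have hNN : (0 : ℝ) < ((N : ℝ) * (N - 1)) ^ 2 := by
      have : (0 : ℝ) < (N : ℝ) * (N - 1) := mul_pos (by linarith) (by linarith)
      positivity
    have hb : ∀ p ∈ univ.filter (fun p : Fin s × Fin s => p.1 ≠ p.2),
        ∀ q ∈ univ.filter (fun q : Fin t × Fin t => q.1 ≠ q.2),
        D p q ≤ K * (C * (N : ℝ) ^ 4) / ((N : ℝ) * (N - 1)) ^ 2 := by
      intro p hp q hq
      rw [le_div_iff₀ hNN, mul_comm]
      exact hD2 p q (Finset.mem_filter.1 hp).2 (Finset.mem_filter.1 hq).2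
    calc ∑ p ∈ univ.filter (fun p : Fin s × Fin s => p.1 ≠ p.2),
        ∑ q ∈ univ.filter (fun q : Fin t × Fin t => q.1 ≠ q.2), D p q
        ≤ ∑ _p ∈ univ.filter (fun p : Fin s × Fin s => p.1 ≠ p.2),
          ∑ _q ∈ univ.filter (fun q : Fin t × Fin t => q.1 ≠ q.2),
            K * (C * (N : ℝ) ^ 4) / ((N : ℝ) * (N - 1)) ^ 2 :=
          Finset.sum_le_sum fun p hp => Finset.sum_le_sum fun q hq => hb p hp q hq
      _ = ((s : ℝ) * (s - 1)) * (((t : ℝ) * (t - 1)) *
            (K * (C * (N : ℝ) ^ 4) / ((N : ℝ) * (N - 1)) ^ 2)) := by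
          rw [Finset.sum_const, Finset.sum_const, nsmul_eq_mul, nsmul_eq_mul, PermAvg_card,
            PermAvg_card]
      _ ≤ K * ((s : ℝ) ^ 2 * (t : ℝ) ^ 2 * C) := by
          rw [← mul_assoc, ← mul_div_assoc, div_le_iff₀ hNN]
          have h1 : ((s : ℝ) - 1) * N ≤ s * (N - 1) := by nlinarith
          have h2 : ((t : ℝ) - 1) * N ≤ t * (N - 1) := by nlinarith
          have h3 : (((s : ℝ) - 1) * N) * (((t : ℝ) - 1) * N) ≤ (s * (N - 1)) * (t * (N - 1)) :=
            mul_le_mul h1 h2 (mul_nonneg (by linarith) (by linarith))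
              (mul_nonneg (by linarith) (by linarith))
          have h4 : 0 ≤ K * C * (s * t * (N : ℝ) ^ 2) := by positivity
          have h5 := mul_le_mul_of_nonneg_left h3 h4
          calc (s : ℝ) * (s - 1) * (t * (t - 1)) * (K * (C * (N : ℝ) ^ 4))
              = K * C * (s * t * (N : ℝ) ^ 2) * ((((s : ℝ) - 1) * N) * (((t : ℝ) - 1) * N)) := by
                ring
            _ ≤ K * C * (s * t * (N : ℝ) ^ 2) * ((s * (N - 1)) * (t * (N - 1))) := h5
            _ = K * ((s : ℝ) ^ 2 * (t : ℝ) ^ 2 * C) * ((N : ℝ) * (N - 1)) ^ 2 := by ring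
  rw [hL, hsplit]
  calc _ ≤ K * ((s : ℝ) ^ 2 * (t : ℝ) ^ 2 * C) + K * ((s : ℝ) ^ 2 * t) +
        K * (s * (t : ℝ) ^ 2) := add_le_add (add_le_add hp1 hp2) hp3
    _ = K * ((s : ℝ) ^ 2 * (t : ℝ) ^ 2 * C + s * (t : ℝ) ^ 2 + (s : ℝ) ^ 2 * t) := by ring

end

end Pool.Agent.H25.TD
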