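import Pool.Agent.H25.TD.Sampling

/-!
Placement of the blocks of a plan.

PROOF. `sampling` with `Blk = (Σ τ : Fin P.q, Fin (P.len τ)) ⊕ Fin m`, sizes `P.sz τ`, `P.b i`,
clusters `P.pos τ t` (the `t`-th entry of the list), `i`; the condition `hfit` is `P.fit`
(`List.count v w` = number of positions `t` with `pos t = v`). Links:
`Λ = (Σ τ, Fin (P.len τ - 1)) ⊕ Fin P.q ⊕ Fin P.q ⊕ (Fin m × Fin m)`: the pairs of consecutive
blocks (`t`, `t+1`) of weight `sz τ`, the pair (`src τ`, block `0`), the pair (`dst τ`, last block)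
of weight `sz τ`, and the pairs `(i,j)` with weight `b i * b j` if `i < j` and `0 < p i j` and `0`
otherwise. All `p` on links of nonzero weight are positive: chain condition of `P.route`, symmetry.
Sum of the weights at most `P.wt`; the right side of `sampling` is at most
`ε P.wt + P.low`: `sz (1/sz + 1/sz) <= 2`, `sz (1/b_src + 1/sz) <= b_dst + 1` by `P.small`,
`b_i b_j (1/b_i + 1/b_j) <= b_i + b_j`. Then `holder4` and monotonicity of `q4`.
`a τ t x := A (inl ⟨τ,t⟩) x` for `t < len τ` and anything (for instance `a τ 0 x`) for larger `t`;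
`len τ > 0` since routes are nonempty.
-/

namespace Pool.Agent.H25.TD

open Finset Pool.Agent.H25.TK
open scoped Classical

noncomputable section

variable {m N : ℕ} {p : Fin m → Fin m → ℝ}

private abbrev PlaceBlk (P : Plan m N p) : Type := (Σ τ : Fin P.q, Fin (P.len τ)) ⊕ Fin m

private def PlaceSize (P : Plan m N p) : PlaceBlk P → ℕ
  | .inl z => P.sz z.1
  | .inr i => P.b i

private def PlaceClu (P : Plan m N p) : PlaceBlk P → Fin m
  | .inl z => P.pos z.1 z.2
  | .inr i => i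

private abbrev PlaceLnk (P : Plan m N p) : Type :=
  (Σ τ : Fin P.q, Fin (P.len τ - 1)) ⊕ (Fin P.q ⊕ (Fin P.q ⊕ (Fin m × Fin m)))

private lemma Place_len_pos (P : Plan m N p) (τ : Fin P.q) : 0 < P.len τ :=
  List.length_pos_iff.2 (P.route τ).1

private def PlaceIdx (P : Plan m N p) (τ : Fin P.q) (t : ℕ) : Fin (P.len τ) :=
  if h : t < P.len τ then ⟨t, h⟩ else ⟨0, Place_len_pos P τ⟩

private lemma Place_idx_val (P : Plan m N p) (τ : Fin P.q) {t : ℕ} (h : t < P.len τ) :
    (PlaceIdx P τ t : ℕ) = t := by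
  unfold PlaceIdx
  rw [dif_pos h]

private def PlaceL (P : Plan m N p) : PlaceLnk P → PlaceBlk P
  | .inl z => .inl ⟨z.1, PlaceIdx P z.1 z.2⟩
  | .inr (.inl τ) => .inr (P.src τ)
  | .inr (.inr (.inl τ)) => .inr (P.dst τ)
  | .inr (.inr (.inr z)) => .inr z.1

private def PlaceR (P : Plan m N p) : PlaceLnk P → PlaceBlk P
  | .inl z => .inl ⟨z.1, PlaceIdx P z.1 (z.2 + 1)⟩
  | .inr (.inl τ) => .inl ⟨τ, PlaceIdx P τ 0⟩
  | .inr (.inr (.inl τ)) => .inl ⟨τ, PlaceIdx P τ (P.len τ - 1)⟩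
  | .inr (.inr (.inr z)) => .inr z.2

private def PlaceW (P : Plan m N p) : PlaceLnk P → ℝ
  | .inl z => P.sz z.1
  | .inr (.inl τ) => P.sz τ
  | .inr (.inr (.inl τ)) => P.sz τ
  | .inr (.inr (.inr z)) => if z.1 < z.2 ∧ 0 < p z.1 z.2 then (P.b z.1 : ℝ) * P.b z.2 else 0

private lemma Place_count (l : List (Fin m)) (d v : Fin m) (c : ℕ) :
    ∑ t : Fin l.length, (if l.getD t d = v then c else 0) = c * l.count v := by
  induction l with
  | nil => simp
  | cons x l ih =>
    rw [List.length_cons, Fin.sum_univ_succ]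
    have h1 : ∀ t : Fin l.length, (x :: l).getD (t.succ : ℕ) d = l.getD t d := by
      intro t
      rw [Fin.val_succ, List.getD_cons_succ]
    simp only [h1, ih, Fin.val_zero, List.getD_cons_zero, List.count_cons, beq_iff_eq]
    split_ifs <;> ring

private lemma Place_fit (P : Plan m N p) (v : Fin m) :
    ∑ β ∈ univ.filter (fun β => PlaceClu P β = v), PlaceSize P β ≤ N := by
  rw [sum_filter, Fintype.sum_sum_type, Fintype.sum_sigma]
  refine le_trans (le_of_eq ?_) (P.fit v)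
  congr 1
  · refine sum_congr rfl fun τ _ => ?_
    exact Place_count (P.w τ) (P.src τ) v (P.sz τ)
  · show ∑ i, (if i = v then P.b i else 0) = P.b v
    rw [sum_ite_eq' univ v]
    simp

private lemma Place_chain {R : Fin m → Fin m → Prop} {i j : Fin m} {w : List (Fin m)}
    (hw : w ≠ []) (h : List.IsChain R (i :: (w ++ [j]))) :
    R i (w.getD 0 i) ∧ (∀ t, t + 1 < w.length → R (w.getD t i) (w.getD (t + 1) i)) ∧
      R (w.getD (w.length - 1) i) j := by
  have hl : 0 < w.length := List.length_pos_iff.2 hw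
  rw [List.isChain_iff_getElem] at h
  have hlen : (i :: (w ++ [j])).length = w.length + 2 := by simp
  refine ⟨?_, ?_, ?_⟩
  · have := h 0 (by omega)
    simp only [List.getElem_cons_zero, List.getElem_cons_succ] at this
    rw [List.getElem_append_left hl] at this
    rw [List.getD_eq_getElem _ _ hl]
    exact this
  · intro t ht
    have := h (t + 1) (by omega)
    simp only [List.getElem_cons_succ] at this
    rw [List.getElem_append_left (by omega), List.getElem_append_left ht] at this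
    rw [List.getD_eq_getElem _ _ (by omega : t < w.length), List.getD_eq_getElem _ _ ht]
    exact this
  · have := h (w.length - 1 + 1) (by omega)
    simp only [List.getElem_cons_succ] at this
    rw [List.getElem_append_left (by omega), List.getElem_append_right (by omega)] at this
    rw [List.getD_eq_getElem _ _ (by omega : w.length - 1 < w.length)]
    simpa using this

private lemma Place_mul_inv_le (x : ℕ) : (x : ℝ) * (1 / x) ≤ 1 := by
  rcases Nat.eq_zero_or_pos x with rfl | h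
  · simp
  · have : (x : ℝ) ≠ 0 := by positivity
    rw [mul_one_div_cancel this]

private lemma Place_mul_inv_le' {x y z : ℕ} (h : x ≤ y * z) : (x : ℝ) * (1 / y) ≤ z := by
  have h' : (x : ℝ) ≤ y * z := by exact_mod_cast h
  rcases Nat.eq_zero_or_pos y with rfl | hy
  · simp
  · have : (0 : ℝ) < y := by positivity
    rw [mul_one_div, div_le_iff₀ this]
    linarith

private lemma Place_sum (P : Plan m N p) (F : PlaceLnk P → ℝ) :
    ∑ x, F x = ∑ τ, (∑ t : Fin (P.len τ - 1), F (.inl ⟨τ, t⟩) + F (.inr (.inl τ)) +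
      F (.inr (.inr (.inl τ)))) + ∑ i, ∑ j, F (.inr (.inr (.inr (i, j)))) := by
  rw [Fintype.sum_sum_type, Fintype.sum_sum_type, Fintype.sum_sum_type, Fintype.sum_sigma,
    Fintype.sum_prod_type, sum_add_distrib, sum_add_distrib]
  ring

private lemma Place_len_cast (P : Plan m N p) (τ : Fin P.q) :
    ((P.len τ - 1 : ℕ) : ℝ) = P.len τ - 1 := by
  rw [Nat.cast_sub (Place_len_pos P τ), Nat.cast_one]

private lemma Place_W_nonneg (P : Plan m N p) (x : PlaceLnk P) : 0 ≤ PlaceW P x := by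
  rcases x with z | τ | τ | z
  · exact Nat.cast_nonneg _
  · exact Nat.cast_nonneg _
  · exact Nat.cast_nonneg _
  · show 0 ≤ if z.1 < z.2 ∧ 0 < p z.1 z.2 then (P.b z.1 : ℝ) * P.b z.2 else 0
    split_ifs
    · positivity
    · exact le_rfl

private lemma Place_wt (P : Plan m N p) : ∑ x, PlaceW P x ≤ P.wt := by
  rw [Place_sum]
  unfold Plan.wt
  refine add_le_add (sum_le_sum fun τ _ => ?_) ?_
  · show ∑ _t : Fin (P.len τ - 1), (P.sz τ : ℝ) + P.sz τ + P.sz τ ≤ _
    rw [sum_const, card_univ, Fintype.card_fin, nsmul_eq_mul, Place_len_cast]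
    apply le_of_eq
    ring
  · rw [sq, sum_mul_sum]
    refine sum_le_sum fun i _ => sum_le_sum fun j _ => ?_
    show (if i < j ∧ 0 < p i j then (P.b i : ℝ) * P.b j else 0) ≤ _
    split_ifs
    · exact le_rfl
    · positivity

private lemma Place_low (P : Plan m N p) :
    ∑ x, PlaceW P x * (1 / (PlaceSize P (PlaceL P x) : ℝ) + 1 / PlaceSize P (PlaceR P x)) ≤
      P.low := by
  rw [Place_sum]
  unfold Plan.low
  refine add_le_add (sum_le_sum fun τ _ => ?_) ?_
  · show ∑ _t : Fin (P.len τ - 1), (P.sz τ : ℝ) * (1 / P.sz τ + 1 / P.sz τ) +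
      P.sz τ * (1 / P.b (P.src τ) + 1 / P.sz τ) + P.sz τ * (1 / P.b (P.dst τ) + 1 / P.sz τ) ≤ _
    rw [sum_const, card_univ, Fintype.card_fin, nsmul_eq_mul, Place_len_cast]
    have h1 := Place_mul_inv_le (P.sz τ)
    have h2 := Place_mul_inv_le' (P.small τ)
    have h3 := Place_mul_inv_le' (x := P.sz τ) (y := P.b (P.dst τ)) (z := P.b (P.src τ))
      (by rw [mul_comm]; exact P.small τ)
    have h4 : (1 : ℝ) ≤ P.len τ := by exact_mod_cast Place_len_pos P τ
    have h5 : ((P.len τ : ℝ) - 1) * (P.sz τ * (1 / P.sz τ + 1 / P.sz τ)) ≤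
        ((P.len τ : ℝ) - 1) * 2 := by
      refine mul_le_mul_of_nonneg_left ?_ (by linarith)
      linarith
    linarith
  · have h1 : ∑ i, ∑ j, ((P.b i : ℝ) + P.b j) = 2 * m * ∑ i, (P.b i : ℝ) := by
      simp only [sum_add_distrib, sum_const, card_univ, Fintype.card_fin, nsmul_eq_mul]
      rw [← mul_sum]
      ring
    rw [← h1]
    refine sum_le_sum fun i _ => sum_le_sum fun j _ => ?_
    show (if i < j ∧ 0 < p i j then (P.b i : ℝ) * P.b j else 0) * (1 / P.b i + 1 / P.b j) ≤ _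
    split_ifs
    · have h2 := Place_mul_inv_le (P.b i)
      have h3 := Place_mul_inv_le (P.b j)
      have h4 : (0 : ℝ) ≤ P.b i := by positivity
      have h5 : (0 : ℝ) ≤ P.b j := by positivity
      calc (P.b i : ℝ) * P.b j * (1 / P.b i + 1 / P.b j) =
            P.b j * (P.b i * (1 / P.b i)) + P.b i * (P.b j * (1 / P.b j)) := by ring
        _ ≤ P.b j * 1 + P.b i * 1 := by gcongr
        _ = _ := by ring
    · rw [zero_mul]
      positivity

private lemma Place_pos {δ ε : ℝ} {V : Type} {G : SimpleGraph V} {cl : Fin m → Fin N → V}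
    (hS : Sys G m N cl p δ ε) (P : Plan m N p) (x : PlaceLnk P) (hx : PlaceW P x ≠ 0) :
    0 < p (PlaceClu P (PlaceL P x)) (PlaceClu P (PlaceR P x)) := by
  rcases x with ⟨τ, t⟩ | τ | τ | z
  · obtain ⟨hw, hc⟩ := P.route τ
    have h := (Place_chain hw hc).2.1 t (by have := t.2; unfold Plan.len at this; omega)
    show 0 < p (P.pos τ (PlaceIdx P τ t)) (P.pos τ (PlaceIdx P τ (t + 1)))
    rw [Place_idx_val P τ (by have := t.2; omega), Place_idx_val P τ (by have := t.2; omega)]
    exact h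
  · obtain ⟨hw, hc⟩ := P.route τ
    have h := (Place_chain hw hc).1
    show 0 < p (P.src τ) (P.pos τ (PlaceIdx P τ 0))
    rw [Place_idx_val P τ (Place_len_pos P τ)]
    exact h
  · obtain ⟨hw, hc⟩ := P.route τ
    have h := (Place_chain hw hc).2.2
    show 0 < p (P.dst τ) (P.pos τ (PlaceIdx P τ (P.len τ - 1)))
    have := Place_len_pos P τ
    rw [Place_idx_val P τ (by omega), hS.symm]
    exact h
  · have h : ¬ (if z.1 < z.2 ∧ 0 < p z.1 z.2 then (P.b z.1 : ℝ) * P.b z.2 else 0) = 0 := hx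
    by_contra h0
    apply h
    rw [if_neg]
    intro h'
    exact h0 h'.2

theorem place {V : Type} (G : SimpleGraph V) {m N : ℕ} {cl : Fin m → Fin N → V}
    {p : Fin m → Fin m → ℝ} {δ ε : ℝ} (hS : Sys G m N cl p δ ε) (hε : 0 ≤ ε) (P : Plan m N p)
    (Ξ : ℝ) (hΞ : q4 P.wt ^ 3 * q4 (ε * P.wt + P.low) ≤ Ξ) :
    ∃ (a : (τ : Fin P.q) → ℕ → Fin (P.sz τ) → V) (u : (i : Fin m) → Fin (P.b i) → V),
      Function.Injective (fun z : (Σ i, Fin (P.b i)) => u z.1 z.2) ∧
      (∀ τ t x τ' t' x', t < P.len τ → t' < P.len τ' → a τ t x = a τ' t' x' →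
        t = t' ∧ (⟨τ, x⟩ : Σ τ, Fin (P.sz τ)) = ⟨τ', x'⟩) ∧
      (∀ τ t x i r, t < P.len τ → a τ t x ≠ u i r) ∧
      (∀ τ t x, t < P.len τ → ∃ i n, a τ t x = cl i n) ∧ (∀ i r, ∃ i' n, u i r = cl i' n) ∧
      (∑ τ, (P.sz τ : ℝ) * (∑ t ∈ range (P.len τ - 1),
            q4 (rel G (p (P.pos τ t) (P.pos τ (t + 1))) (a τ t) (a τ (t + 1))) +
          q4 (rel G (p (P.src τ) (P.pos τ 0)) (u (P.src τ)) (a τ 0)) +
          q4 (rel G (p (P.dst τ) (P.pos τ (P.len τ - 1))) (u (P.dst τ)) (a τ (P.len τ - 1))))) +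
        ∑ i, ∑ j, (if i < j ∧ 0 < p i j then
          (P.b i : ℝ) * P.b j * q4 (rel G (p i j) (u i) (u j)) else 0) ≤ Ξ := by
  obtain ⟨A, hA, hcl, hrel⟩ := sampling G hS hε (PlaceSize P) (PlaceClu P) (Place_fit P)
    (PlaceL P) (PlaceR P) (PlaceW P) (Place_W_nonneg P) (Place_pos hS P)
  refine ⟨fun τ t => A (.inl ⟨τ, PlaceIdx P τ t⟩), fun i => A (.inr i), ?_, ?_, ?_, ?_, ?_, ?_⟩
  · rintro ⟨i, r⟩ ⟨i', r'⟩ h
    have h1 : (⟨.inr i, r⟩ : Σ β, Fin (PlaceSize P β)) = ⟨.inr i', r'⟩ := hA h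
    obtain ⟨h2, h3⟩ := Sigma.mk.inj_iff.1 h1
    obtain rfl : i = i' := Sum.inr_injective h2
    have h4 : r = r' := eq_of_heq h3
    rw [h4]
  · intro τ t x τ' t' x' ht ht' h
    have h1 : (⟨.inl ⟨τ, PlaceIdx P τ t⟩, x⟩ : Σ β, Fin (PlaceSize P β)) =
        ⟨.inl ⟨τ', PlaceIdx P τ' t'⟩, x'⟩ := hA h
    obtain ⟨h2, h3⟩ := Sigma.mk.inj_iff.1 h1
    obtain ⟨h5, h6⟩ := Sigma.mk.inj_iff.1 (Sum.inl_injective h2)
    subst h5
    have h7 := congrArg Fin.val (eq_of_heq h6)
    rw [Place_idx_val P τ ht, Place_idx_val P τ ht'] at h7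
    subst h7
    have h8 : x = x' := eq_of_heq h3
    exact ⟨rfl, by rw [h8]⟩
  · intro τ t x i r _ h
    have h1 : (⟨.inl ⟨τ, PlaceIdx P τ t⟩, x⟩ : Σ β, Fin (PlaceSize P β)) = ⟨.inr i, r⟩ := hA h
    exact absurd (Sigma.mk.inj_iff.1 h1).1 (by simp)
  · intro τ t x _
    obtain ⟨n, hn⟩ := hcl (.inl ⟨τ, PlaceIdx P τ t⟩) x
    exact ⟨_, n, hn⟩
  · intro i r
    obtain ⟨n, hn⟩ := hcl (.inr i) r
    exact ⟨_, n, hn⟩
  · set R : PlaceLnk P → ℝ := fun x =>
      rel G (p (PlaceClu P (PlaceL P x)) (PlaceClu P (PlaceR P x))) (A (PlaceL P x))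
        (A (PlaceR P x)) with hR
    have hR0 : ∀ x, 0 ≤ R x := by
      intro x
      simp only [hR]
      unfold rel
      have := c4_nonneg (dev G (p (PlaceClu P (PlaceL P x)) (PlaceClu P (PlaceR P x)))
        (A (PlaceL P x)) (A (PlaceR P x)))
      positivity
    have key := holder4 univ (PlaceW P) R (fun x _ => Place_W_nonneg P x) (fun x _ => hR0 x)
    have hlhs : (∑ τ, (P.sz τ : ℝ) * (∑ t ∈ range (P.len τ - 1),
            q4 (rel G (p (P.pos τ t) (P.pos τ (t + 1))) (A (.inl ⟨τ, PlaceIdx P τ t⟩))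
              (A (.inl ⟨τ, PlaceIdx P τ (t + 1)⟩))) +
          q4 (rel G (p (P.src τ) (P.pos τ 0)) (A (.inr (P.src τ)))
            (A (.inl ⟨τ, PlaceIdx P τ 0⟩))) +
          q4 (rel G (p (P.dst τ) (P.pos τ (P.len τ - 1))) (A (.inr (P.dst τ)))
            (A (.inl ⟨τ, PlaceIdx P τ (P.len τ - 1)⟩))))) +
        ∑ i, ∑ j, (if i < j ∧ 0 < p i j then
          (P.b i : ℝ) * P.b j * q4 (rel G (p i j) (A (.inr i)) (A (.inr j))) else 0) =
        ∑ x, PlaceW P x * q4 (R x) := by
      rw [Place_sum]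
      congr 1
      · refine sum_congr rfl fun τ _ => ?_
        have hlen := Place_len_pos P τ
        rw [mul_add, mul_add, sum_range, mul_sum]
        congr 1
        · congr 1
          · refine sum_congr rfl fun t _ => ?_
            have e1 := Place_idx_val P τ (t := t) (by have := t.2; omega)
            have e2 := Place_idx_val P τ (t := t + 1) (by have := t.2; omega)
            show _ = (P.sz τ : ℝ) * q4 (rel G (p (P.pos τ (PlaceIdx P τ t))
              (P.pos τ (PlaceIdx P τ (t + 1)))) (A (.inl ⟨τ, PlaceIdx P τ t⟩))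
              (A (.inl ⟨τ, PlaceIdx P τ (t + 1)⟩)))
            rw [e1, e2]
          · have e1 := Place_idx_val P τ hlen
            show _ = (P.sz τ : ℝ) * q4 (rel G (p (P.src τ) (P.pos τ (PlaceIdx P τ 0)))
              (A (.inr (P.src τ))) (A (.inl ⟨τ, PlaceIdx P τ 0⟩)))
            rw [e1]
        · have e1 := Place_idx_val P τ (t := P.len τ - 1) (by omega)
          show _ = (P.sz τ : ℝ) * q4 (rel G (p (P.dst τ)
            (P.pos τ (PlaceIdx P τ (P.len τ - 1)))) (A (.inr (P.dst τ)))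
            (A (.inl ⟨τ, PlaceIdx P τ (P.len τ - 1)⟩)))
          rw [e1]
      · refine sum_congr rfl fun i _ => sum_congr rfl fun j _ => ?_
        show _ = (if i < j ∧ 0 < p i j then (P.b i : ℝ) * P.b j else 0) *
          q4 (rel G (p i j) (A (.inr i)) (A (.inr j)))
        split_ifs
        · rfl
        · rw [zero_mul]
    refine le_trans (le_of_eq hlhs) (key.trans (le_trans ?_ hΞ))
    have h1 : ∑ x, PlaceW P x * R x ≤ ε * P.wt + P.low := by
      refine le_trans hrel ?_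
      have h2 : ∑ x, PlaceW P x * (ε + 1 / (PlaceSize P (PlaceL P x) : ℝ) +
          1 / PlaceSize P (PlaceR P x)) = ε * ∑ x, PlaceW P x +
          ∑ x, PlaceW P x * (1 / (PlaceSize P (PlaceL P x) : ℝ) +
            1 / PlaceSize P (PlaceR P x)) := by
        rw [mul_sum, ← sum_add_distrib]
        exact sum_congr rfl fun x _ => by ring
      rw [h2]
      exact add_le_add (mul_le_mul_of_nonneg_left (Place_wt P) hε) (Place_low P)
    exact mul_le_mul (pow_le_pow_left₀ (q4_nonneg _) (q4_mono (Place_wt P)) 3) (q4_mono h1)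
      (q4_nonneg _) (pow_nonneg (q4_nonneg _) 3)

end

end Pool.Agent.H25.TD
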