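import Pool.Agent.H25.TD.Wire
import Pool.Agent.H25.TD.Ends

/-!
The matching between pairs of branch vertices of type `(i,j)` and strings.

PROOF of `plan_match`. Fix `i <= j`. `Pr` = the pairs `(r,r')` in `Fin (b i) × Fin (b j)` that are
not adjacent, and with `r < r'` (as numbers) if `i = j`. Apply `pair_match` with
`Θ = {τ // src τ = i ∧ dst τ = j}`, `A τ = a τ 0`, `A' τ = a τ (len τ - 1)`,
`d τ = p i (pos τ 0)`, `d' τ = p j (pos τ (len-1))` (all at least `δ`: chain condition, gap,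
symmetry) and `Sg` = the `(τ,x)` with `x ∉ Bd τ`, so `|Sg| = avail i j - Σ_Θ |Bd τ|`.
If `i < j`: `|Pr| <= (1-p) b_i b_j + [0 < p i j] b_i b_j q4 rel` (`nonadj_count`; trivial if
`p i j = 0`); if `i = j`: `|Pr| <= b_i²/2`. So the number of unmatched pairs is at most
`max 0 (demand - avail) + [i<j, 0<p] b_i b_j q4 rel + Σ_Θ |Bd τ| + √(2 b_i b_j K_ij)/δ` with
`K_ij = Σ_Θ sz τ (q4 rel + q4 rel)`.
-/

namespace Pool.Agent.H25.TD

open Finset Pool.Agent.H25.TK
open scoped Classical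

noncomputable section

private lemma pm_card_lt (b : ℕ) (s : Finset (Fin b × Fin b))
    (hs : ∀ z ∈ s, (z.1 : ℕ) < z.2) : (s.card : ℝ) ≤ (b : ℝ) ^ 2 / 2 := by
  have h1 : Disjoint s (s.image Prod.swap) := by
    rw [Finset.disjoint_left]
    intro z hz hz'
    rw [Finset.mem_image] at hz'
    obtain ⟨y, hy, hyz⟩ := hz'
    have e1 := hs _ hz
    have e2 := hs _ hy
    rw [← hyz] at e1
    simp only [Prod.fst_swap, Prod.snd_swap] at e1
    omega
  have h2 : (s.image Prod.swap).card = s.card :=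
    Finset.card_image_of_injective _ Prod.swap_injective
  have h3 := Finset.card_le_univ (s ∪ s.image Prod.swap)
  rw [Finset.card_union_of_disjoint h1, h2, Fintype.card_prod, Fintype.card_fin] at h3
  have h4 : ((s.card : ℝ) + s.card) ≤ (b : ℝ) * b := by exact_mod_cast h3
  nlinarith

private lemma pm_rel_cast {V T : Type} [Fintype T] (G : SimpleGraph V) {m : ℕ}
    {f : Fin m → ℕ} (d : ℝ) (u : (i : Fin m) → Fin (f i) → V) {i i' : Fin m} (h : i = i')
    (A : T → V) : rel G d (u i) A = rel G d (u i') A := by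
  subst h; rfl

private lemma pm_chain_head {m : ℕ} {p : Fin m → Fin m → ℝ} {i j : Fin m} {w : List (Fin m)}
    (h : IsRoute p i j w) (d : Fin m) : 0 < p i (w.getD 0 d) := by
  obtain ⟨h1, h2⟩ := h
  cases w with
  | nil => exact absurd rfl h1
  | cons c w =>
    rw [List.cons_append, List.isChain_cons_cons] at h2
    simpa using h2.1

private lemma pm_chain_last {m : ℕ} {p : Fin m → Fin m → ℝ} {i j : Fin m} {w : List (Fin m)}
    (h : IsRoute p i j w) (d : Fin m) : 0 < p (w.getD (w.length - 1) d) j := by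
  obtain ⟨h1, h2⟩ := h
  have h3 : List.IsChain (fun a b => 0 < p a b) (w ++ [j]) := by
    cases w with
    | nil => exact absurd rfl h1
    | cons c w =>
      rw [List.cons_append, List.isChain_cons_cons] at h2
      exact h2.2
  obtain ⟨w', c, rfl⟩ : ∃ w' c, w = w' ++ [c] :=
    ⟨w.dropLast, w.getLast h1, (List.dropLast_append_getLast h1).symm⟩
  rw [List.append_assoc] at h3
  have h4 : List.IsChain (fun a b => 0 < p a b) ([c] ++ [j]) := h3.right_of_append
  have h5 : 0 < p c j := by simpa using h4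
  simpa [List.getD_append_right] using h5

/-- The matching for the pairs of type `(i,j)`. -/
theorem plan_match {V : Type} (G : SimpleGraph V) {m N : ℕ} {cl : Fin m → Fin N → V}
    {p : Fin m → Fin m → ℝ} {δ ε : ℝ} (hS : Sys G m N cl p δ ε) (hδ : 0 < δ) (hδ1 : δ ≤ 1)
    (P : Plan m N p) (Ξ : ℝ) (a : (τ : Fin P.q) → ℕ → Fin (P.sz τ) → V)
    (u : (i : Fin m) → Fin (P.b i) → V) (Bd : (τ : Fin P.q) → Finset (Fin (P.sz τ)))
    (hW : Wired G cl p δ Ξ P a u Bd) (i j : Fin m) (hij : i ≤ j) :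
    ∃ M : Fin (P.b i) × Fin (P.b j) → Option (Σ τ, Fin (P.sz τ)),
      (∀ z x, M z = some x → P.src x.1 = i ∧ P.dst x.1 = j ∧ x.2 ∉ Bd x.1 ∧
        G.Adj (u i z.1) (a x.1 0 x.2) ∧ G.Adj (u j z.2) (a x.1 (P.len x.1 - 1) x.2)) ∧
      (∀ z z' x, M z = some x → M z' = some x → z = z') ∧
      ((univ.filter (fun z : Fin (P.b i) × Fin (P.b j) => (i = j → (z.1 : ℕ) < z.2) ∧
          ¬ G.Adj (u i z.1) (u j z.2) ∧ M z = none)).card : ℝ) ≤
        (if i < j then max 0 ((1 - p i j) * ((P.b i : ℝ) * P.b j) - P.avail i j)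
          else max 0 ((P.b i : ℝ) ^ 2 / 2 - P.avail i i)) +
        (if i < j ∧ 0 < p i j then (P.b i : ℝ) * P.b j * q4 (rel G (p i j) (u i) (u j)) else 0) +
        (∑ τ, if P.src τ = i ∧ P.dst τ = j then ((Bd τ).card : ℝ) else 0) +
        √((P.b i : ℝ) * P.b j * (2 * ∑ τ, if P.src τ = i ∧ P.dst τ = j then (P.sz τ : ℝ) *
          (q4 (rel G (p (P.src τ) (P.pos τ 0)) (u (P.src τ)) (a τ 0)) +
          q4 (rel G (p (P.dst τ) (P.pos τ (P.len τ - 1))) (u (P.dst τ))
            (a τ (P.len τ - 1)))) else 0)) / δ := by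
  set Θ := {τ : Fin P.q // P.src τ = i ∧ P.dst τ = j} with hΘ
  have hgap := hS.gap
  have hd : ∀ θ : Θ, δ ≤ p (P.src θ.1) (P.pos θ.1 0) := fun θ =>
    hgap _ _ (pm_chain_head (P.route θ.1) _)
  have hd' : ∀ θ : Θ, δ ≤ p (P.dst θ.1) (P.pos θ.1 (P.len θ.1 - 1)) := fun θ => by
    rw [hS.symm]
    exact hgap _ _ (pm_chain_last (P.route θ.1) _)
  set Pr : Finset (Fin (P.b i) × Fin (P.b j)) :=
    univ.filter (fun z => (i = j → (z.1 : ℕ) < z.2) ∧ ¬ G.Adj (u i z.1) (u j z.2)) with hPr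
  set Sg : Finset (Σ θ : Θ, Fin (P.sz θ.1)) :=
    univ.filter (fun x => x.2 ∉ Bd x.1.1) with hSg
  obtain ⟨M, hM1, hM2, hM3⟩ := pair_match G (u i) (u j) (Θ := Θ) (fun θ => P.sz θ.1)
    (fun θ => a θ.1 0) (fun θ => a θ.1 (P.len θ.1 - 1)) (fun θ => p (P.src θ.1) (P.pos θ.1 0))
    (fun θ => p (P.dst θ.1) (P.pos θ.1 (P.len θ.1 - 1))) δ hδ hδ1 hd hd' Pr Sg
  -- sums over `Θ`
  have hsumΘ : ∀ F : Fin P.q → ℝ, ∑ θ : Θ, F θ.1 =
      ∑ τ, if P.src τ = i ∧ P.dst τ = j then F τ else 0 := by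
    intro F
    rw [← Finset.sum_filter]
    exact (Finset.sum_subtype _ (fun τ => by simp) F).symm
  -- the number of good strings
  have hSgc : (Sg.card : ℝ) = (P.avail i j : ℝ) -
      ∑ τ, if P.src τ = i ∧ P.dst τ = j then ((Bd τ).card : ℝ) else 0 := by
    have e1 : Sg = (univ : Finset Θ).sigma (fun θ => univ \ Bd θ.1) := by
      ext x
      simp [hSg]
    have e2 : ∀ θ : Θ, ((univ \ Bd θ.1).card : ℝ) = (P.sz θ.1 : ℝ) - (Bd θ.1).card := by
      intro θ
      rw [Finset.cast_card_sdiff (Finset.subset_univ _), Finset.card_univ, Fintype.card_fin]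
    rw [e1, Finset.card_sigma]
    push_cast
    rw [Finset.sum_congr rfl (fun θ _ => e2 θ), Finset.sum_sub_distrib,
      hsumΘ (fun τ => (P.sz τ : ℝ)), hsumΘ (fun τ => ((Bd τ).card : ℝ))]
    congr 1
    unfold Plan.avail
    push_cast
    rfl
  -- the number of pairs
  have hPrc : (Pr.card : ℝ) ≤
      (if i < j then (1 - p i j) * ((P.b i : ℝ) * P.b j) else (P.b i : ℝ) ^ 2 / 2) +
      (if i < j ∧ 0 < p i j then
        (P.b i : ℝ) * P.b j * q4 (rel G (p i j) (u i) (u j)) else 0) := by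
    rcases hij.lt_or_eq with hlt | heq
    · rw [if_pos hlt]
      by_cases hp : 0 < p i j
      · rw [if_pos ⟨hlt, hp⟩]
        refine le_trans ?_ (nonadj_count G (u i) (u j) (p i j))
        have : Pr ⊆ univ.filter (fun z : Fin (P.b i) × Fin (P.b j) =>
            ¬ G.Adj (u i z.1) (u j z.2)) := by
          intro z hz
          rw [hPr, Finset.mem_filter] at hz
          rw [Finset.mem_filter]
          exact ⟨Finset.mem_univ _, hz.2.2⟩
        exact_mod_cast Finset.card_le_card this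
      · rw [if_neg (fun h => hp h.2)]
        have h0 : p i j = 0 := le_antisymm (not_lt.1 hp) (hS.nonneg i j)
        rw [h0, sub_zero, one_mul, add_zero]
        have := Finset.card_le_univ Pr
        rw [Fintype.card_prod, Fintype.card_fin, Fintype.card_fin] at this
        exact_mod_cast this
    · subst heq
      rw [if_neg (lt_irrefl i), if_neg (fun h => lt_irrefl i h.1), add_zero]
      refine pm_card_lt _ Pr (fun z hz => ?_)
      rw [hPr, Finset.mem_filter] at hz
      exact hz.2.1 rfl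
  have hBd0 : 0 ≤ ∑ τ, if P.src τ = i ∧ P.dst τ = j then ((Bd τ).card : ℝ) else 0 :=
    Finset.sum_nonneg (fun τ _ => by split_ifs <;> positivity)
  have hq0 : 0 ≤ (if i < j ∧ 0 < p i j then
      (P.b i : ℝ) * P.b j * q4 (rel G (p i j) (u i) (u j)) else 0) := by
    split_ifs
    · unfold q4; positivity
    · exact le_rfl
  refine ⟨fun z => (M z).map (fun x => ⟨x.1.1, x.2⟩), ?_, ?_, ?_⟩
  · intro z x hx
    rw [Option.map_eq_some_iff] at hx
    obtain ⟨y, hy, rfl⟩ := hx
    obtain ⟨-, h2, h3, h4⟩ := hM1 z y hy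
    rw [hSg, Finset.mem_filter] at h2
    exact ⟨y.1.2.1, y.1.2.2, h2.2, h3, h4⟩
  · intro z z' x hx hx'
    rw [Option.map_eq_some_iff] at hx hx'
    obtain ⟨y, hy, hyx⟩ := hx
    obtain ⟨y', hy', hyx'⟩ := hx'
    have : y = y' := by
      rw [← hyx'] at hyx
      obtain ⟨⟨τ, h1⟩, x1⟩ := y
      obtain ⟨⟨τ', h1'⟩, x1'⟩ := y'
      simp only [Sigma.mk.injEq] at hyx
      obtain ⟨rfl, h2⟩ := hyx
      rw [heq_iff_eq] at h2
      subst h2
      rfl
    subst this
    exact hM2 z z' y hy hy'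
  · have hcard : (univ.filter (fun z : Fin (P.b i) × Fin (P.b j) => (i = j → (z.1 : ℕ) < z.2) ∧
          ¬ G.Adj (u i z.1) (u j z.2) ∧
          (fun z => (M z).map (fun x => (⟨x.1.1, x.2⟩ : Σ τ, Fin (P.sz τ)))) z = none)) =
        Pr.filter (fun z => M z = none) := by
      ext z
      simp only [hPr, Finset.mem_filter, Finset.mem_univ, true_and, Option.map_eq_none_iff]
      tauto
    rw [hcard]
    refine hM3.trans (add_le_add ?_ (le_of_eq ?_))
    · rw [hSgc]
      have key : ∀ x d av B q : ℝ, x ≤ d + q → 0 ≤ q → 0 ≤ B →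
          max 0 (x - (av - B)) ≤ max 0 (d - av) + q + B := by
        intro x d av B q h1 h2 h3
        refine max_le ?_ ?_
        · have := le_max_left 0 (d - av); linarith
        · have := le_max_right 0 (d - av); linarith
      by_cases hlt : i < j
      · rw [if_pos hlt] at hPrc ⊢
        exact key _ _ _ _ _ hPrc hq0 hBd0
      · rw [if_neg hlt] at hPrc ⊢
        have heq : i = j := le_antisymm hij (not_lt.1 hlt)
        have hav : (P.avail i i : ℝ) = P.avail i j := by rw [heq]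
        rw [hav]
        exact key _ _ _ _ _ hPrc hq0 hBd0
    · congr 2
      rw [show (2 : ℝ) * ((P.b i : ℝ) * P.b j) = (P.b i : ℝ) * P.b j * 2 by ring, mul_assoc]
      congr 2
      rw [← hsumΘ (fun τ => (P.sz τ : ℝ) *
          (q4 (rel G (p (P.src τ) (P.pos τ 0)) (u (P.src τ)) (a τ 0)) +
          q4 (rel G (p (P.dst τ) (P.pos τ (P.len τ - 1))) (u (P.dst τ))
            (a τ (P.len τ - 1)))))]
      refine Finset.sum_congr rfl (fun θ _ => ?_)
      rw [pm_rel_cast G _ u θ.2.1, pm_rel_cast G _ u θ.2.2]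

end

end Pool.Agent.H25.TD
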