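import Pool.Agent.H25.TD.Defs

/-!
The regularity lemma in the form used here.

PROOF. Mathlib: `szemeredi_regularity` for the graph `G.induce H` on the subtype `↥H`
(`M = max l (SzemerediRegularity.bound ε l)`), parts enumerated by `Fin m`
(`Finset.equivFin P.parts`) and mapped to `V`. `d i j` = the edge density if `i ≠ j`, the pair is
`ε`-uniform and the density is at least `δ`; `d i j = 0` otherwise.
`RegPair`: for `X ⊆ A`, `Y ⊆ B` with `|X| >= ε|A|`, `|Y| >= ε|B|`:
`|d(X,Y) - d(A,B)| < ε` times `|X||Y| <= |A||B|`; if `|X| < ε|A|` (or `|Y| < ε|B|`) then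
`|ee X Y - d |X||Y|| <= |X||Y| <= ε |A||B|` since both terms are in `[0, |X||Y|]`.
Sizes: `Finpartition.IsEquipartition` (`card_part_eq_average_or ...`,
`IsEquipartition.average_le_card_part`, `card_part_le_average_add_one`).
Edges: an adjacent ordered pair of `H` lies in a good pair of parts (then it is counted by
`d i j |P i||P j| = ee (P i) (P j)`), in a nonuniform pair
(`IsEquipartition.sum_nonUniforms_lt`: fewer than `4 ε |H|²`), in one part
(`IsEquipartition.card_biUnion_offDiag_le` with its `ε = 4/l`: at most `2/l |H|²`) or in a sparse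
pair (`IsEquipartition.card_interedges_sparsePairs_le`: at most `4 δ |H|²`).
-/

namespace Pool.Agent.H25.TD

open Finset Pool.Agent.H25.TK
open scoped Classical

noncomputable section

private abbrev RegCl_v {V : Type} (H : Finset V) : {x // x ∈ H} ↪ V := Function.Embedding.subtype _

private lemma RegCl_ee_map {V : Type} (G : SimpleGraph V) (H : Finset V)
    (X Y : Finset {x // x ∈ H}) :
    ee G (X.map (RegCl_v H)) (Y.map (RegCl_v H)) =
      ((G.comap (RegCl_v H)).interedges X Y).card := by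
  unfold ee
  rw [← Finset.card_map (Function.Embedding.prodMap (RegCl_v H) (RegCl_v H))]
  congr 1
  ext ⟨a, b⟩
  simp only [mem_filter, mem_product, mem_map, Prod.exists,
    SimpleGraph.mem_interedges_iff, SimpleGraph.comap_adj]
  constructor
  · rintro ⟨⟨⟨x, hx, rfl⟩, ⟨y, hy, rfl⟩⟩, h⟩
    exact ⟨x, y, ⟨hx, hy, h⟩, rfl⟩
  · rintro ⟨x, y, ⟨hx, hy, h⟩, e⟩
    have e' : ((RegCl_v H) x, (RegCl_v H) y) = (a, b) := e
    cases e'
    exact ⟨⟨⟨x, hx, rfl⟩, ⟨y, hy, rfl⟩⟩, h⟩

private lemma RegCl_dd {V : Type} [Fintype V] (G : SimpleGraph V) (H : Finset V) :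
    dd G H = ((G.comap (RegCl_v H)).interedges univ univ).card := by
  rw [← RegCl_ee_map]
  unfold dd ee
  have : (univ : Finset {x // x ∈ H}).map (RegCl_v H) = H := by
    ext x; simp
  rw [this]

private lemma RegCl_reg {V : Type} (G : SimpleGraph V) (H : Finset V) (ε : ℝ) (hε : 0 < ε)
    (A B : Finset {x // x ∈ H}) (h : (G.comap (RegCl_v H)).IsUniform ε A B) :
    RegPair G ε ((G.comap (RegCl_v H)).edgeDensity A B : ℝ) (A.map (RegCl_v H))
      (B.map (RegCl_v H)) := by
  intro X hX Y hY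
  obtain ⟨X', hX', rfl⟩ := Finset.subset_map_iff.1 hX
  obtain ⟨Y', hY', rfl⟩ := Finset.subset_map_iff.1 hY
  rw [RegCl_ee_map]
  simp only [card_map]
  set G' := G.comap (RegCl_v H) with hG'
  have e1 : ((G'.interedges X' Y').card : ℝ) = (G'.edgeDensity X' Y' : ℝ) * X'.card * Y'.card := by
    rw [SimpleGraph.edgeDensity_def]
    push_cast
    by_cases h0 : (X'.card : ℝ) * Y'.card = 0
    · have : (G'.interedges X' Y').card ≤ X'.card * Y'.card := G'.card_interedges_le_mul _ _
      have h2 : ((G'.interedges X' Y').card : ℝ) ≤ X'.card * Y'.card := by exact_mod_cast this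
      have h3 : ((G'.interedges X' Y').card : ℝ) = 0 := by
        have : (0:ℝ) ≤ (G'.interedges X' Y').card := by positivity
        linarith
      rw [h3]; simp
    · rw [mul_assoc, div_mul_cancel₀ _ h0]
  rw [e1]
  have c1 : (X'.card : ℝ) ≤ A.card := by exact_mod_cast card_le_card hX'
  have c2 : (Y'.card : ℝ) ≤ B.card := by exact_mod_cast card_le_card hY'
  have e2 : (G'.edgeDensity X' Y' : ℝ) * X'.card * Y'.card - (G'.edgeDensity A B : ℝ) * X'.card *
      Y'.card = ((G'.edgeDensity X' Y' : ℝ) - (G'.edgeDensity A B : ℝ)) * (X'.card * Y'.card) := by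
    ring
  rw [e2, abs_mul, abs_of_nonneg (by positivity : (0:ℝ) ≤ (X'.card : ℝ) * Y'.card)]
  have d1 : (0:ℝ) ≤ (G'.edgeDensity X' Y' : ℝ) := by exact_mod_cast G'.edgeDensity_nonneg _ _
  have d2 : (G'.edgeDensity X' Y' : ℝ) ≤ 1 := by exact_mod_cast G'.edgeDensity_le_one _ _
  have d3 : (0:ℝ) ≤ (G'.edgeDensity A B : ℝ) := by exact_mod_cast G'.edgeDensity_nonneg _ _
  have d4 : (G'.edgeDensity A B : ℝ) ≤ 1 := by exact_mod_cast G'.edgeDensity_le_one _ _
  have d5 : |(G'.edgeDensity X' Y' : ℝ) - (G'.edgeDensity A B : ℝ)| ≤ 1 := by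
    rw [abs_le]; constructor <;> linarith
  by_cases hx : (A.card : ℝ) * ε ≤ X'.card
  · by_cases hy : (B.card : ℝ) * ε ≤ Y'.card
    · have := (h hX' hY' hx hy).le
      calc |(G'.edgeDensity X' Y' : ℝ) - (G'.edgeDensity A B : ℝ)| * (X'.card * Y'.card)
          ≤ ε * (A.card * B.card) := by gcongr
        _ = ε * A.card * B.card := by ring
    · push Not at hy
      calc |(G'.edgeDensity X' Y' : ℝ) - (G'.edgeDensity A B : ℝ)| * (X'.card * Y'.card)
          ≤ 1 * (A.card * (B.card * ε)) := by gcongr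
        _ = ε * A.card * B.card := by ring
  · push Not at hx
    calc |(G'.edgeDensity X' Y' : ℝ) - (G'.edgeDensity A B : ℝ)| * (X'.card * Y'.card)
        ≤ 1 * ((A.card * ε) * B.card) := by gcongr
      _ = ε * A.card * B.card := by ring

theorem reg_clusters (ε δ : ℝ) (hε : 0 < ε) (hδ : 0 < δ) (l : ℕ) (hl : 1 ≤ l) :
    ∃ M : ℕ, l ≤ M ∧ ∀ (V : Type) [Fintype V] (G : SimpleGraph V) (H : Finset V), M ≤ H.card →
      ∃ (m : ℕ) (P : Fin m → Finset V) (d : Fin m → Fin m → ℝ), l ≤ m ∧ m ≤ M ∧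
        (∀ i j, i ≠ j → Disjoint (P i) (P j)) ∧ univ.biUnion P = H ∧
        (∀ i, H.card / m ≤ (P i).card ∧ (P i).card ≤ H.card / m + 1) ∧
        (∀ i j, d i j = d j i) ∧ (∀ i, d i i = 0) ∧ (∀ i j, 0 ≤ d i j ∧ d i j ≤ 1) ∧
        (∀ i j, 0 < d i j → δ ≤ d i j ∧ RegPair G ε (d i j) (P i) (P j)) ∧
        (dd G H : ℝ) ≤ ∑ i, ∑ j, d i j * ((P i).card * (P j).card) +
          (4 * ε + 4 * δ + 2 / l) * (H.card : ℝ) ^ 2 := by
  refine ⟨max l (SzemerediRegularity.bound ε l), le_max_left _ _, ?_⟩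
  intro V _ G H hM
  set W := {x // x ∈ H} with hW
  set G' : SimpleGraph W := G.comap (RegCl_v H) with hG'
  have hcW : Fintype.card W = H.card := by simp [hW]
  have hn1 : l ≤ Fintype.card W := by rw [hcW]; exact (le_max_left _ _).trans hM
  obtain ⟨Q, hQ1, hQ2, hQ3, hQ4⟩ := szemeredi_regularity G' hε hn1
  have hcu : (univ : Finset W).card = H.card := by rw [Finset.card_univ, hcW]
  have hne : (univ : Finset W).Nonempty := by
    rw [← Finset.card_pos, hcu]
    exact lt_of_lt_of_le hl ((le_max_left _ _).trans hM)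
  set m := Q.parts.card with hm
  set e := Q.parts.equivFin with he
  set U : Fin m → Finset W := fun i => (e.symm i).1 with hU
  have hUm : ∀ i, U i ∈ Q.parts := fun i => (e.symm i).2
  have hUinj : ∀ i j, i ≠ j → U i ≠ U j := by
    intro i j hij h
    exact hij (e.symm.injective (Subtype.ext h))
  have hUdisj : ∀ i j, i ≠ j → Disjoint (U i) (U j) := fun i j hij =>
    Q.disjoint (hUm i) (hUm j) (hUinj i j hij)
  have hUsurj : ∀ u ∈ Q.parts, ∃ i, U i = u := fun u hu => ⟨e ⟨u, hu⟩, by simp [hU]⟩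
  set good : Fin m → Fin m → Prop := fun i j => i ≠ j ∧ G'.IsUniform ε (U i) (U j) ∧
    δ ≤ (G'.edgeDensity (U i) (U j) : ℝ) with hgood
  set d : Fin m → Fin m → ℝ := fun i j =>
    if good i j then (G'.edgeDensity (U i) (U j) : ℝ) else 0 with hd
  have hden0 : ∀ A B : Finset W, (0:ℝ) ≤ (G'.edgeDensity A B : ℝ) := fun A B => by
    exact_mod_cast G'.edgeDensity_nonneg _ _
  have hden1 : ∀ A B : Finset W, (G'.edgeDensity A B : ℝ) ≤ 1 := fun A B => by
    exact_mod_cast G'.edgeDensity_le_one _ _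
  have hgs : ∀ i j, good i j → good j i := by
    rintro i j ⟨h1, h2, h3⟩
    refine ⟨h1.symm, h2.symm, ?_⟩
    rw [G'.edgeDensity_comm]; exact h3
  refine ⟨m, fun i => (U i).map (RegCl_v H), d, hQ2, hQ3.trans (le_max_right _ _), ?_, ?_, ?_, ?_,
    ?_, ?_, ?_, ?_⟩
  · intro i j hij
    exact (Finset.disjoint_map _).2 (hUdisj i j hij)
  · ext x
    simp only [mem_biUnion, mem_univ, true_and, mem_map]
    constructor
    · rintro ⟨i, y, hy, rfl⟩
      exact y.2
    · intro hx
      have h1 : (⟨x, hx⟩ : W) ∈ (univ : Finset W) := mem_univ _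
      obtain ⟨u, hu, hxu⟩ := Q.exists_mem h1
      obtain ⟨i, rfl⟩ := hUsurj u hu
      exact ⟨i, ⟨x, hx⟩, hxu, rfl⟩
  · intro i
    rw [card_map, ← hcu]
    exact ⟨hQ1.average_le_card_part (hUm i), hQ1.card_part_le_average_add_one (hUm i)⟩
  · intro i j
    simp only [hd]
    by_cases h : good i j
    · rw [if_pos h, if_pos (hgs i j h), G'.edgeDensity_comm]
    · rw [if_neg h, if_neg (fun h' => h (hgs j i h'))]
  · intro i
    simp [hd, hgood]
  · intro i j
    simp only [hd]
    split_ifs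
    · exact ⟨hden0 _ _, hden1 _ _⟩
    · exact ⟨le_refl _, zero_le_one⟩
  · intro i j hij
    have hg : good i j := by
      by_contra hng
      simp only [hd, if_neg hng] at hij
      exact lt_irrefl _ hij
    have hdij : d i j = (G'.edgeDensity (U i) (U j) : ℝ) := by simp only [hd, if_pos hg]
    refine ⟨by rw [hdij]; exact hg.2.2, ?_⟩
    rw [hdij]
    exact RegCl_reg G H ε hε (U i) (U j) hg.2.1
  · -- edges
    rw [RegCl_dd]
    set S1 : Finset (W × W) := (univ : Finset (Fin m × Fin m)).biUnion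
      (fun q => if good q.1 q.2 then G'.interedges (U q.1) (U q.2) else ∅) with hS1
    set S2 := (Q.nonUniforms G' ε).biUnion fun (U, V) ↦ U ×ˢ V with hS2
    set S3 := Q.parts.biUnion offDiag with hS3
    set S4 := (Q.sparsePairs G' δ).biUnion fun (U, V) ↦ G'.interedges U V with hS4
    have hsub : G'.interedges univ univ ⊆ ((S1 ∪ S2) ∪ S3) ∪ S4 := by
      rintro ⟨x, y⟩ hxy
      rw [SimpleGraph.mk_mem_interedges_iff] at hxy
      obtain ⟨-, -, hxy⟩ := hxy
      obtain ⟨u, hu, hxu⟩ := Q.exists_mem (mem_univ x)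
      obtain ⟨i, rfl⟩ := hUsurj u hu
      obtain ⟨v, hv, hyv⟩ := Q.exists_mem (mem_univ y)
      obtain ⟨j, rfl⟩ := hUsurj v hv
      by_cases hij : i = j
      · subst hij
        refine mem_union_left _ (mem_union_right _ ?_)
        rw [hS3, mem_biUnion]
        exact ⟨U i, hu, mem_offDiag.2 ⟨hxu, hyv, hxy.ne⟩⟩
      · by_cases hun : G'.IsUniform ε (U i) (U j)
        · by_cases hde : δ ≤ (G'.edgeDensity (U i) (U j) : ℝ)
          · refine mem_union_left _ (mem_union_left _ (mem_union_left _ ?_))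
            rw [hS1, mem_biUnion]
            refine ⟨(i, j), mem_univ _, ?_⟩
            have hg : good i j := ⟨hij, hun, hde⟩
            simp only [if_pos hg]
            rw [SimpleGraph.mk_mem_interedges_iff]
            exact ⟨hxu, hyv, hxy⟩
          · refine mem_union_right _ ?_
            rw [hS4, mem_biUnion]
            refine ⟨(U i, U j), ?_, ?_⟩
            · rw [Finpartition.mk_mem_sparsePairs]
              exact ⟨hu, hv, hUinj i j hij, lt_of_not_ge hde⟩
            · rw [SimpleGraph.mk_mem_interedges_iff]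
              exact ⟨hxu, hyv, hxy⟩
        · refine mem_union_left _ (mem_union_left _ (mem_union_right _ ?_))
          rw [hS2, mem_biUnion]
          refine ⟨(U i, U j), ?_, ?_⟩
          · rw [Finpartition.mk_mem_nonUniforms]
            exact ⟨hu, hv, hUinj i j hij, hun⟩
          · exact mk_mem_product hxu hyv
    have hc : ((G'.interedges univ univ).card : ℝ) ≤ S1.card + S2.card + S3.card + S4.card := by
      have h1 := card_le_card hsub
      have h2 := card_union_le ((S1 ∪ S2) ∪ S3) S4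
      have h3 := card_union_le (S1 ∪ S2) S3
      have h4 := card_union_le S1 S2
      have : (G'.interedges univ univ).card ≤ S1.card + S2.card + S3.card + S4.card := by omega
      exact_mod_cast this
    have b2 : (S2.card : ℝ) ≤ 4 * ε * (H.card : ℝ) ^ 2 := by
      have := (hQ1.sum_nonUniforms_lt hne hε hQ4).le
      rw [hcu] at this
      exact this
    have b3 : (S3.card : ℝ) ≤ 2 / l * (H.card : ℝ) ^ 2 := by
      have hl0 : (0:ℝ) < l := by exact_mod_cast hl
      have hh : (4:ℝ) / (4 / l) ≤ Q.parts.card := by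
        rw [div_div_eq_mul_div, mul_div_cancel_left₀ _ (by norm_num : (4:ℝ) ≠ 0)]
        exact_mod_cast hQ2
      have := Finpartition.IsEquipartition.card_biUnion_offDiag_le (𝕜 := ℝ)
        (ε := 4 / (l:ℝ)) (by positivity) hQ1 hh
      rw [hcu] at this
      calc (S3.card : ℝ) ≤ 4 / (l:ℝ) / 2 * (H.card : ℝ) ^ 2 := this
        _ = 2 / l * (H.card : ℝ) ^ 2 := by ring
    have b4 : (S4.card : ℝ) ≤ 4 * δ * (H.card : ℝ) ^ 2 := by
      have := hQ1.card_interedges_sparsePairs_le (G := G') hδ.le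
      rw [hcu] at this
      exact this
    have b1 : (S1.card : ℝ) ≤ ∑ i, ∑ j, d i j *
        ((((U i).map (RegCl_v H)).card : ℝ) * ((U j).map (RegCl_v H)).card) := by
      have h1 : (S1.card : ℝ) ≤ ∑ q : Fin m × Fin m,
          ((if good q.1 q.2 then G'.interedges (U q.1) (U q.2) else ∅).card : ℝ) := by
        exact_mod_cast card_biUnion_le
      rw [← Finset.univ_product_univ, Finset.sum_product] at h1
      refine h1.trans (sum_le_sum fun i _ => sum_le_sum fun j _ => ?_)
      rw [card_map, card_map]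
      simp only [hd]
      split_ifs with hg
      · rw [SimpleGraph.edgeDensity_def]
        push_cast
        have p1 : (0:ℝ) < (U i).card := by
          exact_mod_cast (Q.nonempty_of_mem_parts (hUm i)).card_pos
        have p2 : (0:ℝ) < (U j).card := by
          exact_mod_cast (Q.nonempty_of_mem_parts (hUm j)).card_pos
        rw [div_mul_cancel₀ _ (by positivity)]
      · simp
    calc ((G'.interedges univ univ).card : ℝ) ≤ S1.card + S2.card + S3.card + S4.card := hc
      _ ≤ _ := by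
        have : (4 * ε + 4 * δ + 2 / l) * (H.card : ℝ) ^ 2 = 4 * ε * (H.card : ℝ) ^ 2 +
          4 * δ * (H.card : ℝ) ^ 2 + 2 / l * (H.card : ℝ) ^ 2 := by ring
        rw [this]
        linarith

private lemma RegCl_cut {N : ℕ} (D : Fin N → Fin N → ℝ) (C : ℝ)
    (h : ∀ S T : Finset (Fin N), |∑ a ∈ S, ∑ b ∈ T, D a b| ≤ C) (S T : Finset (Fin N)) (d : ℝ)
    (hd : 0 ≤ d) (hd1 : d ≤ 1) :
    |∑ a, ∑ b, D a b * (((if a ∈ S then 1 else 0) - d) * ((if b ∈ T then 1 else 0) - d))| ≤ C := by
  have hF : ∀ S T : Finset (Fin N), ∑ a ∈ S, ∑ b ∈ T, D a b =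
      ∑ a, ∑ b, D a b * ((if a ∈ S then 1 else 0) * (if b ∈ T then 1 else 0)) := by
    intro S T
    rw [← Finset.sum_filter_add_sum_filter_not univ (fun a => a ∈ S)
      (fun a => ∑ b, D a b * ((if a ∈ S then (1:ℝ) else 0) * (if b ∈ T then 1 else 0)))]
    have h2 : ∑ a ∈ univ.filter (fun a => ¬ a ∈ S),
        ∑ b, D a b * ((if a ∈ S then (1:ℝ) else 0) * (if b ∈ T then 1 else 0)) = 0 := by
      refine sum_eq_zero fun a ha => sum_eq_zero fun b _ => ?_
      rw [if_neg (mem_filter.1 ha).2]; ring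
    rw [h2, add_zero]
    have h3 : univ.filter (fun a => a ∈ S) = S := by ext; simp
    rw [h3]
    refine sum_congr rfl fun a ha => ?_
    rw [← Finset.sum_filter_add_sum_filter_not univ (fun b => b ∈ T)
      (fun b => D a b * ((if a ∈ S then (1:ℝ) else 0) * (if b ∈ T then 1 else 0)))]
    have h4 : ∑ b ∈ univ.filter (fun b => ¬ b ∈ T),
        D a b * ((if a ∈ S then (1:ℝ) else 0) * (if b ∈ T then 1 else 0)) = 0 := by
      refine sum_eq_zero fun b hb => ?_
      rw [if_neg (mem_filter.1 hb).2]; ring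
    have h5 : univ.filter (fun b => b ∈ T) = T := by ext; simp
    rw [h4, add_zero, h5]
    refine sum_congr rfl fun b hb => ?_
    rw [if_pos ha, if_pos hb]; ring
  have hexp : ∑ a, ∑ b, D a b * (((if a ∈ S then 1 else 0) - d) * ((if b ∈ T then 1 else 0) - d)) =
      (1 - d) ^ 2 * (∑ a ∈ S, ∑ b ∈ T, D a b) - d * (1 - d) * (∑ a ∈ S, ∑ b ∈ Tᶜ, D a b) -
      d * (1 - d) * (∑ a ∈ Sᶜ, ∑ b ∈ T, D a b) + d ^ 2 * (∑ a ∈ Sᶜ, ∑ b ∈ Tᶜ, D a b) := by
    rw [hF, hF, hF, hF]
    simp only [Finset.mul_sum, ← Finset.sum_sub_distrib, ← Finset.sum_add_distrib]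
    refine sum_congr rfl fun a _ => sum_congr rfl fun b _ => ?_
    simp only [mem_compl]
    by_cases ha : a ∈ S <;> by_cases hb : b ∈ T <;> simp [ha, hb] <;> ring
  rw [hexp]
  have k1 := abs_le.1 (h S T)
  have k2 := abs_le.1 (h S Tᶜ)
  have k3 := abs_le.1 (h Sᶜ T)
  have k4 := abs_le.1 (h Sᶜ Tᶜ)
  have w1 : 0 ≤ (1 - d) ^ 2 := by positivity
  have w2 : 0 ≤ d * (1 - d) := mul_nonneg hd (by linarith)
  have w4 : 0 ≤ d ^ 2 := by positivity
  rw [abs_le]
  constructor
  · nlinarith [mul_nonneg w1 (sub_nonneg.2 k1.1), mul_nonneg w2 (sub_nonneg.2 k2.2),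
      mul_nonneg w2 (sub_nonneg.2 k3.2), mul_nonneg w4 (sub_nonneg.2 k4.1)]
  · nlinarith [mul_nonneg w1 (sub_nonneg.2 k1.2), mul_nonneg w2 (sub_nonneg.2 k2.1),
      mul_nonneg w2 (sub_nonneg.2 k3.1), mul_nonneg w4 (sub_nonneg.2 k4.2)]

/-- Regular pairs of trimmed clusters have small 4-cycle functional. -/
theorem c4_of_regPair {V : Type} (G : SimpleGraph V) (ε d : ℝ) (hd : 0 ≤ d) (hd1 : d ≤ 1)
    (A B : Finset V) (h : RegPair G ε d A B) {N : ℕ} (f g : Fin N → V)
    (hf : Function.Injective f) (hg : Function.Injective g) (hfA : ∀ n, f n ∈ A)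
    (hgB : ∀ n, g n ∈ B) :
    c4 (dev G d f g) ≤ 4 * (ε * A.card * B.card) * (N : ℝ) ^ 2 := by
  have hC0 : 0 ≤ ε * A.card * B.card := by
    have := h ∅ (empty_subset _) ∅ (empty_subset _)
    simpa [ee] using this
  have hcut : ∀ S T : Finset (Fin N), |∑ a ∈ S, ∑ b ∈ T, dev G d f g a b| ≤
      ε * A.card * B.card := by
    intro S T
    have h1 := h (S.image f) (by
      intro x hx
      obtain ⟨n, -, rfl⟩ := mem_image.1 hx
      exact hfA n) (T.image g) (by
      intro x hx
      obtain ⟨n, -, rfl⟩ := mem_image.1 hx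
      exact hgB n)
    rw [card_image_of_injective _ hf, card_image_of_injective _ hg] at h1
    have h2 : (ee G (S.image f) (T.image g) : ℝ) =
        ∑ a ∈ S, ∑ b ∈ T, (if G.Adj (f a) (g b) then (1:ℝ) else 0) := by
      unfold ee
      rw [Finset.card_filter, Finset.sum_product]
      push_cast
      rw [Finset.sum_image (fun a _ a' _ haa => hf haa)]
      refine sum_congr rfl fun a _ => ?_
      rw [Finset.sum_image (fun a _ a' _ haa => hg haa)]
    have h3 : ∑ a ∈ S, ∑ b ∈ T, dev G d f g a b =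
        (ee G (S.image f) (T.image g) : ℝ) - d * S.card * T.card := by
      rw [h2]
      unfold dev
      simp only [Finset.sum_sub_distrib, Finset.sum_const, nsmul_eq_mul]
      ring
    rw [h3]
    exact h1
  have hdev : ∀ a b, |dev G d f g a b| ≤ 1 := by
    intro a b
    unfold dev
    rw [abs_le]
    split_ifs <;> constructor <;> linarith
  have hswap : c4 (dev G d f g) = ∑ a', ∑ b', dev G d f g a' b' *
      ∑ a, ∑ b, dev G d f g a b * (dev G d f g a b' * dev G d f g a' b) := by
    unfold c4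
    simp only [Finset.mul_sum]
    rw [Finset.sum_comm]
    refine sum_congr rfl fun a' _ => ?_
    calc ∑ a, (∑ b, dev G d f g a b * dev G d f g a' b) ^ 2
        = ∑ a, ∑ b, ∑ b', dev G d f g a b * dev G d f g a' b *
          (dev G d f g a b' * dev G d f g a' b') := sum_congr rfl fun a _ => by
            rw [sq, Finset.sum_mul_sum]
      _ = ∑ a, ∑ b', ∑ b, dev G d f g a b * dev G d f g a' b *
          (dev G d f g a b' * dev G d f g a' b') := sum_congr rfl fun a _ => Finset.sum_comm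
      _ = ∑ b', ∑ a, ∑ b, dev G d f g a b * dev G d f g a' b *
          (dev G d f g a b' * dev G d f g a' b') := Finset.sum_comm
      _ = _ := by
          refine sum_congr rfl fun b' _ => sum_congr rfl fun a _ => sum_congr rfl fun b _ => ?_
          ring
  have hin : ∀ a' b', |∑ a, ∑ b, dev G d f g a b * (dev G d f g a b' * dev G d f g a' b)| ≤
      ε * A.card * B.card := by
    intro a' b'
    have := RegCl_cut (dev G d f g) _ hcut (univ.filter (fun a => G.Adj (f a) (g b')))
      (univ.filter (fun b => G.Adj (f a') (g b))) d hd hd1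
    simp only [mem_filter, mem_univ, true_and] at this
    exact this
  rw [hswap]
  calc ∑ a', ∑ b', dev G d f g a' b' *
      ∑ a, ∑ b, dev G d f g a b * (dev G d f g a b' * dev G d f g a' b)
      ≤ ∑ a' : Fin N, ∑ b' : Fin N, ε * A.card * B.card := by
        refine sum_le_sum fun a' _ => sum_le_sum fun b' _ => ?_
        refine (le_abs_self _).trans ?_
        rw [abs_mul]
        calc _ ≤ 1 * (ε * A.card * B.card) :=
              mul_le_mul (hdev _ _) (hin _ _) (abs_nonneg _) zero_le_one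
          _ = _ := one_mul _
    _ = (ε * A.card * B.card) * (N:ℝ) ^ 2 := by
        simp only [Finset.sum_const, Finset.card_univ, Fintype.card_fin, nsmul_eq_mul]
        ring
    _ ≤ 4 * (ε * A.card * B.card) * (N : ℝ) ^ 2 := by
        have : 0 ≤ (ε * A.card * B.card) * (N:ℝ) ^ 2 := by positivity
        linarith

end

end Pool.Agent.H25.TD
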