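import Pool.Agent.H25.TD.Slots

/-!
Random placement of disjoint blocks in the clusters.

PROOF of `sampling`. Let `ψ` be the map of `slots`. For `π : Fin m → Perm (Fin N)` put
`A β s = cl (clu β) (π (clu β) (ψ β s))`: injective for every `π`. Sum the left side over all `π`
(there are `(N!)^m`): for a link `x` with `W x ≠ 0` the two clusters `i = clu (l x)`,
`j = clu (r x)` are different (`p_ii = 0`), so by `two_coord` and `c4_perm_avg`
(`C = ε`, `|dev| <= 1`) the average of `c4` of the pair of blocks is at most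
`s²t² ε + s t² + s² t`; divide by `s² t²`. Hence some `π` is at most the average.
(Blocks of size `0`: `rel = 0`; if `N = 0` all blocks are empty.)
-/

namespace Pool.Agent.H25.TD

open Finset Pool.Agent.H25.TK
open scoped Classical

noncomputable section

private lemma sampling_div {s t C : ℝ} {K c : ℝ} (hs : 0 < s) (ht : 0 < t)
    (h : c ≤ K * (s ^ 2 * t ^ 2 * C + s * t ^ 2 + s ^ 2 * t)) :
    c / (s ^ 2 * t ^ 2) ≤ K * (C + 1 / s + 1 / t) := by
  rw [div_le_iff₀ (by positivity)]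
  refine h.trans (le_of_eq ?_)
  field_simp

private lemma sampling_link {V : Type} (G : SimpleGraph V) {m N : ℕ} {cl : Fin m → Fin N → V}
    {p : Fin m → Fin m → ℝ} {δ ε : ℝ} (hS : Sys G m N cl p δ ε) (hε : 0 ≤ ε)
    {i j : Fin m} (hij : 0 < p i j) {s t : ℕ} (ι : Fin s → Fin N) (hι : Function.Injective ι)
    (ι' : Fin t → Fin N) (hι' : Function.Injective ι') :
    ∑ π : Fin m → Equiv.Perm (Fin N),
      rel G (p i j) (fun a => cl i (π i (ι a))) (fun b => cl j (π j (ι' b))) ≤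
      (Fintype.card (Fin m → Equiv.Perm (Fin N)) : ℝ) * (ε + 1 / s + 1 / t) := by
  have hne : i ≠ j := by
    rintro rfl
    rw [hS.self] at hij
    exact lt_irrefl _ hij
  have hK : (0 : ℝ) < (Fintype.card (Fin m → Equiv.Perm (Fin N)) : ℝ) := by
    have : 0 < Fintype.card (Fin m → Equiv.Perm (Fin N)) := Fintype.card_pos
    exact_mod_cast this
  rcases Nat.eq_zero_or_pos s with hs | hs
  · subst hs
    have : ∀ π : Fin m → Equiv.Perm (Fin N),
        rel G (p i j) (fun a => cl i (π i (ι a))) (fun b => cl j (π j (ι' b))) = 0 := by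
      intro π
      simp [rel]
    rw [Finset.sum_congr rfl (fun π _ => this π), Finset.sum_const_zero]
    positivity
  rcases Nat.eq_zero_or_pos t with ht | ht
  · subst ht
    have : ∀ π : Fin m → Equiv.Perm (Fin N),
        rel G (p i j) (fun a => cl i (π i (ι a))) (fun b => cl j (π j (ι' b))) = 0 := by
      intro π
      simp [rel]
    rw [Finset.sum_congr rfl (fun π _ => this π), Finset.sum_const_zero]
    positivity
  have hsR : (0 : ℝ) < s := by exact_mod_cast hs
  have htR : (0 : ℝ) < t := by exact_mod_cast ht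
  set f : Fin N → Fin N → ℝ := dev G (p i j) (cl i) (cl j) with hf
  have hf1 : ∀ a b, |f a b| ≤ 1 := by
    intro a b
    have h0 := hS.nonneg i j
    have h1 := hS.le_one i j
    simp only [hf, dev]
    split_ifs
    · rw [abs_le]
      constructor <;> linarith
    · rw [abs_le]
      constructor <;> linarith
  have hperm := c4_perm_avg f hf1 ι hι ι' hι' ε (hS.reg i j hij) hε
  have htwo := two_coord (ι := Fin m) (α := Equiv.Perm (Fin N)) hne
    (fun σ σ' => c4 (fun a b => f (σ (ι a)) (σ' (ι' b))))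
  have hcard : (Fintype.card (Equiv.Perm (Fin N)) : ℝ) = (Nat.factorial N : ℝ) := by
    rw [Fintype.card_perm, Fintype.card_fin]
  have hcard2 : (Fintype.card (Fin m → Equiv.Perm (Fin N)) : ℝ) =
      (Nat.factorial N : ℝ) ^ m := by
    rw [Fintype.card_fun, Fintype.card_fin]
    push_cast
    rw [hcard]
  rw [hcard, Fintype.card_fin] at htwo
  have hN : (0 : ℝ) < (Nat.factorial N : ℝ) := by exact_mod_cast Nat.factorial_pos N
  have hsum : ∑ π : Fin m → Equiv.Perm (Fin N),
      c4 (fun a b => f (π i (ι a)) (π j (ι' b))) ≤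
      (Fintype.card (Fin m → Equiv.Perm (Fin N)) : ℝ) *
        ((s : ℝ) ^ 2 * (t : ℝ) ^ 2 * ε + s * (t : ℝ) ^ 2 + (s : ℝ) ^ 2 * t) := by
    rw [hcard2]
    have h1 : (Nat.factorial N : ℝ) ^ 2 * ∑ π : Fin m → Equiv.Perm (Fin N),
        c4 (fun a b => f (π i (ι a)) (π j (ι' b))) ≤
        (Nat.factorial N : ℝ) ^ 2 * ((Nat.factorial N : ℝ) ^ m *
          ((s : ℝ) ^ 2 * (t : ℝ) ^ 2 * ε + s * (t : ℝ) ^ 2 + (s : ℝ) ^ 2 * t)) := by
      have htwo' : (Nat.factorial N : ℝ) ^ 2 * ∑ π : Fin m → Equiv.Perm (Fin N),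
          c4 (fun a b => f (π i (ι a)) (π j (ι' b))) = (Nat.factorial N : ℝ) ^ m *
          ∑ σ : Equiv.Perm (Fin N), ∑ σ' : Equiv.Perm (Fin N),
            c4 (fun a b => f (σ (ι a)) (σ' (ι' b))) := by
        have key : ∀ (α : Type) (i1 i2 : Fintype α) (F : α → ℝ),
            @Finset.sum _ _ _ (@Finset.univ _ i1) F = @Finset.sum _ _ _ (@Finset.univ _ i2) F := by
          intro α i1 i2 F
          rw [Subsingleton.elim i1 i2]
        refine Eq.trans ?_ (htwo.trans ?_)
        · exact congrArg _ (key _ _ _ _)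
        · refine congrArg _ ?_
          refine (Finset.sum_congr rfl fun σ _ => ?_).trans (key _ _ _ _)
          exact key _ _ _ _
      rw [htwo']
      calc (Nat.factorial N : ℝ) ^ m * _ ≤ (Nat.factorial N : ℝ) ^ m *
            ((Nat.factorial N : ℝ) ^ 2 * ((s : ℝ) ^ 2 * (t : ℝ) ^ 2 * ε + s * (t : ℝ) ^ 2 +
            (s : ℝ) ^ 2 * t)) := mul_le_mul_of_nonneg_left hperm (by positivity)
        _ = _ := by ring
    exact le_of_mul_le_mul_left h1 (by positivity)
  have hrel : ∀ π : Fin m → Equiv.Perm (Fin N),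
      rel G (p i j) (fun a => cl i (π i (ι a))) (fun b => cl j (π j (ι' b))) =
        c4 (fun a b => f (π i (ι a)) (π j (ι' b))) / ((s : ℝ) ^ 2 * (t : ℝ) ^ 2) := by
    intro π
    simp only [rel, Fintype.card_fin]
    rfl
  rw [Finset.sum_congr rfl (fun π _ => hrel π), ← Finset.sum_div]
  exact sampling_div hsR htR hsum

theorem sampling {V : Type} (G : SimpleGraph V) {m N : ℕ} {cl : Fin m → Fin N → V}
    {p : Fin m → Fin m → ℝ} {δ ε : ℝ} (hS : Sys G m N cl p δ ε) (hε : 0 ≤ ε)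
    {Blk : Type} [Fintype Blk] (size : Blk → ℕ) (clu : Blk → Fin m)
    (hfit : ∀ v, ∑ β ∈ univ.filter (fun β => clu β = v), size β ≤ N)
    {Λ : Type} [Fintype Λ] (l r : Λ → Blk) (W : Λ → ℝ) (hW : ∀ x, 0 ≤ W x)
    (hWp : ∀ x, W x ≠ 0 → 0 < p (clu (l x)) (clu (r x))) :
    ∃ A : (β : Blk) → Fin (size β) → V,
      Function.Injective (fun z : (Σ β, Fin (size β)) => A z.1 z.2) ∧
      (∀ β s, ∃ n, A β s = cl (clu β) n) ∧
      ∑ x, W x * rel G (p (clu (l x)) (clu (r x))) (A (l x)) (A (r x)) ≤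
        ∑ x, W x * (ε + 1 / size (l x) + 1 / size (r x)) := by
  obtain ⟨ψ, hψ⟩ := slots size clu hfit
  have hψi : ∀ β, Function.Injective (ψ β) := by
    intro β s s' h
    have h2 : (⟨β, s⟩ : Σ β, Fin (size β)) = ⟨β, s'⟩ := hψ (by simp [h])
    simpa using h2
  have hsum : ∑ π : Fin m → Equiv.Perm (Fin N),
      ∑ x, W x * rel G (p (clu (l x)) (clu (r x)))
        (fun a => cl (clu (l x)) (π (clu (l x)) (ψ (l x) a)))
        (fun b => cl (clu (r x)) (π (clu (r x)) (ψ (r x) b))) ≤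
      ∑ _π : Fin m → Equiv.Perm (Fin N), ∑ x, W x * (ε + 1 / size (l x) + 1 / size (r x)) := by
    rw [Finset.sum_comm, Finset.sum_comm (s := (univ : Finset (Fin m → Equiv.Perm (Fin N))))]
    refine Finset.sum_le_sum fun x _ => ?_
    rw [← Finset.mul_sum, ← Finset.mul_sum]
    by_cases hx : W x = 0
    · simp [hx]
    refine mul_le_mul_of_nonneg_left ?_ (hW x)
    refine (sampling_link G hS hε (hWp x hx) (ψ (l x)) (hψi _) (ψ (r x)) (hψi _)).trans ?_
    rw [Finset.sum_const, nsmul_eq_mul, Finset.card_univ]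
  obtain ⟨π, -, hπ⟩ := Finset.exists_le_of_sum_le Finset.univ_nonempty hsum
  refine ⟨fun β s => cl (clu β) (π (clu β) (ψ β s)), ?_, fun β s => ⟨_, rfl⟩, hπ⟩
  intro z z' h
  have h1 := hS.inj (a₁ := (clu z.1, π (clu z.1) (ψ z.1 z.2)))
    (a₂ := (clu z'.1, π (clu z'.1) (ψ z'.1 z'.2))) h
  simp only [Prod.mk.injEq] at h1
  obtain ⟨h2, h3⟩ := h1
  apply hψ
  simp only [Prod.mk.injEq]
  refine ⟨h2, ?_⟩
  rw [← h2] at h3
  exact (π (clu z.1)).injective h3

end

end Pool.Agent.H25.TD
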