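import Pool.Agent.H25.TD.PermAvg

/-!
Two counting lemmas for the random placement.

PROOF of `slots`. For each `v` the type `{z : Σ β, Fin (size β) // clu z.1 = v}` has at most `N`
elements (`Fintype.card_sigma`), so it embeds in `Fin N`.

PROOF of `two_coord`. Fibering the functions `π : ι → α` by `(π i, π j)`: all fibres have
`(card α)^(card ι - 2)` elements. (Or: the sum over `π` of `g (π i) (π j)`, times `(card α)^2`,
is `card α ^ card ι` times the double sum; e.g. by `Fintype.piFinset`/`Finset.prod_univ_sum`
applied to indicator expansions of `g`.)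
-/

namespace Pool.Agent.H25.TD

open Finset Pool.Agent.H25.TK
open scoped Classical

noncomputable section

private lemma slots_card {m N : ℕ} {Blk : Type} [Fintype Blk] (size : Blk → ℕ) (clu : Blk → Fin m)
    (hfit : ∀ v, ∑ β ∈ univ.filter (fun β => clu β = v), size β ≤ N) (v : Fin m) :
    Fintype.card {z : (Σ β, Fin (size β)) // clu z.1 = v} ≤ N := by
  refine le_trans (le_of_eq ?_) (hfit v)
  rw [Fintype.card_subtype]
  have h : (univ.filter (fun z : (Σ β, Fin (size β)) => clu z.1 = v)) =
      (univ.filter (fun β => clu β = v)).sigma (fun β => (univ : Finset (Fin (size β)))) := by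
    ext z
    simp
  rw [h, Finset.card_sigma]
  simp

lemma slots {m N : ℕ} {Blk : Type} [Fintype Blk] (size : Blk → ℕ) (clu : Blk → Fin m)
    (hfit : ∀ v, ∑ β ∈ univ.filter (fun β => clu β = v), size β ≤ N) :
    ∃ ψ : (β : Blk) → Fin (size β) → Fin N,
      Function.Injective (fun z : (Σ β, Fin (size β)) => (clu z.1, ψ z.1 z.2)) := by
  have he : ∀ v, Nonempty ({z : (Σ β, Fin (size β)) // clu z.1 = v} ↪ Fin N) := fun v =>
    Function.Embedding.nonempty_of_card_le (by simpa using slots_card size clu hfit v)
  let e : ∀ v, {z : (Σ β, Fin (size β)) // clu z.1 = v} ↪ Fin N := fun v => Classical.choice (he v)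
  have key : ∀ (v v' : Fin m) (z z' : (Σ β, Fin (size β))) (hz : clu z.1 = v)
      (hz' : clu z'.1 = v'), v = v' → e v ⟨z, hz⟩ = e v' ⟨z', hz'⟩ → z = z' := by
    intro v v' z z' hz hz' hv h
    subst hv
    have h2 := (e v).injective h
    exact congrArg Subtype.val h2
  refine ⟨fun β s => e (clu β) ⟨⟨β, s⟩, rfl⟩, ?_⟩
  intro z z' h
  simp only [Prod.mk.injEq] at h
  exact key _ _ z z' rfl rfl h.1 h.2

private lemma two_coord_card {ι α : Type} [Fintype ι] [Fintype α] {i j : ι} (hij : i ≠ j)
    (x y : α) :
    (Fintype.card α) ^ 2 * (univ.filter (fun π : ι → α => π i = x ∧ π j = y)).card =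
      (Fintype.card α) ^ Fintype.card ι := by
  have h : (univ.filter (fun π : ι → α => π i = x ∧ π j = y)) =
      Fintype.piFinset (fun k : ι => if k = i then ({x} : Finset α) else
        if k = j then {y} else univ) := by
    ext π
    simp only [Finset.mem_filter, Finset.mem_univ, true_and, Fintype.mem_piFinset]
    constructor
    · rintro ⟨h1, h2⟩ k
      by_cases hk : k = i
      · subst hk
        simp [h1]
      · by_cases hk' : k = j
        · subst hk'
          simp [hk, h2]
        · simp [hk, hk']
    · intro h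
      have h1 := h i
      have h2 := h j
      simp only [if_true, Finset.mem_singleton] at h1
      simp only [hij.symm, if_false, if_true, Finset.mem_singleton] at h2
      exact ⟨h1, h2⟩
  rw [h, Fintype.card_piFinset]
  have h1 : (∏ k : ι, (if k = i then Fintype.card α else 1)) = Fintype.card α := by
    rw [Finset.prod_ite_eq']
    simp
  have h2 : (∏ k : ι, (if k = j then Fintype.card α else 1)) = Fintype.card α := by
    rw [Finset.prod_ite_eq']
    simp
  have h3 : (Fintype.card α) ^ 2 = (∏ k : ι, (if k = i then Fintype.card α else 1)) *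
      (∏ k : ι, (if k = j then Fintype.card α else 1)) := by
    rw [h1, h2, sq]
  rw [h3, ← Finset.prod_mul_distrib, ← Finset.prod_mul_distrib]
  have h4 : ∀ k : ι, ((if k = i then Fintype.card α else 1) * (if k = j then Fintype.card α else 1) *
      (if k = i then ({x} : Finset α) else if k = j then {y} else univ).card) =
        Fintype.card α := by
    intro k
    by_cases hk : k = i
    · have hk' : k ≠ j := fun h => hij (hk.symm.trans h)
      simp [hk, hij]
    · by_cases hk' : k = j
      · simp [hk', hij.symm]
      · simp [hk, hk']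
  rw [Finset.prod_congr rfl (fun k _ => h4 k)]
  simp

lemma two_coord {ι α : Type} [Fintype ι] [Fintype α] {i j : ι} (hij : i ≠ j) (g : α → α → ℝ) :
    (Fintype.card α : ℝ) ^ 2 * ∑ π : ι → α, g (π i) (π j) =
      (Fintype.card α : ℝ) ^ Fintype.card ι * ∑ x, ∑ y, g x y := by
  have h1 : ∀ π : ι → α, g (π i) (π j) =
      ∑ x, ∑ y, if π i = x ∧ π j = y then g x y else 0 := by
    intro π
    rw [Finset.sum_eq_single (π i)]
    · rw [Finset.sum_eq_single (π j)]
      · simp
      · intro b _ hb
        rw [if_neg]
        rintro ⟨-, h⟩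
        exact hb h.symm
      · simp
    · intro b _ hb
      apply Finset.sum_eq_zero
      intro c _
      rw [if_neg]
      rintro ⟨h, -⟩
      exact hb h.symm
    · simp
  have h2 : ∑ π : ι → α, g (π i) (π j) =
      ∑ x, ∑ y, ((univ.filter (fun π : ι → α => π i = x ∧ π j = y)).card : ℝ) * g x y := by
    rw [Finset.sum_congr rfl (fun π _ => h1 π), Finset.sum_comm]
    refine Finset.sum_congr rfl fun x _ => ?_
    rw [Finset.sum_comm]
    refine Finset.sum_congr rfl fun y _ => ?_
    rw [← Finset.sum_filter, Finset.sum_const, nsmul_eq_mul]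
  rw [h2, Finset.mul_sum, Finset.mul_sum]
  refine Finset.sum_congr rfl fun x _ => ?_
  rw [Finset.mul_sum, Finset.mul_sum]
  refine Finset.sum_congr rfl fun y _ => ?_
  have h3 := two_coord_card hij x y
  have h4 : ((Fintype.card α : ℝ)) ^ 2 *
      ((univ.filter (fun π : ι → α => π i = x ∧ π j = y)).card : ℝ) =
        (Fintype.card α : ℝ) ^ Fintype.card ι := by
    exact_mod_cast h3
  rw [← mul_assoc, h4]

end

end Pool.Agent.H25.TD
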