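import Pool.Agent.H25.TD.C4
import Pool.Agent.H25.TD.MaxMatch

/-!
Strings through consecutive blocks.

PROOF of `link_perm`. `perm_matching` for `R x y = G.Adj (A x) (B y)`; `X`, `Y` of the same size `c`
without edges between them: `Σ_X Σ_Y dev = - d c²`, so by `cut_le_c4`
`(d c²)^4 <= c^4 c4`, hence `d c <= q4 (c4)` ... precisely `d^4 c^4 <= c4 = rel * s^4`, so
`δ c <= d c <= s q4 rel`.

PROOF of `strings`. Choose `σ t` from `link_perm` for the blocks `t`, `t+1` and let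
`ρ 0 = 1`, `ρ (t+1) = (σ t) * (ρ t)` (as maps `ρ (t+1) x = σ t (ρ t x)`). An `x` is bad for `t` only
if `ρ t x ∈ X t`, so there are at most `|X t| <= s/δ q4 (rel t)` bad `x` for `t`.
-/

namespace Pool.Agent.H25.TD

open Finset Pool.Agent.H25.TK
open scoped Classical

noncomputable section

lemma link_perm {V : Type} (G : SimpleGraph V) {s : ℕ} (A B : Fin s → V) (d δ : ℝ) (hδ : 0 < δ)
    (hd : δ ≤ d) : ∃ (σ : Equiv.Perm (Fin s)) (X : Finset (Fin s)),
      (∀ x ∉ X, G.Adj (A x) (B (σ x))) ∧ δ * X.card ≤ s * q4 (rel G d A B) := by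
  obtain ⟨σ, X, Y, hXY, h1, h2⟩ := perm_matching (fun x y => G.Adj (A x) (B y))
  refine ⟨σ, X, h1, ?_⟩
  have hq := q4_nonneg (rel G d A B)
  rcases X.eq_empty_or_nonempty with rfl | hne
  · simp only [card_empty, Nat.cast_zero, mul_zero]
    positivity
  have hc0 : (0 : ℝ) < X.card := by exact_mod_cast hne.card_pos
  have hXs : X.card ≤ s := by
    have := Finset.card_le_univ X
    rwa [Fintype.card_fin] at this
  have hs0 : (0 : ℝ) < s := lt_of_lt_of_le hc0 (by exact_mod_cast hXs)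
  have hd0 : 0 < d := lt_of_lt_of_le hδ hd
  have hsum : ∑ a ∈ X, ∑ b ∈ Y, dev G d A B a b = -(d * X.card * X.card) := by
    have : ∀ a ∈ X, ∑ b ∈ Y, dev G d A B a b = -(d * X.card) := by
      intro a ha
      have e : ∀ b ∈ Y, dev G d A B a b = -d := by
        intro b hb
        unfold dev
        rw [if_neg (h2 a ha b hb)]
        ring
      rw [Finset.sum_congr rfl e, Finset.sum_const, nsmul_eq_mul, ← hXY]
      ring
    rw [Finset.sum_congr rfl this, Finset.sum_const, nsmul_eq_mul]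
    ring
  have h3 := cut_le_c4 (dev G d A B) X Y
  rw [hsum, ← hXY] at h3
  have hrel : c4 (dev G d A B) = rel G d A B * (s : ℝ) ^ 4 := by
    unfold rel
    rw [Fintype.card_fin]
    field_simp
  have hrel0 : 0 ≤ rel G d A B := by
    unfold rel
    have := c4_nonneg (dev G d A B)
    positivity
  rw [hrel] at h3
  have h4 : (d * X.card) ^ 4 ≤ (s * q4 (rel G d A B)) ^ 4 := by
    have h5 : (d * X.card) ^ 4 * (X.card : ℝ) ^ 4 ≤
        (s * q4 (rel G d A B)) ^ 4 * (X.card : ℝ) ^ 4 := by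
      have e1 : (d * X.card) ^ 4 * (X.card : ℝ) ^ 4 = (-(d * X.card * X.card)) ^ 4 := by ring
      have e2 : (s * q4 (rel G d A B)) ^ 4 * (X.card : ℝ) ^ 4 =
          (X.card : ℝ) ^ 2 * (X.card : ℝ) ^ 2 * (q4 (rel G d A B) ^ 4 * (s : ℝ) ^ 4) := by ring
      rw [e1, e2, q4_pow _ hrel0]
      exact h3
    exact le_of_mul_le_mul_right h5 (by positivity)
  have h6 : d * X.card ≤ s * q4 (rel G d A B) :=
    le_of_pow_le_pow_left₀ (by norm_num) (by positivity) h4
  refine le_trans ?_ h6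
  exact mul_le_mul_of_nonneg_right hd hc0.le

theorem strings {V : Type} (G : SimpleGraph V) {s : ℕ} (ℓ : ℕ) (A : ℕ → Fin s → V) (d : ℕ → ℝ)
    (δ : ℝ) (hδ : 0 < δ) (hd : ∀ t, t + 1 < ℓ → δ ≤ d t) :
    ∃ (ρ : ℕ → Equiv.Perm (Fin s)) (Bd : Finset (Fin s)),
      (∀ x ∉ Bd, ∀ t, t + 1 < ℓ → G.Adj (A t (ρ t x)) (A (t + 1) (ρ (t + 1) x))) ∧
      δ * Bd.card ≤ s * ∑ t ∈ range (ℓ - 1), q4 (rel G (d t) (A t) (A (t + 1))) := by
  have hex : ∀ t : ℕ, ∃ (σ : Equiv.Perm (Fin s)) (X : Finset (Fin s)), t + 1 < ℓ →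
      ((∀ x ∉ X, G.Adj (A t x) (A (t + 1) (σ x))) ∧
        δ * X.card ≤ s * q4 (rel G (d t) (A t) (A (t + 1)))) := by
    intro t
    by_cases ht : t + 1 < ℓ
    · obtain ⟨σ, X, h1, h2⟩ := link_perm G (A t) (A (t + 1)) (d t) δ hδ (hd t ht)
      exact ⟨σ, X, fun _ => ⟨h1, h2⟩⟩
    · exact ⟨1, ∅, fun h => absurd h ht⟩
  choose σ X hσX using hex
  let ρ : ℕ → Equiv.Perm (Fin s) := fun t => Nat.rec 1 (fun t r => σ t * r) t
  have hρ : ∀ t x, ρ (t + 1) x = σ t (ρ t x) := fun t x => rfl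
  refine ⟨ρ, (range (ℓ - 1)).biUnion (fun t => univ.filter (fun x => ρ t x ∈ X t)), ?_, ?_⟩
  · intro x hx t ht
    rw [hρ]
    apply (hσX t ht).1
    intro hmem
    apply hx
    rw [mem_biUnion]
    exact ⟨t, mem_range.mpr (by omega), mem_filter.mpr ⟨mem_univ _, hmem⟩⟩
  · have h1 : (((range (ℓ - 1)).biUnion (fun t => univ.filter (fun x => ρ t x ∈ X t))).card : ℝ) ≤
        ∑ t ∈ range (ℓ - 1), ((X t).card : ℝ) := by
      have h2 := Finset.card_biUnion_le (s := range (ℓ - 1))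
        (t := fun t => univ.filter (fun x : Fin s => ρ t x ∈ X t))
      have h3 : ∑ t ∈ range (ℓ - 1), (univ.filter (fun x : Fin s => ρ t x ∈ X t)).card ≤
          ∑ t ∈ range (ℓ - 1), (X t).card := by
        refine Finset.sum_le_sum fun t _ => ?_
        refine Finset.card_le_card_of_injOn (fun x => ρ t x) ?_ ?_
        · intro x hx
          exact (mem_filter.mp (Finset.mem_coe.mp hx)).2
        · intro x _ y _ hxy
          exact (ρ t).injective hxy
      exact_mod_cast h2.trans h3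
    calc δ * _ ≤ δ * ∑ t ∈ range (ℓ - 1), ((X t).card : ℝ) :=
          mul_le_mul_of_nonneg_left h1 hδ.le
      _ = ∑ t ∈ range (ℓ - 1), δ * ((X t).card : ℝ) := Finset.mul_sum _ _ _
      _ ≤ ∑ t ∈ range (ℓ - 1), s * q4 (rel G (d t) (A t) (A (t + 1))) := by
          refine Finset.sum_le_sum fun t ht => ?_
          exact (hσX t (by have := mem_range.mp ht; omega)).2
      _ = s * ∑ t ∈ range (ℓ - 1), q4 (rel G (d t) (A t) (A (t + 1))) :=
          (Finset.mul_sum _ _ _).symm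

/-- `rel` does not change under reindexing. -/
lemma rel_perm {V S T : Type} [Fintype S] [Fintype T] (G : SimpleGraph V) (d : ℝ) (A : S → V)
    (B : T → V) (σ : Equiv.Perm S) (τ : Equiv.Perm T) :
    rel G d (fun x => A (σ x)) (fun y => B (τ y)) = rel G d A B := by
  unfold rel
  have := c4_perm (dev G d A B) σ τ
  have e : dev G d (fun x => A (σ x)) (fun y => B (τ y)) =
      fun a b => dev G d A B (σ a) (τ b) := rfl
  rw [e, this]

end

end Pool.Agent.H25.TD
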