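import Pool.Agent.H25.TD.Place
import Pool.Agent.H25.TD.Strings

/-!
Strings of a plan.

PROOF. `a`, `u` from `place`; for each `τ` apply `strings` with `ℓ = P.len τ`, `A = a τ`,
`d t = p (pos t) (pos (t+1)) >= δ` for `t + 1 < ℓ` (chain condition of `P.route`, `hS.gap`): `ρ τ`,
`Bd τ`. New `a τ t x := a τ t (ρ τ t x)`. The end terms do not change by `rel_perm`; the chain terms
are replaced by `δ |Bd τ|`.
-/

namespace Pool.Agent.H25.TD

open Finset Pool.Agent.H25.TK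
open scoped Classical

noncomputable section

/-- Output of the placement: branch vertices `u`, strings `a τ _ x` (`x` not in `Bd τ`). -/
structure Wired {V : Type} (G : SimpleGraph V) {m N : ℕ} (cl : Fin m → Fin N → V)
    (p : Fin m → Fin m → ℝ) (δ Ξ : ℝ) (P : Plan m N p)
    (a : (τ : Fin P.q) → ℕ → Fin (P.sz τ) → V) (u : (i : Fin m) → Fin (P.b i) → V)
    (Bd : (τ : Fin P.q) → Finset (Fin (P.sz τ))) : Prop where
  u_inj : Function.Injective (fun z : (Σ i, Fin (P.b i)) => u z.1 z.2)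
  a_inj : ∀ τ t x τ' t' x', t < P.len τ → t' < P.len τ' → a τ t x = a τ' t' x' →
    t = t' ∧ (⟨τ, x⟩ : Σ τ, Fin (P.sz τ)) = ⟨τ', x'⟩
  a_u : ∀ τ t x i r, t < P.len τ → a τ t x ≠ u i r
  a_cl : ∀ τ t x, t < P.len τ → ∃ i n, a τ t x = cl i n
  u_cl : ∀ i r, ∃ i' n, u i r = cl i' n
  adj : ∀ τ, ∀ x ∉ Bd τ, ∀ t, t + 1 < P.len τ → G.Adj (a τ t x) (a τ (t + 1) x)
  bound : (∑ τ, (δ * (Bd τ).card + (P.sz τ : ℝ) *
        (q4 (rel G (p (P.src τ) (P.pos τ 0)) (u (P.src τ)) (a τ 0)) +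
        q4 (rel G (p (P.dst τ) (P.pos τ (P.len τ - 1))) (u (P.dst τ)) (a τ (P.len τ - 1)))))) +
      ∑ i, ∑ j, (if i < j ∧ 0 < p i j then
        (P.b i : ℝ) * P.b j * q4 (rel G (p i j) (u i) (u j)) else 0) ≤ Ξ

private lemma Wire_pos {m N : ℕ} {p : Fin m → Fin m → ℝ} (P : Plan m N p) (τ : Fin P.q) (t : ℕ)
    (ht : t + 1 < P.len τ) : 0 < p (P.pos τ t) (P.pos τ (t + 1)) := by
  have h1 := (P.route τ).2.tail.left_of_append
  simp only [Plan.len] at ht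
  have h2 := h1.getElem t ht
  have h3 : P.pos τ t = (P.w τ)[t] := by
    unfold Plan.pos
    exact List.getD_eq_getElem _ _ (by omega)
  have h4 : P.pos τ (t + 1) = (P.w τ)[t + 1] := by
    unfold Plan.pos
    exact List.getD_eq_getElem _ _ ht
  rw [h3, h4]
  exact h2

theorem wire {V : Type} (G : SimpleGraph V) {m N : ℕ} {cl : Fin m → Fin N → V}
    {p : Fin m → Fin m → ℝ} {δ ε : ℝ} (hS : Sys G m N cl p δ ε) (hδ : 0 < δ) (hε : 0 ≤ ε)
    (P : Plan m N p) (Ξ : ℝ) (hΞ : q4 P.wt ^ 3 * q4 (ε * P.wt + P.low) ≤ Ξ) :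
    ∃ a u Bd, Wired G cl p δ Ξ P a u Bd := by
  obtain ⟨a, u, h1, h2, h3, h4, h5, h6⟩ := place G hS hε P Ξ hΞ
  have hst : ∀ τ : Fin P.q, ∃ (ρ : ℕ → Equiv.Perm (Fin (P.sz τ))) (Bd : Finset (Fin (P.sz τ))),
      (∀ x ∉ Bd, ∀ t, t + 1 < P.len τ → G.Adj (a τ t (ρ t x)) (a τ (t + 1) (ρ (t + 1) x))) ∧
      δ * Bd.card ≤ (P.sz τ : ℕ) * ∑ t ∈ range (P.len τ - 1),
        q4 (rel G (p (P.pos τ t) (P.pos τ (t + 1))) (a τ t) (a τ (t + 1))) := fun τ =>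
    strings G (P.len τ) (a τ) (fun t => p (P.pos τ t) (P.pos τ (t + 1))) δ hδ
      (fun t ht => hS.gap _ _ (Wire_pos P τ t ht))
  choose ρ Bd hρ hBd using hst
  have hrel : ∀ (τ : Fin P.q) (t : ℕ) (i : Fin m) (d : ℝ),
      rel G d (u i) (fun x => a τ t (ρ τ t x)) = rel G d (u i) (a τ t) := fun τ t i d =>
    rel_perm G d (u i) (a τ t) (Equiv.refl _) (ρ τ t)
  refine ⟨fun τ t x => a τ t (ρ τ t x), u, Bd, h1, ?_, ?_, ?_, h5, ?_, ?_⟩
  · intro τ t x τ' t' x' ht ht' h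
    obtain ⟨h7, h8⟩ := h2 τ t _ τ' t' _ ht ht' h
    refine ⟨h7, ?_⟩
    subst h7
    obtain ⟨h9, h10⟩ := Sigma.mk.inj_iff.1 h8
    subst h9
    have h11 := (ρ τ t).injective (eq_of_heq h10)
    rw [h11]
  · intro τ t x i r ht
    exact h3 τ t _ i r ht
  · intro τ t x ht
    exact h4 τ t _ ht
  · intro τ x hx t ht
    exact hρ τ x hx t ht
  · refine le_trans ?_ h6
    refine add_le_add_left ?_ _
    refine Finset.sum_le_sum fun τ _ => ?_
    rw [hrel, hrel]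
    have h7 := hBd τ
    have h8 : (P.sz τ : ℝ) * (∑ t ∈ range (P.len τ - 1),
            q4 (rel G (p (P.pos τ t) (P.pos τ (t + 1))) (a τ t) (a τ (t + 1))) +
          q4 (rel G (p (P.src τ) (P.pos τ 0)) (u (P.src τ)) (a τ 0)) +
          q4 (rel G (p (P.dst τ) (P.pos τ (P.len τ - 1))) (u (P.dst τ)) (a τ (P.len τ - 1)))) =
        (P.sz τ : ℝ) * (∑ t ∈ range (P.len τ - 1),
            q4 (rel G (p (P.pos τ t) (P.pos τ (t + 1))) (a τ t) (a τ (t + 1)))) +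
        (P.sz τ : ℝ) * (q4 (rel G (p (P.src τ) (P.pos τ 0)) (u (P.src τ)) (a τ 0)) +
          q4 (rel G (p (P.dst τ) (P.pos τ (P.len τ - 1))) (u (P.dst τ)) (a τ (P.len τ - 1)))) := by
      ring
    rw [h8]
    linarith

end

end Pool.Agent.H25.TD
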