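import Mathlib

/-!
MP_5406dc (clique subdivisions), dense side of the pipeline: template worlds.

A world has `m` types, type `i` has mass `x i` (number of vertices divided by `k^2`) and `p i j` is
the edge density between the types. A branch distribution `b` is feasible if all demands
`(1 - p i j) b i b j` (`i < j`) and `b i ^ 2 / 2` can be routed fractionally through the types, a
route for `(i,j)` being a nonempty list of types that starts next to `i` and ends next to `j`
(the same type may be used several times by a route, it is then counted several times), with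
total load at most the mass of the type.
-/

namespace Pool.Agent.H25.TD

open Finset

/-- A template. -/
structure World (m : ℕ) where
  x : Fin m → ℝ
  p : Fin m → Fin m → ℝ
  x_pos : ∀ i, 0 < x i
  p_symm : ∀ i j, p i j = p j i
  p_nonneg : ∀ i j, 0 ≤ p i j
  p_le : ∀ i j, p i j ≤ 1
  p_self : ∀ i, p i i = 0

/-- `w` is a route from `i` to `j`. -/
def IsRoute {m : ℕ} (p : Fin m → Fin m → ℝ) (i j : Fin m) (w : List (Fin m)) : Prop :=
  w ≠ [] ∧ List.IsChain (fun a b => 0 < p a b) (i :: (w ++ [j]))

/-- The branch distribution `b` is feasible. -/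
structure Feas {m : ℕ} (W : World m) (b : Fin m → ℝ) : Prop where
  nonneg : ∀ i, 0 ≤ b i
  sum_one : ∑ i, b i = 1
  routes : ∃ (Ω : Finset (List (Fin m))) (g : Fin m → Fin m → List (Fin m) → ℝ),
    (∀ i j w, 0 ≤ g i j w) ∧
    (∀ i j w, g i j w ≠ 0 → i ≤ j ∧ w ∈ Ω ∧ IsRoute W.p i j w) ∧
    (∀ i j, i < j → ∑ w ∈ Ω, g i j w = (1 - W.p i j) * b i * b j) ∧
    (∀ i, ∑ w ∈ Ω, g i i w = b i ^ 2 / 2) ∧
    ∀ v, ∑ i, ∑ j, ∑ w ∈ Ω, g i j w * (w.count v : ℝ) ≤ W.x v

/-- The template inequality with constant `lam`: a world with more than `lam` times its mass of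
edges has a feasible branch distribution. With `lam` one gets `sub(k) <= (2 lam + o(1)) k^2`
(the conjecture is `lam = 9/128`). -/
def TIneq (lam : ℝ) : Prop :=
  ∀ (m : ℕ) (W : World m),
    lam * ∑ i, W.x i < (∑ i, ∑ j, W.x i * W.x j * W.p i j) / 2 → ∃ b, Feas W b

end Pool.Agent.H25.TD
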